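import Pool.Agent.P.MP_26a8c3_nt.QO.StR

/-! Basic properties of the residue symbols. -/

namespace Pool.Agent.P.MP_26a8c3_nt.QO

open UniqueFactorizationMonoid
open scoped Classical ComplexConjugate

variable {f g : O → ℂ} {a b n m p x y u v : O}

/-! ### products over prime factors -/

@[simp] lemma ext_one (f : O → ℂ) : ext f 1 = 1 := by simp [ext]
@[simp] lemma ext_zero (f : O → ℂ) : ext f 0 = 1 := by simp [ext]

lemma ext_assoc (f : O → ℂ) (h : Associated a b) : ext f a = ext f b := by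
  rw [ext, ext, h.normalizedFactors_eq]

lemma ext_unit (f : O → ℂ) (h : IsUnit a) : ext f a = 1 := by
  rw [ext_assoc f (associated_one_iff_isUnit.2 h), ext_one]

lemma ext_mul (f : O → ℂ) (ha : a ≠ 0) (hb : b ≠ 0) : ext f (a * b) = ext f a * ext f b := by
  rw [ext, normalizedFactors_mul ha hb, Multiset.map_add, Multiset.prod_add]; rfl

lemma ext_pow (f : O → ℂ) (a : O) (k : ℕ) : ext f (a ^ k) = ext f a ^ k := by
  by_cases ha : a = 0
  · subst ha; cases k <;> simp
  induction k with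
  | zero => simp
  | succ k ih => rw [pow_succ, ext_mul f (pow_ne_zero _ ha) ha, ih, pow_succ]

lemma ext_prime' (f : O → ℂ) (hp : Prime p) : ext f p = f (normalize p) := by
  simp [ext, normalizedFactors_irreducible hp.irreducible]

lemma ext_prime (f : O → ℂ) (hp : Prime p) (h : Primary p) : ext f p = f p := by
  rw [ext_prime' f hp, h.normalize]

lemma mem_nf (h : p ∈ normalizedFactors n) : Prime p ∧ Nrm p ∧ p ∣ n :=
  ⟨prime_of_normalized_factor p h, (normalize_eq_self_iff (prime_of_normalized_factor p h).ne_zero).1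
    (normalize_normalized_factor p h), dvd_of_mem_normalizedFactors h⟩

lemma ext_congr (h : ∀ p, Prime p → Nrm p → p ∣ n → f p = g p) : ext f n = ext g n := by
  rw [ext, ext]
  congr 1
  exact Multiset.map_congr rfl fun p hp => h p (mem_nf hp).1 (mem_nf hp).2.1 (mem_nf hp).2.2

/-- congruence for primary arguments: only primary primes occur -/
lemma ext_congr' (hn : Primary n) (h : ∀ p, Prime p → Primary p → p ∣ n → f p = g p) :
    ext f n = ext g n :=
  ext_congr fun p h1 h2 h3 => h p h1 (h2.primary fun e => hn.not_lam_dvd (e.trans h3)) h3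

lemma ext_mul_fun (f g : O → ℂ) (n : O) : ext (fun p => f p * g p) n = ext f n * ext g n :=
  Multiset.prod_map_mul

@[simp] lemma ext_const_one (n : O) : ext (fun _ => 1) n = 1 := by simp [ext]

lemma ext_pow_fun (f : O → ℂ) (n : O) (k : ℕ) : ext (fun p => f p ^ k) n = ext f n ^ k := by
  induction k with
  | zero => simp
  | succ k ih => simp only [pow_succ, ext_mul_fun, ih]

lemma conj_ext (f : O → ℂ) (n : O) : conj (ext f n) = ext (fun p => conj (f p)) n := by
  rw [ext, ext, map_multiset_prod, Multiset.map_map]; rfl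

lemma ext_eq_zero (hn : n ≠ 0) : ext f n = 0 ↔ ∃ p, Prime p ∧ Nrm p ∧ p ∣ n ∧ f p = 0 := by
  rw [ext, Multiset.prod_eq_zero_iff, Multiset.mem_map]
  constructor
  · rintro ⟨p, h, e⟩; exact ⟨p, (mem_nf h).1, (mem_nf h).2.1, (mem_nf h).2.2, e⟩
  · rintro ⟨p, h1, h2, h3, e⟩
    exact ⟨p, (mem_normalizedFactors_iff' hn).2 ⟨h1.irreducible, h2.normalize, h3⟩, e⟩

/-- induction on the prime factors of a nonzero element -/
lemma nz_ind {P : O → Prop} (h1 : ∀ u, IsUnit u → P u)
    (h2 : ∀ p a, Prime p → Nrm p → a ≠ 0 → P a → P (p * a)) (ha : a ≠ 0) : P a := by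
  suffices h : ∀ k, ∀ a, a ≠ 0 → N a = k → P a from h _ a ha rfl
  intro k
  induction k using Nat.strong_induction_on with
  | _ k ih =>
    intro a ha hk
    by_cases hu : IsUnit a
    · exact h1 a hu
    obtain ⟨p, hp⟩ := exists_mem_normalizedFactors ha hu
    obtain ⟨e1, e2, c, rfl⟩ := mem_nf hp
    have hc : c ≠ 0 := right_ne_zero_of_mul ha
    refine h2 p c e1 e2 hc (ih (N c) ?_ c hc rfl)
    have := two_le_N e1
    have := N_pos hc
    rw [← hk, map_mul]; nlinarith

/-- induction on the prime factors of a primary element -/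
lemma primary_ind {P : O → Prop} (h1 : P 1)
    (h2 : ∀ p a, Prime p → Primary p → Primary a → P a → P (p * a)) (ha : Primary a) : P a := by
  refine nz_ind (P := fun a => Primary a → P a) (fun u hu h => h.eq_one_of_isUnit hu ▸ h1)
    (fun p a e1 e2 _ ih h => ?_) ha.ne_zero ha
  have hp := e2.primary fun e => h.not_lam_dvd (e.mul_right a)
  exact h2 p a e1 hp (h.of_mul hp) (ih (h.of_mul hp))

lemma ext_N (hn : n ≠ 0) : ext (fun p => (N p : ℂ)) n = N n := by
  refine nz_ind (P := fun n => ext (fun p => (N p : ℂ)) n = N n) (fun u hu => ?_)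
    (fun p a e1 e2 ha ih => ?_) hn
  · rw [ext_unit _ hu, isUnit_iff_N.1 hu]; simp
  · rw [ext_mul _ e1.ne_zero ha, ih, ext_prime' _ e1]; simp

lemma norm_ext_le (h : ∀ p, Prime p → Nrm p → p ∣ n → ‖f p‖ ≤ ‖g p‖) : ‖ext f n‖ ≤ ‖ext g n‖ := by
  by_cases hn : n = 0
  · simp [hn]
  refine nz_ind (P := fun n => (∀ p, Prime p → Nrm p → p ∣ n → ‖f p‖ ≤ ‖g p‖) →
    ‖ext f n‖ ≤ ‖ext g n‖) (fun u hu _ => ?_) (fun p a e1 e2 ha ih h => ?_) hn h
  · rw [ext_unit _ hu, ext_unit _ hu]
  · rw [ext_mul _ e1.ne_zero ha, ext_mul _ e1.ne_zero ha, norm_mul, norm_mul, ext_prime' _ e1,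
      ext_prime' _ e1, e2.normalize]
    exact mul_le_mul (h p e1 e2 (dvd_mul_right _ _))
      (ih fun q q1 q2 q3 => h q q1 q2 (q3.mul_left _)) (norm_nonneg _) (norm_nonneg _)

lemma norm_ext_le_one (h : ∀ p, Prime p → Nrm p → p ∣ n → ‖f p‖ ≤ 1) : ‖ext f n‖ ≤ 1 := by
  simpa using norm_ext_le (g := fun _ => 1) (by simpa using h)

lemma not_coprime_iff (hn : n ≠ 0) : ¬IsCoprime m n ↔ ∃ p, Prime p ∧ Nrm p ∧ p ∣ n ∧ p ∣ m := by
  constructor
  · intro h
    by_contra hc
    refine h (isCoprime_of_prime_dvd (fun e => hn e.2) fun p hp h1 h2 => hc ?_)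
    have e := normalize_associated p
    exact ⟨normalize p, e.symm.prime hp, nrm_normalize hp.ne_zero, e.dvd.trans h2, e.dvd.trans h1⟩
  · rintro ⟨p, h1, -, h2, h3⟩ h
    exact h1.not_isUnit (h.isUnit_of_dvd' h3 h2)

lemma cop_prime (hp : Prime p) (m : O) : cop p m = if p ∣ m then 0 else 1 := by
  simp only [cop, isCoprime_comm (x := m), hp.coprime_iff_not_dvd, ite_not]

lemma ext_cop (hn : n ≠ 0) (m : O) : ext (fun p => if p ∣ m then 0 else 1) n = cop n m := by
  unfold cop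
  split_ifs with h
  · exact (ext_congr fun p h1 h2 h3 =>
      if_neg fun e => (not_coprime_iff hn).2 ⟨p, h1, h2, h3, e⟩ h).trans (ext_const_one n)
  · obtain ⟨p, h1, h2, h3, e⟩ := (not_coprime_iff hn).1 h
    exact (ext_eq_zero hn).2 ⟨p, h1, h2, h3, if_pos e⟩

/-! ### the cubic symbol at a prime -/

/-- cube roots of unity -/
def R3 (u : O) : Prop := u = 1 ∨ u = w ∨ u = w ^ 2

lemma R3.mul (hu : R3 u) (hv : R3 v) : R3 (u * v) := by
  rcases hu with rfl | rfl | rfl <;> rcases hv with rfl | rfl | rfl <;> unfold R3 <;> decide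

lemma R3.star (hu : R3 u) : R3 (star u) := by
  rcases hu with rfl | rfl | rfl <;> unfold R3 <;> decide

lemma R3.cube (hu : R3 u) : u ^ 3 = 1 := by rcases hu with rfl | rfl | rfl <;> decide

lemma R3.star_eq (hu : R3 u) : Star.star u = u ^ 2 := by rcases hu with rfl | rfl | rfl <;> decide

lemma R3.eq_of_dvd (hu : R3 u) (hv : R3 v) (hp : Prime p) (h3 : ¬lam ∣ p) (h : p ∣ u - v) :
    u = v := by
  by_contra hc
  have e : N (u - v) = 3 := by
    have := N_int (u - v)
    rcases hu with rfl | rfl | rfl <;> rcases hv with rfl | rfl | rfl <;>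
      first | exact absurd rfl hc | (simp [sq] at this; exact_mod_cast this)
  have h1 := N_dvd h
  rw [e] at h1
  rcases (Nat.dvd_prime Nat.prime_three).1 h1 with h2 | h2
  · have := two_le_N hp; omega
  · exact h3 ((lam_dvd_iff_N p).2 (by rw [h2]))

lemma s3_of_dvd (h : p ∣ m) : s3 p m = 0 := if_pos h

lemma s3_R3 (h : ¬p ∣ m) : R3 (s3 p m) := by
  rw [s3, if_neg h]; unfold R3; split_ifs <;> simp

lemma s3_spec (hp : Prime p) (h3 : ¬lam ∣ p) (m : O) : p ∣ m ^ ((N p - 1) / 3) - s3 p m := by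
  have h2 := two_le_N hp
  have h4 := N_mod_three h3
  unfold s3
  split_ifs with h h1 h1'
  · rw [sub_zero]; exact dvd_pow h (by omega)
  · exact h1
  · exact h1'
  · have e := dvd_pow_N_sub_one hp h
    rw [show N p - 1 = (N p - 1) / 3 * 3 by omega, pow_mul] at e
    generalize m ^ ((N p - 1) / 3) = t at *
    have : t ^ 3 - 1 = (t - 1) * ((t - w) * (t - w ^ 2)) := by
      linear_combination (t - 1) * t * w_rel - (t - 1) * w_cube
    rw [this] at e
    exact ((hp.dvd_or_dvd ((hp.dvd_or_dvd e).resolve_left h1)).resolve_left h1')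

lemma s3_eq (hp : Prime p) (h3 : ¬lam ∣ p) (hu : R3 u) (h : p ∣ m ^ ((N p - 1) / 3) - u) :
    s3 p m = u := by
  have h1 : p ∣ s3 p m - u := by simpa using dvd_sub h (s3_spec hp h3 m)
  refine (s3_R3 fun hm => ?_).eq_of_dvd hu hp h3 h1
  rw [s3_of_dvd hm, zero_sub, dvd_neg] at h1
  exact hp.not_isUnit (isUnit_of_dvd_one (hu.cube ▸ dvd_pow h1 (by norm_num)))

lemma s3_lam (hp : Prime p) (h3 : lam ∣ p) (m : O) : s3 p m = if p ∣ m then 0 else 1 := by
  have : N p = 3 := by
    rw [← N_assoc (prime_lam.associated_of_dvd hp h3), N_lam]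
  simp [s3, this]

lemma s3_mul (hp : Prime p) (x y : O) : s3 p (x * y) = s3 p x * s3 p y := by
  by_cases hx : p ∣ x
  · rw [s3_of_dvd hx, s3_of_dvd (hx.mul_right y), zero_mul]
  by_cases hy : p ∣ y
  · rw [s3_of_dvd hy, s3_of_dvd (hy.mul_left x), mul_zero]
  by_cases h3 : lam ∣ p
  · simp [s3_lam hp h3, hx, hy, hp.dvd_mul]
  refine s3_eq hp h3 ((s3_R3 hx).mul (s3_R3 hy)) ?_
  obtain ⟨c, hc⟩ := s3_spec hp h3 x
  obtain ⟨d, hd⟩ := s3_spec hp h3 y
  exact ⟨c * y ^ ((N p - 1) / 3) + s3 p x * d, by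
    rw [mul_pow]; linear_combination y ^ ((N p - 1) / 3) * hc + s3 p x * hd⟩

lemma dvd_congr (h : p ∣ x - y) : p ∣ x ↔ p ∣ y :=
  ⟨fun e => by simpa using dvd_sub e h, fun e => by simpa using dvd_add h e⟩

lemma s3_congr (h : p ∣ x - y) : s3 p x = s3 p y := by
  have e : ∀ (k : ℕ) (u : O), p ∣ x ^ k - u ↔ p ∣ y ^ k - u := fun k u =>
    dvd_congr (by simpa using h.trans (sub_dvd_pow_sub_pow x y k))
  simp only [s3, e, dvd_congr h]

lemma s3_one (hp : Prime p) : s3 p 1 = 1 := by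
  simp [s3, show ¬p ∣ 1 from fun h => hp.not_isUnit (isUnit_of_dvd_one h)]

lemma s3_assoc (h : Associated a b) (m : O) : s3 a m = s3 b m := by
  simp only [s3, h.dvd_iff_dvd_left, N_assoc h]

lemma star_dvd_star : star a ∣ star b ↔ a ∣ b :=
  ⟨fun ⟨c, h⟩ => ⟨star c, by simpa using congrArg star h⟩, fun ⟨c, h⟩ => ⟨star c, by simp [h]⟩⟩

lemma prime_star (hp : Prime p) : Prime (star p) :=
  (MulEquiv.prime_iff (starRingAut (R := O)).toMulEquiv).2 hp

lemma s3_star (hp : Prime p) (m : O) : s3 (star p) (star m) = star (s3 p m) := by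
  by_cases hm : p ∣ m
  · rw [s3_of_dvd hm, s3_of_dvd (star_dvd_star.2 hm), star_zero]
  have e : lam ∣ star p ↔ lam ∣ p := by rw [lam_dvd_iff_N, lam_dvd_iff_N, N_star]
  by_cases h3 : lam ∣ p
  · simp [s3_lam hp h3, s3_lam (prime_star hp) (e.2 h3), star_dvd_star, hm]
  refine s3_eq (prime_star hp) (mt e.1 h3) (s3_R3 hm).star ?_
  rw [N_star, ← star_pow, ← star_sub, star_dvd_star]
  exact s3_spec hp h3 m

lemma s3_cube (p m : O) : toC (s3 p m) ^ 3 = if p ∣ m then 0 else 1 := by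
  split_ifs with h
  · simp [s3_of_dvd h]
  · rw [← map_pow, (s3_R3 h).cube, map_one]

lemma conj_s3 (p m : O) : conj (toC (s3 p m)) = toC (s3 p m) ^ 2 := by
  by_cases h : p ∣ m
  · simp [s3_of_dvd h]
  · rw [← toC_star, (s3_R3 h).star_eq, map_pow]

/-! ### the quadratic symbol at a prime -/

lemma s2_quad (p : O) [Fact (Prime p)] (m : O) :
    s2 p m = ((quadraticChar (Rq p) (mk p m) : ℤ) : ℂ) := by
  have e : (∃ y, p ∣ m - y ^ 2) ↔ IsSquare (mk p m) := by
    constructor
    · rintro ⟨y, hy⟩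
      rw [← mk_eq_iff, map_pow, sq] at hy
      exact ⟨_, hy⟩
    · rintro ⟨r, hr⟩
      obtain ⟨y, rfl⟩ := mk_surj p r
      exact ⟨y, by rw [← mk_eq_iff, map_pow, hr, sq]⟩
  rw [s2, quadraticChar_apply, quadraticCharFun]
  simp only [e, mk_eq_zero]
  split_ifs <;> simp

lemma s2_mul (hp : Prime p) (x y : O) : s2 p (x * y) = s2 p x * s2 p y := by
  have := Fact.mk hp
  simp only [s2_quad, map_mul, Int.cast_mul]

lemma s2_congr (hp : Prime p) (h : p ∣ x - y) : s2 p x = s2 p y := by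
  have := Fact.mk hp
  rw [s2_quad, s2_quad, mk_eq_iff.2 h]

lemma s2_one (hp : Prime p) : s2 p 1 = 1 := by
  have := Fact.mk hp
  simp [s2_quad]

lemma s2_sq (p m : O) : s2 p m ^ 2 = if p ∣ m then 0 else 1 := by
  unfold s2; split_ifs <;> simp

lemma conj_s2 (p m : O) : conj (s2 p m) = s2 p m := by
  unfold s2; split_ifs <;> simp

lemma s2_assoc (h : Associated a b) (m : O) : s2 a m = s2 b m := by
  simp only [s2, h.dvd_iff_dvd_left]

/-! ### the symbols -/

lemma cop_of (h : IsCoprime m n) : cop n m = 1 := if_pos h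
lemma cop_of_not (h : ¬IsCoprime m n) : cop n m = 0 := if_neg h

lemma norm_eq_one_of_pow {z : ℂ} {k : ℕ} (hk : k ≠ 0) (h : z ^ k = 1) : ‖z‖ = 1 :=
  Complex.norm_eq_one_of_pow_eq_one h hk

@[simp] lemma chi_one_left (m : O) : chi 1 m = 1 := ext_one _
lemma chi_unit_left (h : IsUnit a) (m : O) : chi a m = 1 := ext_unit _ h
lemma chi_assoc (h : Associated a b) (m : O) : chi a m = chi b m := ext_assoc _ h
lemma chi_mul_left (ha : a ≠ 0) (hb : b ≠ 0) (m : O) : chi (a * b) m = chi a m * chi b m :=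
  ext_mul _ ha hb
lemma chi_pow_left (a m : O) (k : ℕ) : chi (a ^ k) m = chi a m ^ k := ext_pow _ _ _
lemma chi_prime (hp : Prime p) (m : O) : chi p m = toC (s3 p m) := by
  rw [chi, ext_prime' _ hp, s3_assoc (normalize_associated p)]

lemma chi_mul (n x y : O) : chi n (x * y) = chi n x * chi n y := by
  rw [chi, chi, chi, ← ext_mul_fun]
  exact ext_congr fun p hp _ _ => by rw [s3_mul hp, map_mul]

@[simp] lemma chi_one (n : O) : chi n 1 = 1 :=
  (ext_congr fun p hp _ _ => by rw [s3_one hp, map_one]).trans (ext_const_one n)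

lemma chi_pow (n x : O) (k : ℕ) : chi n (x ^ k) = chi n x ^ k := by
  induction k with
  | zero => simp
  | succ k ih => rw [pow_succ, chi_mul, ih, pow_succ]

lemma chi_congr (h : n ∣ x - y) : chi n x = chi n y :=
  ext_congr fun _ _ _ e => by rw [s3_congr (e.trans h)]

lemma chi_cube (hn : n ≠ 0) (m : O) : chi n m ^ 3 = cop n m := by
  rw [chi, ← ext_pow_fun, ← ext_cop hn]; simp only [s3_cube]

lemma conj_chi (n m : O) : conj (chi n m) = chi n m ^ 2 := by
  rw [chi, conj_ext, ← ext_pow_fun]; simp only [conj_s3]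

lemma chi_eq_zero (hn : n ≠ 0) : chi n m = 0 ↔ ¬IsCoprime m n := by
  rw [← pow_eq_zero_iff (n := 3) (by norm_num), chi_cube hn, cop]; simp

lemma norm_chi (hn : n ≠ 0) (h : IsCoprime m n) : ‖chi n m‖ = 1 :=
  norm_eq_one_of_pow (k := 3) (by norm_num) (by rw [chi_cube hn, cop_of h])

lemma norm_chi_le (n m : O) : ‖chi n m‖ ≤ 1 := by
  by_cases hn : n = 0
  · simp [hn, chi]
  by_cases h : IsCoprime m n
  · exact (norm_chi hn h).le
  · simp [(chi_eq_zero hn).2 h]

lemma chi_mul_conj (hn : n ≠ 0) (m : O) : chi n m * conj (chi n m) = cop n m := by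
  rw [conj_chi, ← chi_cube hn]; ring

lemma chi_neg_one (n : O) : chi n (-1) = 1 := by
  by_cases hn : n = 0
  · simp [hn, chi]
  have h1 := chi_cube hn (-1)
  rw [cop_of isCoprime_one_left.neg_left] at h1
  have h2 : chi n (-1) ^ 2 = 1 := by rw [← chi_pow]; simp
  linear_combination h1 - chi n (-1) * h2

@[simp] lemma chi_neg (n m : O) : chi n (-m) = chi n m := by
  rw [← neg_one_mul, chi_mul, chi_neg_one, one_mul]

lemma chi_star (n m : O) : chi (star n) (star m) = conj (chi n m) := by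
  by_cases hn : n = 0
  · simp [hn, chi]
  refine nz_ind (P := fun n => chi (star n) (star m) = conj (chi n m)) (fun u hu => ?_)
    (fun p a e1 _ ha ih => ?_) hn
  · rw [chi_unit_left hu, chi_unit_left hu.star, map_one]
  · rw [star_mul', chi_mul_left (prime_star e1).ne_zero (star_ne_zero.2 ha), ih,
      chi_mul_left e1.ne_zero ha, map_mul, chi_prime e1, chi_prime (prime_star e1), s3_star e1,
      toC_star]

lemma isNu_chi (hn : n ≠ 0) : IsNu n (chi n) :=
  ⟨chi_one n, chi_mul n, fun _ _ => chi_congr, fun _ => (chi_eq_zero hn).2, norm_chi_le n⟩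

@[simp] lemma eta_one_left (m : O) : eta 1 m = 1 := ext_one _
lemma eta_unit_left (h : IsUnit a) (m : O) : eta a m = 1 := ext_unit _ h
lemma eta_assoc (h : Associated a b) (m : O) : eta a m = eta b m := ext_assoc _ h
lemma eta_mul_left (ha : a ≠ 0) (hb : b ≠ 0) (m : O) : eta (a * b) m = eta a m * eta b m :=
  ext_mul _ ha hb
lemma eta_pow_left (a m : O) (k : ℕ) : eta (a ^ k) m = eta a m ^ k := ext_pow _ _ _
lemma eta_prime (hp : Prime p) (m : O) : eta p m = s2 p m := by
  rw [eta, ext_prime' _ hp, s2_assoc (normalize_associated p)]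

lemma eta_mul (n x y : O) : eta n (x * y) = eta n x * eta n y := by
  rw [eta, eta, eta, ← ext_mul_fun]
  exact ext_congr fun p hp _ _ => s2_mul hp x y

@[simp] lemma eta_one (n : O) : eta n 1 = 1 :=
  (ext_congr fun _ hp _ _ => s2_one hp).trans (ext_const_one n)

lemma eta_pow (n x : O) (k : ℕ) : eta n (x ^ k) = eta n x ^ k := by
  induction k with
  | zero => simp
  | succ k ih => rw [pow_succ, eta_mul, ih, pow_succ]

lemma eta_congr (h : n ∣ x - y) : eta n x = eta n y :=
  ext_congr fun _ hp _ e => s2_congr hp (e.trans h)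

lemma eta_sq (hn : n ≠ 0) (m : O) : eta n m ^ 2 = cop n m := by
  rw [eta, ← ext_pow_fun, ← ext_cop hn]; simp only [s2_sq]

lemma conj_eta (n m : O) : conj (eta n m) = eta n m := by
  rw [eta, conj_ext]; simp only [conj_s2]

lemma eta_eq_zero (hn : n ≠ 0) : eta n m = 0 ↔ ¬IsCoprime m n := by
  rw [← pow_eq_zero_iff (n := 2) (by norm_num), eta_sq hn, cop]; simp

lemma eta_cases (hn : n ≠ 0) (h : IsCoprime m n) : eta n m = 1 ∨ eta n m = -1 :=
  sq_eq_one_iff.1 (by rw [eta_sq hn, cop_of h])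

lemma norm_eta (hn : n ≠ 0) (h : IsCoprime m n) : ‖eta n m‖ = 1 :=
  norm_eq_one_of_pow (k := 2) (by norm_num) (by rw [eta_sq hn, cop_of h])

lemma norm_eta_le (n m : O) : ‖eta n m‖ ≤ 1 := by
  by_cases hn : n = 0
  · simp [hn, eta]
  by_cases h : IsCoprime m n
  · exact (norm_eta hn h).le
  · simp [(eta_eq_zero hn).2 h]

lemma isNu_eta (hn : n ≠ 0) : IsNu n (eta n) :=
  ⟨eta_one n, eta_mul n, fun _ _ => eta_congr, fun _ => (eta_eq_zero hn).2, norm_eta_le n⟩

@[simp] lemma psi_one_left (m : O) : psi 1 m = 1 := by simp [psi]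
lemma psi_unit_left (h : IsUnit a) (m : O) : psi a m = 1 := by
  simp [psi, eta_unit_left h, chi_unit_left h]
lemma psi_assoc (h : Associated a b) (m : O) : psi a m = psi b m := by
  rw [psi, psi, eta_assoc h, chi_assoc h]
lemma psi_mul_left (ha : a ≠ 0) (hb : b ≠ 0) (m : O) : psi (a * b) m = psi a m * psi b m := by
  simp only [psi, eta_mul_left ha hb, chi_mul_left ha hb, map_mul]; ring
lemma psi_pow_left (a m : O) (k : ℕ) : psi (a ^ k) m = psi a m ^ k := by
  simp only [psi, eta_pow_left, chi_pow_left, map_pow, mul_pow]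
lemma psi_mul (n x y : O) : psi n (x * y) = psi n x * psi n y := by
  simp only [psi, eta_mul, chi_mul, map_mul]; ring
@[simp] lemma psi_one (n : O) : psi n 1 = 1 := by simp [psi]
lemma psi_pow (n x : O) (k : ℕ) : psi n (x ^ k) = psi n x ^ k := by
  simp only [psi, eta_pow, chi_pow, map_pow, mul_pow]
lemma psi_congr (h : n ∣ x - y) : psi n x = psi n y := by rw [psi, psi, eta_congr h, chi_congr h]

lemma psi_eq_zero (hn : n ≠ 0) : psi n m = 0 ↔ ¬IsCoprime m n := by
  simp [psi, eta_eq_zero hn, chi_eq_zero hn]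

lemma psi_sq (hn : n ≠ 0) (m : O) : psi n m ^ 2 = chi n m := by
  by_cases h : IsCoprime m n
  · have := chi_cube hn m
    rw [psi, mul_pow, eta_sq hn, conj_chi]
    rw [cop_of h] at this ⊢
    linear_combination chi n m * this
  · simp [(psi_eq_zero hn).2 h, (chi_eq_zero hn).2 h]

lemma psi_cube (hn : n ≠ 0) (m : O) : psi n m ^ 3 = eta n m := by
  by_cases h : IsCoprime m n
  · have h1 := chi_cube hn m
    have h2 := eta_sq hn m
    rw [cop_of h] at h1 h2
    rw [psi, mul_pow, ← map_pow, h1, map_one]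
    linear_combination eta n m * h2
  · simp [(psi_eq_zero hn).2 h, (eta_eq_zero hn).2 h]

lemma psi_six (hn : n ≠ 0) (m : O) : psi n m ^ 6 = cop n m := by
  rw [← eta_sq hn, ← psi_cube hn]; ring

lemma norm_psi (hn : n ≠ 0) (h : IsCoprime m n) : ‖psi n m‖ = 1 :=
  norm_eq_one_of_pow (k := 6) (by norm_num) (by rw [psi_six hn, cop_of h])

lemma norm_psi_le (n m : O) : ‖psi n m‖ ≤ 1 := by
  rw [psi, norm_mul, Complex.norm_conj]
  exact mul_le_one₀ (norm_eta_le n m) (norm_nonneg _) (norm_chi_le n m)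

lemma psi_mul_conj (hn : n ≠ 0) (m : O) : psi n m * conj (psi n m) = cop n m := by
  by_cases h : IsCoprime m n
  · rw [Complex.mul_conj, Complex.normSq_eq_norm_sq, norm_psi hn h, cop_of h]; simp
  · simp [(psi_eq_zero hn).2 h, cop_of_not h]

lemma conj_psi (hn : n ≠ 0) (m : O) : conj (psi n m) = psi n m ^ 5 := by
  by_cases h : IsCoprime m n
  · have h1 := psi_six hn m
    have h2 := psi_mul_conj hn m
    rw [cop_of h] at h1 h2
    linear_combination psi n m ^ 5 * h2 - conj (psi n m) * h1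
  · simp [(psi_eq_zero hn).2 h]

lemma isNu_psi (hn : n ≠ 0) : IsNu n (psi n) :=
  ⟨psi_one n, psi_mul n, fun _ _ => psi_congr, fun _ => (psi_eq_zero hn).2, norm_psi_le n⟩

lemma psi_ext (n m : O) : psi n m = ext (fun p => psi p m) n := by
  rw [psi, eta, chi, conj_ext, ← ext_mul_fun]
  exact ext_congr fun p hp _ _ => by rw [psi, eta_prime hp, chi_prime hp]

lemma chi_ext (n m : O) : chi n m = ext (fun p => chi p m) n :=
  ext_congr fun _ hp _ _ => (chi_prime hp m).symm

lemma eta_ext (n m : O) : eta n m = ext (fun p => eta p m) n :=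
  ext_congr fun _ hp _ _ => (eta_prime hp m).symm

/-! ### characters -/

namespace IsNu

variable {Q : O} {ν ν' : O → ℂ}

lemma norm_eq (h : IsNu Q ν) (ha : IsCoprime a Q) : ‖ν a‖ = 1 := by
  obtain ⟨c, d, e⟩ := ha
  have h1 : ν c * ν a = 1 := by
    rw [← h.mul, ← h.one]; exact h.per _ _ ⟨-d, by linear_combination e⟩
  have h2 := congrArg norm h1
  rw [norm_mul, norm_one] at h2
  nlinarith [h.le a, h.le c, norm_nonneg (ν a), norm_nonneg (ν c)]

lemma mul_conj (h : IsNu Q ν) (ha : IsCoprime a Q) : ν a * conj (ν a) = 1 := by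
  rw [Complex.mul_conj, Complex.normSq_eq_norm_sq, h.norm_eq ha]; simp

lemma map_pow (h : IsNu Q ν) (a : O) (k : ℕ) : ν (a ^ k) = ν a ^ k := by
  induction k with
  | zero => simpa using h.one
  | succ k ih => rw [pow_succ, h.mul, ih, pow_succ]

/-- product with a character of a modulus that divides `Q` -/
lemma mul' {q : O} (h : IsNu Q ν) (h' : IsNu q ν') (hq : q ∣ Q) : IsNu Q fun x => ν x * ν' x :=
  ⟨by rw [h.one, h'.one, one_mul], fun a b => by rw [h.mul, h'.mul]; ring,
    fun x y e => by rw [h.per x y e, h'.per x y (hq.trans e)],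
    fun a e => by rw [h.zero a e, zero_mul],
    fun a => by rw [norm_mul]; exact mul_le_one₀ (h.le a) (norm_nonneg _) (h'.le a)⟩

lemma conj' (h : IsNu Q ν) : IsNu Q fun x => conj (ν x) :=
  ⟨by rw [h.one, map_one], fun a b => by rw [h.mul, map_mul], fun x y e => by rw [h.per x y e],
    fun a e => by rw [h.zero a e, map_zero], fun a => by rw [Complex.norm_conj]; exact h.le a⟩

lemma pow' (h : IsNu Q ν) {k : ℕ} (hk : k ≠ 0) : IsNu Q fun x => ν x ^ k :=
  ⟨by rw [h.one, one_pow], fun a b => by rw [h.mul, mul_pow], fun x y e => by rw [h.per x y e],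
    fun a e => by rw [h.zero a e, zero_pow hk],
    fun a => by rw [norm_pow]; exact pow_le_one₀ (norm_nonneg _) (h.le a)⟩

end IsNu

lemma isNu_cop (Q : O) : IsNu Q (cop Q) := by
  refine ⟨cop_of isCoprime_one_left, fun a b => ?_, fun x y ⟨c, e⟩ => ?_, fun _ => cop_of_not,
    fun a => by unfold cop; split_ifs <;> simp⟩
  · simp only [cop, IsCoprime.mul_left_iff]
    by_cases h1 : IsCoprime a Q <;> by_cases h2 : IsCoprime b Q <;> simp [h1, h2]
  · simp only [cop, show x = y + Q * c by linear_combination e, IsCoprime.add_mul_left_left_iff]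

/-! ### absolute value, Moebius function, quotient -/

lemma ab_eq (x : O) : ab x = √(N x) := norm_toC x
lemma ab_sq (x : O) : ab x ^ 2 = N x := norm_toC_sq x
lemma ab_nonneg (x : O) : 0 ≤ ab x := norm_nonneg _
lemma ab_pos (h : x ≠ 0) : 0 < ab x := norm_pos_iff.2 (toC_ne_zero h)
lemma ab_mul (x y : O) : ab (x * y) = ab x * ab y := by simp [ab]
@[simp] lemma ab_one : ab 1 = 1 := by simp [ab]
lemma ab_pow (x : O) (k : ℕ) : ab (x ^ k) = ab x ^ k := by simp [ab]
lemma ab_sqC (x : O) : (ab x : ℂ) ^ 2 = N x := by exact_mod_cast ab_sq x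
lemma ab_neC (h : x ≠ 0) : (ab x : ℂ) ≠ 0 := by exact_mod_cast (ab_pos h).ne'
lemma ang_mul (x y : O) : ang (x * y) = ang x * ang y := by
  simp only [ang, ab_mul, map_mul]; push_cast; ring
@[simp] lemma ang_one : ang 1 = 1 := by simp [ang]
lemma ang_pow (x : O) (k : ℕ) : ang (x ^ k) = ang x ^ k := by
  simp only [ang, ab_pow, map_pow, div_pow]; push_cast; rfl
lemma norm_ang (h : x ≠ 0) : ‖ang x‖ = 1 := by
  rw [ang, norm_div, Complex.norm_real, Real.norm_of_nonneg (ab_nonneg x)]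
  exact div_self (ab_pos h).ne'
lemma norm_ang_le (x : O) : ‖ang x‖ ≤ 1 := by
  by_cases h : x = 0
  · simp [h, ang]
  · exact (norm_ang h).le

@[simp] lemma mu_one : mu 1 = 1 := by simp [mu]
lemma mu_of_sqf (h : Squarefree n) : mu n = ext (fun _ => -1) n := if_pos h
lemma mu_of_not (h : ¬Squarefree n) : mu n = 0 := if_neg h
lemma mu_prime (hp : Prime p) : mu p = -1 := by rw [mu_of_sqf hp.squarefree, ext_prime' _ hp]
lemma mu_sq (h : Squarefree n) : mu n ^ 2 = 1 := by rw [mu_of_sqf h, ← ext_pow_fun]; simp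
lemma conj_mu (n : O) : conj (mu n) = mu n := by
  unfold mu; split_ifs <;> simp [conj_ext]
lemma norm_mu_le (n : O) : ‖mu n‖ ≤ 1 := by
  unfold mu; split_ifs
  · exact norm_ext_le_one fun _ _ _ _ => by simp
  · simp
lemma mu_mul (h : IsCoprime a b) : mu (a * b) = mu a * mu b := by
  by_cases hs : Squarefree (a * b)
  · rw [mu_of_sqf hs, mu_of_sqf hs.of_mul_left, mu_of_sqf hs.of_mul_right,
      ext_mul _ hs.of_mul_left.ne_zero hs.of_mul_right.ne_zero]
  · rw [mu_of_not hs]
    by_cases ha : Squarefree a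
    · rw [mu_of_not fun hb => hs (squarefree_mul_iff.2 ⟨h.isRelPrime, ha, hb⟩), mul_zero]
    · rw [mu_of_not ha, zero_mul]

lemma mul_quo (h : b ∣ a) : b * quo a b = a := by rw [quo, dif_pos h]; exact h.choose_spec.symm
lemma quo_mul (hb : b ≠ 0) (a : O) : quo (b * a) b = a :=
  mul_left_cancel₀ hb (mul_quo (dvd_mul_right b a))

lemma mem_ball {Y : ℝ} : x ∈ ball Y ↔ (N x : ℝ) ≤ Y := by simp [ball]
lemma mem_pdiv (hn : n ≠ 0) : x ∈ pdiv n ↔ Primary x ∧ x ∣ n := by
  rw [pdiv, Finset.mem_filter, mem_ball]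
  exact ⟨fun h => h.2, fun h => ⟨by exact_mod_cast N_le_of_dvd h.2 hn, h⟩⟩

lemma SQ.ne_zero (h : SQ a) : a ≠ 0 := h.1.ne_zero
lemma sq_one : SQ 1 := ⟨primary_one, squarefree_one⟩
lemma SQ.coprime (h : SQ (a * b)) : IsCoprime a b :=
  (squarefree_mul_iff.1 h.2).1.isCoprime
lemma SQ.left (h : SQ (a * b)) (ha : Primary a) : SQ a := ⟨ha, h.2.of_mul_left⟩
lemma SQ.right (h : SQ (a * b)) (ha : Primary a) : SQ b := ⟨h.1.of_mul ha, h.2.of_mul_right⟩
lemma SQ.mul (ha : SQ a) (hb : SQ b) (h : IsCoprime a b) : SQ (a * b) :=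
  ⟨ha.1.mul hb.1, squarefree_mul_iff.2 ⟨h.isRelPrime, ha.2, hb.2⟩⟩
lemma od_iff : Od a ↔ ¬(2 : O) ∣ a := by rw [Od, isCoprime_comm, prime_two.coprime_iff_not_dvd]
lemma od_mul : Od (a * b) ↔ Od a ∧ Od b := IsCoprime.mul_left_iff
lemma Od.ne_zero (h : Od a) : a ≠ 0 := by rintro rfl; exact od_iff.1 h (dvd_zero _)

end Pool.Agent.P.MP_26a8c3_nt.QO
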