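import Pool.Agent.P.MP_26a8c3_nt.QO.Poi
import Pool.Agent.P.MP_26a8c3_nt.QO.Sym

/-! Lattice point counts and zeta sums on `O`. -/

namespace Pool.Agent.P.MP_26a8c3_nt.QO

open Complex MeasureTheory Metric
open scoped Classical

noncomputable section

/-- the integral part of a complex number -/
def flo (z : ℂ) : O := ⟨⌊z.re + z.im / √3⌋, ⌊2 * z.im / √3⌋⟩

lemma norm_sub_flo (z : ℂ) : ‖z - toC (flo z)‖ ≤ 1 := by
  have h3 := sqrt3_pos
  set a := z.re + z.im / √3 with ha
  set b := 2 * z.im / √3 with hb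
  have e1 : z.im = b * (√3 / 2) := by rw [hb]; field_simp
  have e2 : z.re = a - b / 2 := by rw [ha, hb]; ring
  have a1 := Int.fract_nonneg a
  have a2 := Int.fract_lt_one a
  have b1 := Int.fract_nonneg b
  have b2 := Int.fract_lt_one b
  have r1 : (z - toC (flo z)).re = Int.fract a - Int.fract b / 2 := by
    rw [sub_re, toC_re, e2]; simp only [flo, ← ha, ← hb, Int.fract]; ring
  have r2 : (z - toC (flo z)).im = Int.fract b * (√3 / 2) := by
    rw [sub_im, toC_im, e1]; simp only [flo, ← hb, Int.fract]; ring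
  rw [← sq_le_one_iff₀ (norm_nonneg _), Complex.sq_norm, normSq_apply, r1, r2]
  generalize Int.fract a = x at *
  generalize Int.fract b = y at *
  have : y * (√3 / 2) * (y * (√3 / 2)) = 3 / 4 * y ^ 2 := by
    linear_combination (y ^ 2 / 4) * sqrt3_sq
  rw [this]
  rcases le_total x y with h | h <;> nlinarith

/-- the unit cell at a lattice point -/
def cell (m : O) : Set ℂ := {z | flo z = m}

lemma coL_cell (m : O) :
    coL ⁻¹' cell m = Set.univ.pi fun i => Set.Ico (![m.re, m.im] i : ℝ) (![m.re, m.im] i + 1) := by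
  have h3 := sqrt3_pos.ne'
  ext x
  have e1 : (coL x).re + (coL x).im / √3 = x 0 := by
    rw [coL_apply]; simp [wC]; field_simp; ring
  have e2 : 2 * (coL x).im / √3 = x 1 := by rw [coL_apply]; simp [wC]; field_simp
  simp only [cell, Set.mem_preimage, Set.mem_ofPred_eq, flo, e1, e2, QuadraticAlgebra.ext_iff,
    Int.floor_eq_iff, Set.mem_pi, Set.mem_univ, true_imp_iff, Fin.forall_fin_two, Set.mem_Ico]
  simp

lemma meas_cell (m : O) : MeasurableSet (cell m) := by
  have : cell m = coL.symm ⁻¹' (coL ⁻¹' cell m) := by ext z; simp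
  rw [this, coL_cell]
  exact coL.symm.continuous.measurable (MeasurableSet.univ_pi fun _ => measurableSet_Ico)

lemma vol_cell (m : O) : volume.real (cell m) = √3 / 2 := by
  have h := poisson_const.1 (cell m)
  rw [coL_cell, Measure.real, Real.volume_pi_Ico] at h
  have h3 := sqrt3_pos.ne'
  simp at h
  field_simp at h ⊢
  linarith

lemma cell_sub (m : O) : cell m ⊆ closedBall (toC m) 1 := fun z hz => by
  have := norm_sub_flo z
  rwa [show flo z = m from hz, ← mem_closedBall_iff_norm] at this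

lemma vol_cells (S : Finset O) : volume.real (⋃ m ∈ S, cell m) = S.card * (√3 / 2) := by
  rw [measureReal_biUnion_finset (f := cell) (fun a _ b _ h => Set.disjoint_left.2 fun z h1 h2 =>
    h (Eq.trans (Eq.symm h1) h2)) (fun m _ => meas_cell m)
    fun m _ => ((measure_mono (cell_sub m)).trans_lt measure_closedBall_lt_top).ne]
  simp [vol_cell]

lemma vol_disc (a : ℂ) {r : ℝ} (hr : 0 ≤ r) : volume.real (closedBall a r) = Real.pi * r ^ 2 := by
  simp [Measure.real, Complex.volume_closedBall, hr, mul_comm]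

lemma a0_mul : a0 * (√3 / 2) = Real.pi := by have := sqrt3_pos.ne'; rw [a0]; field_simp

/-- upper bound for the number of lattice points in a disc -/
lemma card_disc_le {S : Finset O} {ξ : ℂ} {R : ℝ} (hR : 0 ≤ R) (h : ∀ m ∈ S, ‖toC m + ξ‖ ≤ R) :
    (S.card : ℝ) ≤ a0 * (R + 1) ^ 2 := by
  have h1 : (⋃ m ∈ S, cell m) ⊆ closedBall (-ξ) (R + 1) := by
    intro z hz
    obtain ⟨m, hm, hz⟩ := Set.mem_iUnion₂.1 hz
    have h2 := mem_closedBall_iff_norm.1 (cell_sub m hz)
    rw [mem_closedBall_iff_norm, show z - -ξ = (toC m + ξ) + (z - toC m) by ring]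
    exact (norm_add_le _ _).trans (add_le_add (h m hm) h2)
  have h2 := measureReal_mono (μ := volume) h1 measure_closedBall_lt_top.ne
  rw [vol_cells, vol_disc _ (by linarith), ← a0_mul] at h2
  have h3 : 0 < √3 / 2 := by have := sqrt3_pos; positivity
  exact le_of_mul_le_mul_right (by linarith) h3

/-- lower bound for the number of lattice points in a disc -/
lemma le_card_disc {S : Finset O} {ξ : ℂ} {R : ℝ} (hR : 0 ≤ R) (h : ∀ m, ‖toC m + ξ‖ ≤ R → m ∈ S) :
    a0 * (R ^ 2 - 2 * R) ≤ (S.card : ℝ) := by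
  have ha := a0_pos
  rcases le_total R 1 with h0 | h0
  · exact le_trans (mul_nonpos_of_nonneg_of_nonpos ha.le (by nlinarith)) (Nat.cast_nonneg _)
  have h1 : closedBall (-ξ) (R - 1) ⊆ ⋃ m ∈ S, cell m := by
    intro z hz
    refine Set.mem_iUnion₂.2 ⟨flo z, h _ ?_, rfl⟩
    rw [mem_closedBall_iff_norm] at hz
    rw [show toC (flo z) + ξ = (z - -ξ) - (z - toC (flo z)) by ring]
    exact (norm_sub_le _ _).trans (by linarith [norm_sub_flo z])
  have h2 := measureReal_mono (μ := volume) h1 (by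
    refine ((measure_biUnion_finset_le _ _).trans_lt ?_).ne
    exact ENNReal.sum_lt_top.2 fun m _ =>
      (measure_mono (cell_sub m)).trans_lt measure_closedBall_lt_top)
  rw [vol_cells, vol_disc _ (by linarith), ← a0_mul] at h2
  have h3 : 0 < √3 / 2 := by have := sqrt3_pos; positivity
  have h4 : a0 * (R - 1) ^ 2 ≤ S.card := le_of_mul_le_mul_right (by linarith) h3
  nlinarith

/-- lattice points in a disc -/
theorem card_disc {S : Finset O} {ξ : ℂ} {y : ℝ} (hy : 0 ≤ y)
    (h : ∀ m, m ∈ S ↔ ‖toC m + ξ‖ ^ 2 ≤ y) : |(S.card : ℝ) - a0 * y| ≤ a0 * (2 * √y + 1) := by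
  have e : ∀ m, m ∈ S ↔ ‖toC m + ξ‖ ≤ √y := fun m => by
    rw [h, Real.le_sqrt (norm_nonneg _) hy]
  have h1 := card_disc_le (Real.sqrt_nonneg y) fun m hm => (e m).1 hm
  have h2 := le_card_disc (Real.sqrt_nonneg y) fun m hm => (e m).2 hm
  have h3 := Real.sq_sqrt hy
  have ha := a0_pos
  rw [abs_le]
  constructor <;> nlinarith

theorem card_ball {y : ℝ} (hy : 0 ≤ y) :
    |((ball y).card : ℝ) - a0 * y| ≤ a0 * (2 * √y + 1) :=
  card_disc (ξ := 0) hy fun m => by rw [mem_ball, add_zero, norm_toC_sq]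

lemma a0_le : a0 ≤ 4 := by
  rw [a0, div_le_iff₀ sqrt3_pos]
  nlinarith [Real.pi_lt_d2, sqrt3_sq, sqrt3_pos]

lemma card_ball_le {y : ℝ} (hy : 0 ≤ y) : ((ball y).card : ℝ) ≤ 8 * (1 + y) := by
  have h1 := (abs_le.1 (card_ball hy)).2
  have h3 := Real.sq_sqrt hy
  have h4 : 2 * √y ≤ 1 + y := by nlinarith [sq_nonneg (√y - 1)]
  nlinarith [a0_pos, a0_le]

lemma ball_erase_eq_empty {y : ℝ} (hy : y < 1) : (ball y).erase 0 = ∅ := by
  refine Finset.eq_empty_of_forall_notMem fun x hx => ?_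
  rw [Finset.mem_erase, mem_ball] at hx
  linarith [one_le_N hx.1, hx.2]

lemma card_ball_erase_le {y : ℝ} (hy : 0 ≤ y) : (((ball y).erase 0).card : ℝ) ≤ 16 * y := by
  rcases lt_or_ge y 1 with h | h
  · rw [ball_erase_eq_empty h]; simpa using hy
  · have h1 : (((ball y).erase 0).card : ℝ) ≤ (ball y).card := by
      exact_mod_cast Finset.card_erase_le
    linarith [card_ball_le hy]

/-- a finite set of nonzero elements of norm at most `y` -/
lemma card_le_of_N_le {S : Finset O} {y : ℝ} (hy : 0 ≤ y) (h : ∀ n ∈ S, n ≠ 0 ∧ (N n : ℝ) ≤ y) :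
    (S.card : ℝ) ≤ 16 * y := by
  refine le_trans ?_ (card_ball_erase_le hy)
  exact_mod_cast Finset.card_le_card fun n hn =>
    Finset.mem_erase.2 ⟨(h n hn).1, mem_ball.2 (h n hn).2⟩

theorem card_ball_erase {y : ℝ} (hy : 0 < y) :
    |(((ball y).erase 0).card : ℝ) - a0 * y| ≤ 13 * √y := by
  have h3 := Real.sq_sqrt hy.le
  have h4 := Real.sqrt_nonneg y
  have ha := a0_pos
  have hb := a0_le
  rcases lt_or_ge y 1 with h | h
  · rw [ball_erase_eq_empty h, Finset.card_empty, Nat.cast_zero, zero_sub, abs_neg,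
      abs_of_pos (by positivity)]
    have : √y ≤ 1 := Real.sqrt_le_one.2 h.le
    nlinarith
  · have h0 : (0 : O) ∈ ball y := mem_ball.2 (by simpa using hy.le)
    have h1 : (((ball y).erase 0).card : ℝ) = (ball y).card - 1 := by
      rw [← Finset.card_erase_add_one h0]; push_cast; ring
    have h2 := abs_le.1 (card_ball hy.le)
    have h5 : 1 ≤ √y := Real.one_le_sqrt.2 h
    rw [h1, abs_le]
    constructor <;> nlinarith [h2.1, h2.2]

/-- elements of bounded norm in a residue class -/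
theorem card_class {q : O} (hq : q ≠ 0) (a : O) {y : ℝ} (hy : 0 ≤ y) :
    |((((ball y).filter fun n => q ∣ n - a).card : ℝ)) - a0 * (y / N q)| ≤
      a0 * (2 * √(y / N q) + 1) := by
  have hN := N_pos_real hq
  have hq' := toC_ne_zero hq
  set S := ((ball y).filter fun n => q ∣ n - a).preimage (fun t => a + q * t)
    (add_mul_injective a hq).injOn with hS
  have h1 : S.card = ((ball y).filter fun n => q ∣ n - a).card := by
    rw [hS, Finset.card_preimage]
    congr 1
    refine Finset.filter_true_of_mem fun n hn => ?_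
    obtain ⟨c, hc⟩ := (Finset.mem_filter.1 hn).2
    exact ⟨c, by simp only; linear_combination -hc⟩
  rw [← h1]
  refine card_disc (ξ := toC a / toC q) (div_nonneg hy hN.le) fun m => ?_
  rw [hS, Finset.mem_preimage, Finset.mem_filter, mem_ball, le_div_iff₀ hN, ← norm_toC_sq q,
    ← mul_pow, ← norm_mul, ← norm_toC_sq,
    show (toC m + toC a / toC q) * toC q = toC (a + q * m) by rw [map_add, map_mul]; field_simp; ring]
  simp

theorem card_primary {y : ℝ} (hy : 0 ≤ y) :
    |((((ball y).filter Primary).card : ℝ)) - a0 / 9 * y| ≤ a0 * (√y + 1) := by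
  have h := card_class (q := 3) (by decide) 1 hy
  have e : ((N (3 : O) : ℕ) : ℝ) = 9 := by simp
  rw [e, Real.sqrt_div hy, show √9 = 3 by
    rw [show (9 : ℝ) = 3 ^ 2 by norm_num, Real.sqrt_sq (by norm_num)]] at h
  rw [show a0 / 9 * y = a0 * (y / 9) by ring]
  refine le_trans (le_of_eq ?_) (h.trans ?_)
  · congr
  · have := Real.sqrt_nonneg y
    exact mul_le_mul_of_nonneg_left (by linarith) a0_pos.le

/-! ### zeta sums -/

theorem summable_N_rpow {t : ℝ} (ht : 1 < t) : Summable fun c : O => (N c : ℝ) ^ (-t) := by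
  have h := (EisensteinSeries.summable_one_div_norm_rpow (k := 2 * t) (by linarith)).comp_injective
    (i := fun z : O => ![z.re, z.im]) fun a b e =>
      QuadraticAlgebra.ext (congrFun e 0) (congrFun e 1)
  refine Summable.of_nonneg_of_le (fun _ => by positivity) (fun z => ?_)
    (h.mul_left ((3 / 4 : ℝ) ^ (-t)))
  rcases eq_or_ne z 0 with rfl | hz
  · rw [map_zero, Nat.cast_zero, Real.zero_rpow (by linarith)]
    exact mul_nonneg (by positivity) (Real.rpow_nonneg (norm_nonneg _) _)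
  have h0 : 0 < ‖(![z.re, z.im] : Fin 2 → ℤ)‖ := norm_pos_iff.2 fun e =>
    hz (QuadraticAlgebra.ext (congrFun e 0) (congrFun e 1))
  simp only [Function.comp]
  rw [show -(2 * t) = (2 : ℕ) * (-t) by push_cast; ring, Real.rpow_natCast_mul h0.le,
    ← Real.mul_rpow (by norm_num) (by positivity)]
  refine Real.rpow_le_rpow_of_nonpos (by positivity) ?_ (by linarith)
  obtain ⟨h1, h2⟩ := abs_le_of_N z
  have h1' : 3 * (z.re : ℝ) ^ 2 ≤ 4 * N z := by exact_mod_cast h1
  have h2' : 3 * (z.im : ℝ) ^ 2 ≤ 4 * N z := by exact_mod_cast h2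
  rw [EisensteinSeries.norm_eq_max_natAbs]
  simp only [Matrix.cons_val_zero, Matrix.cons_val_one, Matrix.cons_val_fin_one, Nat.cast_max,
    Nat.cast_natAbs, Int.cast_abs]
  rcases max_cases |(z.re : ℝ)| |(z.im : ℝ)| with e | e <;> rw [e.1, sq_abs] <;> linarith

lemma summable_N_inv_pow {k : ℕ} (hk : 2 ≤ k) : Summable fun c : O => ((N c : ℝ) ^ k)⁻¹ := by
  refine (summable_N_rpow (t := k) (by exact_mod_cast hk)).congr fun c => ?_
  rw [Real.rpow_neg (Nat.cast_nonneg _), Real.rpow_natCast]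

/-- the zeta sum over all nonzero elements -/
def zt (s : ℝ) : ℝ := ∑' c : O, (N c : ℝ) ^ (-s)

lemma zt_nonneg (s : ℝ) : 0 ≤ zt s := tsum_nonneg fun _ => by positivity

lemma sum_le_zt {s : ℝ} (hs : 1 < s) (S : Finset O) : ∑ c ∈ S, (N c : ℝ) ^ (-s) ≤ zt s :=
  (summable_N_rpow hs).sum_le_tsum S fun _ _ => by positivity

lemma one_le_zt {s : ℝ} (hs : 1 < s) : 1 ≤ zt s := by simpa using sum_le_zt hs {1}

/-- Rankin's trick, small norms -/
lemma sum_rpow_le {σ s Y : ℝ} (hσ : 1 < σ) (hs : s ≤ σ) {S : Finset O}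
    (h : ∀ c ∈ S, c ≠ 0 ∧ (N c : ℝ) ≤ Y) (hY : 0 ≤ Y) :
    ∑ c ∈ S, (N c : ℝ) ^ (-s) ≤ zt σ * Y ^ (σ - s) := by
  refine le_trans ?_ (mul_le_mul_of_nonneg_right (sum_le_zt hσ S) (Real.rpow_nonneg hY _))
  rw [Finset.sum_mul]
  refine Finset.sum_le_sum fun c hc => ?_
  have h0 := N_pos_real (h c hc).1
  rw [show -s = -σ + (σ - s) by ring, Real.rpow_add h0]
  exact mul_le_mul_of_nonneg_left (Real.rpow_le_rpow h0.le (h c hc).2 (by linarith))
    (by positivity)

/-- Rankin's trick, large norms -/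
lemma sum_rpow_tail_le {σ s Y : ℝ} (hσ : 1 < σ) (hs : σ ≤ s) {S : Finset O} (hY : 0 < Y)
    (h : ∀ c ∈ S, Y ≤ (N c : ℝ)) : ∑ c ∈ S, (N c : ℝ) ^ (-s) ≤ zt σ * Y ^ (σ - s) := by
  refine le_trans ?_ (mul_le_mul_of_nonneg_right (sum_le_zt hσ S) (Real.rpow_nonneg hY.le _))
  rw [Finset.sum_mul]
  refine Finset.sum_le_sum fun c hc => ?_
  have h0 := hY.trans_le (h c hc)
  rw [show -s = -σ + (σ - s) by ring, Real.rpow_add h0]
  exact mul_le_mul_of_nonneg_left (Real.rpow_le_rpow_of_nonpos hY (h c hc) (by linarith))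
    (by positivity)

lemma tsum_rpow_tail_le {σ s Y : ℝ} (hσ : 1 < σ) (hs : σ ≤ s) (hY : 0 < Y) :
    ∑' c : O, (if Y ≤ (N c : ℝ) then (N c : ℝ) ^ (-s) else 0) ≤ zt σ * Y ^ (σ - s) := by
  refine Real.tsum_le_of_sum_le (fun c => by dsimp only; split_ifs <;> positivity) fun S => ?_
  rw [← Finset.sum_filter]
  exact sum_rpow_tail_le hσ hs hY fun c hc => (Finset.mem_filter.1 hc).2

/-- sharp bound for partial sums -/
lemma sum_rpow_le_sharp {s : ℝ} (h0 : 0 ≤ s) (hs : s < 1) : ∃ C : ℝ, 0 < C ∧ ∀ (Y : ℝ) (S : Finset O),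
    0 ≤ Y → (∀ c ∈ S, c ≠ 0 ∧ (N c : ℝ) ≤ Y) → ∑ c ∈ S, (N c : ℝ) ^ (-s) ≤ C * Y ^ (1 - s) := by
  set r : ℝ := (1 / 2 : ℝ) ^ (1 - s) with hr
  have r0 : 0 < r := by positivity
  have r1 : r < 1 := Real.rpow_lt_one (by norm_num) (by norm_num) (by linarith)
  have hC : 0 < 32 / (1 - r) := div_pos (by norm_num) (by linarith)
  refine ⟨32 / (1 - r), hC, ?_⟩
  suffices H : ∀ (k : ℕ) (Y : ℝ) (S : Finset O), 0 ≤ Y → Y < 2 ^ k →
      (∀ c ∈ S, c ≠ 0 ∧ (N c : ℝ) ≤ Y) → ∑ c ∈ S, (N c : ℝ) ^ (-s) ≤ 32 / (1 - r) * Y ^ (1 - s) by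
    intro Y S hY h
    obtain ⟨k, hk⟩ := pow_unbounded_of_one_lt Y (one_lt_two (α := ℝ))
    exact H k Y S hY hk h
  intro k
  induction k with
  | zero =>
    intro Y S hY hk h
    have : S = ∅ := Finset.eq_empty_of_forall_notMem fun c hc => by
      have := one_le_N (h c hc).1; have := (h c hc).2; rw [pow_zero] at hk; linarith
    rw [this, Finset.sum_empty]; positivity
  | succ k ih =>
    intro Y S hY hk h
    rcases hY.eq_or_lt with rfl | hY'
    · exact ih 0 S le_rfl (by positivity) h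
    rw [← Finset.sum_filter_add_sum_filter_not S fun c => (N c : ℝ) ≤ Y / 2]
    have h1 := ih (Y / 2) (S.filter fun c => (N c : ℝ) ≤ Y / 2) (by positivity)
      (by rw [pow_succ] at hk; linarith)
      fun c hc => ⟨(h c (Finset.mem_filter.1 hc).1).1, (Finset.mem_filter.1 hc).2⟩
    have h2 : ∑ c ∈ S.filter fun c => ¬(N c : ℝ) ≤ Y / 2, (N c : ℝ) ^ (-s) ≤ 16 * Y * (Y / 2) ^ (-s) := by
      refine (Finset.sum_le_card_nsmul _ _ ((Y / 2) ^ (-s)) fun c hc => ?_).trans ?_
      · exact Real.rpow_le_rpow_of_nonpos (by positivity) (not_le.1 (Finset.mem_filter.1 hc).2).le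
          (by linarith)
      · rw [nsmul_eq_mul]
        exact mul_le_mul_of_nonneg_right
          (card_le_of_N_le hY fun c hc => h c (Finset.mem_filter.1 hc).1) (by positivity)
    have e1 : (Y / 2) ^ (1 - s) = r * Y ^ (1 - s) := by
      rw [hr, ← Real.mul_rpow (by norm_num) hY]; congr 1; ring
    have e2 : 16 * Y * (Y / 2) ^ (-s) = 32 * (r * Y ^ (1 - s)) := by
      rw [← e1, show 1 - s = 1 + -s by ring, Real.rpow_add (by positivity), Real.rpow_one]; ring
    rw [e1] at h1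
    rw [e2] at h2
    have e3 : 32 / (1 - r) * Y ^ (1 - s) = 32 / (1 - r) * (r * Y ^ (1 - s)) + 32 * Y ^ (1 - s) := by
      have : 1 - r ≠ 0 := by linarith
      field_simp; ring
    have h3 : r * Y ^ (1 - s) ≤ Y ^ (1 - s) := mul_le_of_le_one_left (by positivity) r1.le
    linarith

/-- harmonic sums -/
lemma sum_inv_le {ε : ℝ} (hε : 0 < ε) {R : ℝ} (hR : 0 ≤ R) :
    ∑ n ∈ ball R, (N n : ℝ)⁻¹ ≤ zt (1 + ε) * R ^ ε := by
  have h := sum_rpow_le (σ := 1 + ε) (s := 1) (S := (ball R).erase 0) (Y := R) (by linarith)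
    (by linarith) (fun c hc => ⟨(Finset.mem_erase.1 hc).1, mem_ball.1 (Finset.mem_erase.1 hc).2⟩) hR
  rw [add_sub_cancel_left] at h
  rw [← Finset.sum_erase (ball R) (a := 0) (by simp)]
  simpa only [Real.rpow_neg_one] using h

end

end Pool.Agent.P.MP_26a8c3_nt.QO
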