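import Pool.Agent.P.MP_26a8c3_nt.QO.Sym

/-! The kernel identities. -/

namespace Pool.Agent.P.MP_26a8c3_nt.QO

open Finset UniqueFactorizationMonoid
open scoped Classical ComplexConjugate

namespace Ker

/-- finite sets of primary primes -/
def Gd (E : Finset O) : Prop := ∀ p ∈ E, Prime p ∧ Primary p

/-- the product of a finite set -/
def pr (E : Finset O) : O := ∏ p ∈ E, p

variable {A B E : Finset O} {p m : O}

lemma Gd.mono (h : Gd A) (hE : E ⊆ A) : Gd E := fun p hp => h p (hE hp)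

lemma nf_pr (h : Gd E) : normalizedFactors (pr E) = E.val := by
  have e : pr E = E.val.prod := by rw [pr, Finset.prod_eq_multiset_prod, Multiset.map_id']
  rw [e, normalizedFactors_prod_eq _ fun p hp => (h p hp).1.irreducible]
  exact (Multiset.map_congr rfl fun p hp => (h p hp).2.normalize).trans (Multiset.map_id' _)

lemma ext_pr (h : Gd E) (f : O → ℂ) : ext f (pr E) = ∏ p ∈ E, f p := by
  rw [ext, nf_pr h]; rfl

lemma pr_ne (h : Gd E) : pr E ≠ 0 := prod_ne_zero_iff.2 fun p hp => (h p hp).1.ne_zero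

lemma pr_primary (h : Gd E) : Primary (pr E) :=
  Finset.prod_induction _ Primary (fun _ _ => Primary.mul) primary_one fun p hp => (h p hp).2

lemma pr_sqf (h : Gd E) : Squarefree (pr E) := by
  rw [squarefree_iff_nodup_normalizedFactors (pr_ne h), nf_pr h]; exact E.nodup

lemma dvd_pr (h : Gd E) (hp : Prime p) (h1 : Primary p) : p ∣ pr E ↔ p ∈ E := by
  refine ⟨fun e => ?_, fun e => dvd_prod_of_mem _ e⟩
  obtain ⟨q, hq, e⟩ := (hp.dvd_finsetProd_iff _).1 e
  rwa [h1.eq_of_associated (h q hq).2 (hp.associated_of_dvd (h q hq).1 e)]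

lemma exists_pr {a : O} (ha : SQ a) : ∃ A, Gd A ∧ a = pr A := by
  have h0 := ha.1.ne_zero
  have hn := (squarefree_iff_nodup_normalizedFactors h0).1 ha.2
  have hg : Gd ⟨_, hn⟩ := fun p hp => ⟨(mem_nf hp).1,
    (mem_nf hp).2.1.primary fun e => ha.1.not_lam_dvd (e.trans (mem_nf hp).2.2)⟩
  refine ⟨⟨_, hn⟩, hg, ha.1.eq_of_associated (pr_primary hg) ?_⟩
  have := (prod_normalizedFactors h0).symm
  rwa [pr, Finset.prod_eq_multiset_prod, Multiset.map_id']

lemma pr_inj (h : Gd A) (h' : Gd B) (e : pr A = pr B) : A = B :=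
  Finset.val_injective (by rw [← nf_pr h, ← nf_pr h', e])

lemma sub_of_dvd (h : Gd A) (h' : Gd E) (e : pr E ∣ pr A) : E ⊆ A := fun p hp =>
  (dvd_pr h (h' p hp).1 (h' p hp).2).1 ((dvd_prod_of_mem _ hp).trans e)

lemma sum_pdiv (hA : Gd A) (hB : Gd B) (F : O → ℂ) :
    ∑ e ∈ (pdiv (pr A)).filter (· ∣ pr B), F e = ∑ E ∈ (A ∩ B).powerset, F (pr E) := by
  symm
  refine sum_bij (fun E _ => pr E) (fun E hE => ?_) (fun E hE E' hE' e => ?_) (fun e he => ?_)
    fun _ _ => rfl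
  · have hE := mem_powerset.1 hE
    have h1 := hE.trans inter_subset_left
    exact mem_filter.2 ⟨(mem_pdiv (pr_ne hA)).2 ⟨pr_primary (hA.mono h1),
      prod_dvd_prod_of_subset _ _ _ h1⟩,
      prod_dvd_prod_of_subset _ _ _ (hE.trans inter_subset_right)⟩
  · exact pr_inj (hA.mono ((mem_powerset.1 hE).trans inter_subset_left))
      (hA.mono ((mem_powerset.1 hE').trans inter_subset_left)) e
  · obtain ⟨h1, h2⟩ := mem_filter.1 he
    obtain ⟨h3, h4⟩ := (mem_pdiv (pr_ne hA)).1 h1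
    obtain ⟨E, hE, rfl⟩ := exists_pr ⟨h3, (pr_sqf hA).squarefree_of_dvd h4⟩
    exact ⟨E, mem_powerset.2 (subset_inter (sub_of_dvd hA hE h4) (sub_of_dvd hB hE h2)), rfl⟩

lemma sum_pdiv' (hA : Gd A) (F : O → ℂ) :
    ∑ e ∈ pdiv (pr A), F e = ∑ E ∈ A.powerset, F (pr E) := by
  have h := sum_pdiv hA hA F
  rwa [inter_self, filter_true_of_mem fun e he => ((mem_pdiv (pr_ne hA)).1 he).2] at h

lemma quo_pr (hA : Gd A) (hE : E ⊆ A) : quo (pr A) (pr E) = pr (A \ E) := by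
  have hd : pr E ∣ pr A := prod_dvd_prod_of_subset _ _ _ hE
  rw [quo, dif_pos hd]
  refine mul_left_cancel₀ (pr_ne (hA.mono hE)) ?_
  rw [← hd.choose_spec, mul_comm]
  exact (prod_sdiff hE).symm

lemma mu_pr (h : Gd E) : mu (pr E) = ∏ _p ∈ E, (-1 : ℂ) := by
  rw [mu, if_pos (pr_sqf h), ext_pr h]

lemma N_pr (E : Finset O) : (N (pr E) : ℂ) = ∏ p ∈ E, (N p : ℂ) := by
  rw [pr, map_prod, Nat.cast_prod]

lemma sq_dvd (h : Gd E) : pr E ^ 2 ∣ m ↔ ∀ p ∈ E, p ^ 2 ∣ m := by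
  refine ⟨fun e p hp => ?_, fun e => ?_⟩
  · have h1 : p ∣ pr E := dvd_prod_of_mem _ hp
    exact (pow_dvd_pow_of_dvd h1 2).trans e
  rw [pr, ← prod_pow]
  refine Finset.prod_dvd_of_coprime (fun p hp q hq hne => IsCoprime.pow ?_) e
  refine (h p hp).1.coprime_iff_not_dvd.2 fun hd => hne ?_
  exact (h p hp).2.eq_of_associated (h q hq).2 ((h p hp).1.associated_of_dvd (h q hq).1 hd)

/-- the local factor of `jj` -/
noncomputable def jP (p m : O) : ℂ := 1 - if p ^ 2 ∣ m then (N p : ℂ) else 0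

lemma jj_pr (h : Gd E) (m : O) : jj (pr E) m = ∏ p ∈ E, jP p m := by
  have e : ∀ p, jP p m = 1 + if p ^ 2 ∣ m then -(N p : ℂ) else 0 := fun p => by
    unfold jP; split_ifs <;> ring
  rw [jj, sum_pdiv' h]
  simp only [e]
  rw [prod_one_add]
  refine sum_congr rfl fun F hF => ?_
  have hF := h.mono (mem_powerset.1 hF)
  rw [prod_ite_zero, mu_pr hF, N_pr, ← prod_mul_distrib]
  simp only [sq_dvd hF, neg_one_mul]

lemma jP_add (hp : Prime p) (m : O) : jP p m + kP p m = cop p m := by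
  rw [jP, kP, cop_prime hp]; split_ifs <;> ring

/-- the kernel with general local factors -/
noncomputable def KG (k u v : O → ℂ) (a b : O) : ℂ :=
  ext (fun p => if p ∣ b then k p else u p) a * ext (fun p => if p ∣ a then 1 else v p) b

variable {k u v j : O → ℂ}

lemma KG_pr (hA : Gd A) (hB : Gd B) (k u v : O → ℂ) : KG k u v (pr A) (pr B) =
    (∏ p ∈ A ∩ B, k p) * ((∏ p ∈ A \ B, u p) * ∏ p ∈ B \ A, v p) := by
  rw [KG, ext_pr hA, ext_pr hB,
    prod_congr rfl fun p hp => if_congr (dvd_pr hB (hA p hp).1 (hA p hp).2) rfl rfl,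
    prod_congr rfl fun p hp => if_congr (dvd_pr hA (hB p hp).1 (hB p hp).2) rfl rfl,
    prod_ite, prod_ite, filter_mem_eq_inter, filter_notMem_eq_sdiff, filter_notMem_eq_sdiff,
    prod_const_one, one_mul, mul_assoc]

lemma UV_pr (hA : Gd A) (hB : Gd B) (u v : O → ℂ) : ext u (pr A) * ext v (pr B) =
    (∏ p ∈ A ∩ B, (u p * v p)) * ((∏ p ∈ A \ B, u p) * ∏ p ∈ B \ A, v p) := by
  rw [ext_pr hA, ext_pr hB, prod_mul_distrib, ← prod_inter_mul_prod_sdiff A B u,
    ← prod_inter_mul_prod_sdiff B A v, inter_comm B A]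
  ring

lemma sd1 (A B E : Finset O) : (A \ E) ∩ (B \ E) = (A ∩ B) \ E := by
  ext p; simp only [mem_inter, mem_sdiff]; tauto

lemma sd2 (hE : E ⊆ A ∩ B) : (A \ E) \ (B \ E) = A \ B := by
  ext p; have := @hE p; simp only [mem_inter, mem_sdiff] at this ⊢; tauto

lemma sd3 (hE : E ⊆ A ∩ B) : (B \ E) \ (A \ E) = B \ A := by
  ext p; have := @hE p; simp only [mem_inter, mem_sdiff] at this ⊢; tauto

lemma K1 {a b : O} (ha : SQ a) (hb : SQ b) (m : O)
    (h : ∀ p, Prime p → u p * v p = cop p m) : ext u a * ext v b =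
    ∑ e ∈ (pdiv a).filter (· ∣ b), jj e m * KG (fun p => kP p m) u v (quo a e) (quo b e) := by
  obtain ⟨A, hA, rfl⟩ := exists_pr ha
  obtain ⟨B, hB, rfl⟩ := exists_pr hb
  rw [sum_pdiv hA hB, UV_pr hA hB,
    prod_congr rfl fun p hp => (h p (hA p (mem_inter.1 hp).1).1).trans
      (jP_add (hA p (mem_inter.1 hp).1).1 m).symm, prod_add, sum_mul]
  refine sum_congr rfl fun E hE => ?_
  have hE := mem_powerset.1 hE
  have h1 := hE.trans inter_subset_left
  rw [quo_pr hA h1, quo_pr hB (hE.trans inter_subset_right), jj_pr (hA.mono h1),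
    KG_pr (hA.mono sdiff_subset) (hB.mono sdiff_subset), sd1, sd2 hE, sd3 hE, mul_assoc]

lemma K2 {a b : O} (ha : SQ a) (hb : SQ b) (m : O)
    (h : ∀ p, Prime p → u p * v p = cop p m) : KG (fun p => kP p m) u v a b =
    ∑ e ∈ (pdiv a).filter (· ∣ b), mu e * jj e m * (ext u (quo a e) * ext v (quo b e)) := by
  obtain ⟨A, hA, rfl⟩ := exists_pr ha
  obtain ⟨B, hB, rfl⟩ := exists_pr hb
  have e : ∀ p ∈ A ∩ B, kP p m = -1 * jP p m + u p * v p := fun p hp => by
    have hp := (hA p (mem_inter.1 hp).1).1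
    rw [h p hp, ← jP_add hp]; ring
  rw [sum_pdiv hA hB, KG_pr hA hB, prod_congr rfl e, prod_add, sum_mul]
  refine sum_congr rfl fun E hE => ?_
  have hE := mem_powerset.1 hE
  have h1 := hE.trans inter_subset_left
  rw [quo_pr hA h1, quo_pr hB (hE.trans inter_subset_right), jj_pr (hA.mono h1), mu_pr (hA.mono h1),
    UV_pr (hA.mono sdiff_subset) (hB.mono sdiff_subset), sd1, sd2 hE, sd3 hE, prod_mul_distrib,
    mul_assoc]

lemma K0 {a b : O} (ha : SQ a) (hb : SQ b) (hu : ∀ p, Prime p → u p = 0)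
    (hv : ∀ p, Prime p → v p = 0) :
    KG (fun p => kP p 0) u v a b = if a = b then phs a else 0 := by
  obtain ⟨A, hA, rfl⟩ := exists_pr ha
  obtain ⟨B, hB, rfl⟩ := exists_pr hb
  rw [KG_pr hA hB]
  split_ifs with h
  · obtain rfl := pr_inj hA hB h
    simp [phs, ext_pr hA, kP]
  · by_cases h1 : A ⊆ B
    · have h2 : ¬B ⊆ A := fun h2 => h (by rw [Subset.antisymm h1 h2])
      obtain ⟨p, h3, h4⟩ := not_subset.1 h2
      rw [prod_eq_zero (mem_sdiff.2 ⟨h3, h4⟩) (hv p (hB p h3).1), mul_zero, mul_zero]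
    · obtain ⟨p, h3, h4⟩ := not_subset.1 h1
      rw [prod_eq_zero (mem_sdiff.2 ⟨h3, h4⟩) (hu p (hA p h3).1), zero_mul, mul_zero]

lemma norm_kP (hp : Prime p) (m : O) : ‖kP p m‖ ≤ ‖(N p : ℂ)‖ := by
  have h1 : (1 : ℝ) ≤ N p := one_le_N hp.ne_zero
  rw [Complex.norm_natCast, kP]
  split_ifs with h2 h3 h3
  · have : (N p : ℂ) - 1 = ((N p - 1 : ℝ) : ℂ) := by push_cast; ring
    rw [this, Complex.norm_real, Real.norm_eq_abs, abs_of_nonneg (by linarith)]; linarith
  · simp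
  · simpa using h1
  · simp

lemma Kn {a b : O} (ha : a ≠ 0) (m : O) (hu : ∀ p, ‖u p‖ ≤ 1) (hv : ∀ p, ‖v p‖ ≤ 1) :
    ‖KG (fun p => kP p m) u v a b‖ ≤ N a := by
  rw [KG, norm_mul, ← Complex.norm_natCast, ← ext_N ha, ← mul_one ‖ext (fun p => (N p : ℂ)) a‖]
  refine mul_le_mul (norm_ext_le fun p hp _ _ => ?_) (norm_ext_le_one fun p _ _ _ => ?_)
    (norm_nonneg _) (norm_nonneg _)
  · split_ifs
    · exact norm_kP hp m
    · rw [Complex.norm_natCast]; exact (hu p).trans (one_le_N hp.ne_zero)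
  · split_ifs
    · simp
    · exact hv p

lemma kP_sq {f : O} (hp : Prime p) (hf : ¬p ∣ f) (m : O) : kP p (f ^ 2 * m) = kP p m := by
  have hc : IsCoprime p (f ^ 2) := (hp.coprime_iff_not_dvd.2 hf).pow_right
  have e1 : p ∣ f ^ 2 * m ↔ p ∣ m :=
    ⟨fun e => hc.dvd_of_dvd_mul_left e, fun e => e.mul_left _⟩
  have e2 : p ^ 2 ∣ f ^ 2 * m ↔ p ^ 2 ∣ m :=
    ⟨fun e => hc.pow_left.dvd_of_dvd_mul_left e, fun e => e.mul_left _⟩
  simp only [kP, e1, e2]

lemma Ksq {a b f : O} {u' v' s t : O → ℂ} (m : O) (hf : IsCoprime f (a * b))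
    (hu : ∀ p, Prime p → u' p = s p * u p) (hv : ∀ p, Prime p → v' p = t p * v p)
    (h : ∀ p, Prime p → ¬p ∣ f → s p * t p = 1) (ha : SQ a) (hb : SQ b) :
    KG (fun p => kP p (f ^ 2 * m)) u' v' a b =
      ext s a * ext t b * KG (fun p => kP p m) u v a b := by
  obtain ⟨A, hA, rfl⟩ := exists_pr ha
  obtain ⟨B, hB, rfl⟩ := exists_pr hb
  have hn : ∀ p ∈ A ∩ B, ¬p ∣ f := fun p hp e => (hA p (mem_inter.1 hp).1).1.not_isUnit
    (hf.isUnit_of_dvd' e ((dvd_prod_of_mem _ (mem_inter.1 hp).1).mul_right _))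
  rw [KG_pr hA hB, KG_pr hA hB, UV_pr hA hB,
    prod_congr rfl fun p hp => kP_sq (hA p (mem_inter.1 hp).1).1 (hn p hp) m,
    prod_eq_one fun p hp => h p (hA p (mem_inter.1 hp).1).1 (hn p hp),
    prod_congr rfl fun p hp => hu p (hA p (mem_sdiff.1 hp).1).1,
    prod_congr (s₁ := B \ A) rfl fun p hp => hv p (hB p (mem_sdiff.1 hp).1).1,
    prod_mul_distrib, prod_mul_distrib]
  ring

lemma KK_eq (a b m : O) :
    KK a b m = KG (fun p => kP p m) (fun p => psi p m) (fun p => conj (psi p m)) a b := rfl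

lemma KE_eq (a b m : O) :
    KE a b m = KG (fun p => kP p m) (fun p => eta p m) (fun p => eta p m) a b := rfl

lemma not_cop_zero (hp : Prime p) : ¬IsCoprime (0 : O) p := fun h =>
  hp.not_isUnit (isCoprime_zero_left.1 h)

end Ker

open Ker

theorem pK : S_K := by
  have h1 : ∀ m p : O, Prime p → psi p m * conj (psi p m) = cop p m := fun m p hp =>
    psi_mul_conj hp.ne_zero m
  have h2 : ∀ m p : O, Prime p → eta p m * eta p m = cop p m := fun m p hp => by
    rw [← sq, eta_sq hp.ne_zero]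
  have h3 : ∀ n m : O, conj (psi n m) = ext (fun p => conj (psi p m)) n := fun n m => by
    rw [psi_ext, conj_ext]
  refine ⟨fun a b m ha hb => ?_, fun a b m ha hb => ?_, fun a b ha hb => ?_,
    fun a b f m ha hb hf => ?_, fun a b m ha _ => ?_, fun a b m ha hb => ?_,
    fun a b m ha hb => ?_, fun a b ha hb => ?_, fun a b f m ha hb hf => ?_, fun a b m ha _ => ?_⟩
  · rw [h3, psi_ext]; exact K1 ha hb m (h1 m)
  · rw [KK_eq, K2 ha hb m (h1 m)]
    exact sum_congr rfl fun e _ => by rw [← h3, ← psi_ext]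
  · exact K0 ha hb (fun p hp => (psi_eq_zero hp.ne_zero).2 (not_cop_zero hp)) fun p hp => by
      rw [(psi_eq_zero hp.ne_zero).2 (not_cop_zero hp), map_zero]
  · rw [KK_eq, KK_eq, chi_ext a, chi_ext b, conj_ext]
    refine Ksq m hf (fun p hp => ?_) (fun p hp => ?_) (fun p hp hd => ?_) ha hb
    · rw [psi_mul, psi_pow, psi_sq hp.ne_zero]
    · rw [psi_mul, psi_pow, psi_sq hp.ne_zero, map_mul]
    · rw [chi_mul_conj hp.ne_zero, cop_prime hp, if_neg hd]
  · exact Kn ha.1.ne_zero m (fun p => norm_psi_le p m) fun p => by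
      rw [Complex.norm_conj]; exact norm_psi_le p m
  · rw [eta_ext a, eta_ext b]; exact K1 ha hb m (h2 m)
  · rw [KE_eq, K2 ha hb m (h2 m)]
    exact sum_congr rfl fun e _ => by rw [← eta_ext, ← eta_ext]
  · exact K0 ha hb (fun p hp => (eta_eq_zero hp.ne_zero).2 (not_cop_zero hp)) fun p hp =>
      (eta_eq_zero hp.ne_zero).2 (not_cop_zero hp)
  · have e := Ksq (u := fun p => eta p m) (v := fun p => eta p m) (s := fun p => cop p f)
      (t := fun p => cop p f) (u' := fun p => eta p (f ^ 2 * m)) (v' := fun p => eta p (f ^ 2 * m))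
      m hf (fun p hp => by rw [eta_mul, eta_pow, eta_sq hp.ne_zero])
      (fun p hp => by rw [eta_mul, eta_pow, eta_sq hp.ne_zero])
      (fun p hp hd => by rw [cop_prime hp, if_neg hd, one_mul]) ha hb
    have e1 : ∀ c : O, c ≠ 0 → IsCoprime f c → ext (fun p => cop p f) c = 1 := fun c hc h => by
      rw [← cop_of h, ← ext_cop hc]
      exact ext_congr fun p hp _ _ => cop_prime hp f
    rw [KE_eq, KE_eq, e, e1 a ha.1.ne_zero hf.of_mul_right_left,
      e1 b hb.1.ne_zero hf.of_mul_right_right, one_mul, one_mul]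
  · exact Kn ha.1.ne_zero m (fun p => norm_eta_le p m) fun p => norm_eta_le p m

end Pool.Agent.P.MP_26a8c3_nt.QO
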