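import Pool.Agent.P.MP_26a8c3_nt.QO.Cnt

/-! Divisors in `O`: Moebius sums and the divisor bound. -/

namespace Pool.Agent.P.MP_26a8c3_nt.QO

open Finset
open scoped Classical

noncomputable section

variable {a b d n p : O}

lemma Primary.of_dvd (hn : Primary n) (h : d ∣ n) : Primary (_root_.normalize d) :=
  primary_normalize fun e => hn.not_lam_dvd (e.trans h)

lemma Primary.gcd (hn : Primary n) (t : O) : Primary (gcd n t) := by
  have := hn.of_dvd (gcd_dvd_left n t)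
  rwa [_root_.normalize_gcd] at this

lemma one_mem_pdiv (hn : n ≠ 0) : 1 ∈ pdiv n := (mem_pdiv hn).2 ⟨primary_one, one_dvd n⟩

lemma self_mem_pdiv (hn : Primary n) : n ∈ pdiv n := (mem_pdiv hn.ne_zero).2 ⟨hn, dvd_rfl⟩

lemma pdiv_one : pdiv 1 = {1} := by
  ext x
  rw [mem_pdiv one_ne_zero, mem_singleton]
  exact ⟨fun h => h.1.eq_one_of_isUnit (isUnit_of_dvd_one h.2),
    fun h => by rw [h]; exact ⟨primary_one, dvd_rfl⟩⟩

lemma pdiv_mono (h : a ∣ b) (hb : b ≠ 0) : pdiv a ⊆ pdiv b := fun _ hx =>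
  have := (mem_pdiv (ne_zero_of_dvd_ne_zero hb h)).1 hx
  (mem_pdiv hb).2 ⟨this.1, this.2.trans h⟩

lemma pdiv_filter_dvd (hn : n ≠ 0) (t : O) : (pdiv n).filter (· ∣ t) = pdiv (gcd n t) := by
  ext x
  rw [mem_filter, mem_pdiv hn, mem_pdiv (fun h => hn ((gcd_eq_zero_iff _ _).1 h).1),
    _root_.dvd_gcd_iff, and_assoc]

lemma pdiv_prime (hp : Prime p) (h : Primary p) : pdiv p = {1, p} := by
  ext x
  rw [mem_pdiv hp.ne_zero, mem_insert, mem_singleton]
  constructor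
  · rintro ⟨h1, h2⟩
    rcases (hp.irreducible.dvd_iff).1 h2 with e | e
    · exact Or.inl (h1.eq_one_of_isUnit e)
    · exact Or.inr (h1.eq_of_associated h e.symm)
  · rintro (rfl | rfl)
    exacts [⟨primary_one, one_dvd _⟩, ⟨h, dvd_rfl⟩]

lemma exists_primary_mul (hd : Primary d) (h : d ∣ a * b) :
    ∃ x y, Primary x ∧ Primary y ∧ x ∣ a ∧ y ∣ b ∧ d = x * y := by
  obtain ⟨x, y, hx, hy, rfl⟩ := exists_dvd_and_dvd_of_dvd_mul h
  have h1 := hd.of_dvd (dvd_mul_right x y)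
  have h2 := hd.of_dvd (dvd_mul_left y x)
  exact ⟨_, _, h1, h2, normalize_dvd_iff.2 hx, normalize_dvd_iff.2 hy,
    hd.eq_of_associated (h1.mul h2)
      ((associated_normalize x).mul_mul (associated_normalize y))⟩

/-- divisors of a product of coprime elements -/
lemma sum_pdiv_mul {M : Type*} [AddCommMonoid M] (ha : a ≠ 0) (hb : b ≠ 0) (h : IsCoprime a b)
    (f : O → M) : ∑ d ∈ pdiv (a * b), f d = ∑ x ∈ pdiv a, ∑ y ∈ pdiv b, f (x * y) := by
  rw [← sum_product']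
  refine (sum_bij (fun x _ => x.1 * x.2) (fun x hx => ?_) (fun x hx y hy e => ?_) (fun d hd => ?_)
    fun _ _ => rfl).symm
  · rw [mem_product, mem_pdiv ha, mem_pdiv hb] at hx
    exact (mem_pdiv (mul_ne_zero ha hb)).2 ⟨hx.1.1.mul hx.2.1, mul_dvd_mul hx.1.2 hx.2.2⟩
  · rw [mem_product, mem_pdiv ha, mem_pdiv hb] at hx hy
    have c1 : IsCoprime x.1 y.2 :=
      (h.of_isCoprime_of_dvd_left hx.1.2).of_isCoprime_of_dvd_right hy.2.2
    have c2 : IsCoprime y.1 x.2 :=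
      (h.of_isCoprime_of_dvd_left hy.1.2).of_isCoprime_of_dvd_right hx.2.2
    have e1 : x.1 = y.1 := hx.1.1.eq_of_associated hy.1.1 (associated_of_dvd_dvd
      (c1.dvd_of_dvd_mul_right (e ▸ dvd_mul_right _ _))
      (c2.dvd_of_dvd_mul_right (e ▸ dvd_mul_right _ _)))
    rw [e1] at e
    exact Prod.ext e1 (mul_left_cancel₀ hy.1.1.ne_zero e)
  · rw [mem_pdiv (mul_ne_zero ha hb)] at hd
    obtain ⟨x, y, hx, hy, h1, h2, e⟩ := exists_primary_mul hd.1 hd.2
    exact ⟨(x, y), mem_product.2 ⟨(mem_pdiv ha).2 ⟨hx, h1⟩, (mem_pdiv hb).2 ⟨hy, h2⟩⟩, e.symm⟩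

lemma sum_pdiv_prime_mul {M : Type*} [AddCommMonoid M] (hp : Prime p) (h1 : Primary p) (ha : a ≠ 0)
    (h : ¬p ∣ a) (f : O → M) :
    ∑ d ∈ pdiv (p * a), f d = ∑ d ∈ pdiv a, f d + ∑ d ∈ pdiv a, f (p * d) := by
  rw [sum_pdiv_mul hp.ne_zero ha (hp.coprime_iff_not_dvd.2 h), pdiv_prime hp h1,
    sum_pair (Ne.symm hp.ne_one)]
  simp

lemma exists_primary_prime (hn : Primary n) (h : n ≠ 1) : ∃ p, Prime p ∧ Primary p ∧ p ∣ n := by
  obtain ⟨p, hp, e⟩ := WfDvdMonoid.exists_irreducible_factor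
    (fun e => h (hn.eq_one_of_isUnit e)) hn.ne_zero
  exact ⟨normalize p, (associated_normalize p).prime hp.prime, hn.of_dvd e, normalize_dvd_iff.2 e⟩

lemma sum_mu_pdiv (hn : Primary n) : ∑ d ∈ pdiv n, mu d = if n = 1 then 1 else 0 := by
  split_ifs with h
  · simp [h, pdiv_one]
  obtain ⟨p, hp, h1, h2⟩ := exists_primary_prime hn h
  have h0 := hn.ne_zero
  rw [← sum_filter_add_sum_filter_not _ fun d => p ∣ d,
    ← sum_of_injOn (s := (pdiv n).filter fun d => ¬p ∣ d) (f := fun d => -mu d) (fun d => p * d)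
      (fun _ _ _ _ e => mul_left_cancel₀ hp.ne_zero e) (fun d hd => ?_) (fun d hd hd' => ?_)
      fun d hd => ?_]
  · simp
  · rw [mem_coe, mem_filter, mem_pdiv h0] at hd ⊢
    exact ⟨⟨h1.mul hd.1.1, (hp.coprime_iff_not_dvd.2 hd.2).mul_dvd h2 hd.1.2⟩, dvd_mul_right _ _⟩
  · rw [mem_filter, mem_pdiv h0] at hd
    obtain ⟨⟨h3, h4⟩, c, rfl⟩ := hd
    refine mu_of_not fun hs => hd' ⟨c, ?_, rfl⟩
    rw [mem_coe, mem_filter, mem_pdiv h0]
    exact ⟨⟨h3.of_mul h1, (dvd_mul_left c p).trans h4⟩,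
      fun e => hp.not_isUnit (hs p (mul_dvd_mul_left p e))⟩
  · rw [mu_mul (hp.coprime_iff_not_dvd.2 (mem_filter.1 hd).2), mu_prime hp, neg_one_mul]

/-- detection of coprimality -/
theorem mu_sum (hn : Primary n) (t : O) : ∑ d ∈ (pdiv n).filter (· ∣ t), mu d = cop n t := by
  rw [pdiv_filter_dvd hn.ne_zero, sum_mu_pdiv (hn.gcd t), cop, isCoprime_comm,
    ← gcd_isUnit_iff]
  exact if_congr ⟨fun h => h ▸ isUnit_one, (hn.gcd t).eq_one_of_isUnit⟩ rfl rfl

lemma cop_eq_sum (hn : Primary n) (t : O) :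
    cop n t = ∑ d ∈ pdiv n, if d ∣ t then mu d else 0 := by rw [← mu_sum hn, sum_filter]

lemma tsum_ite_dvd0 {M : Type*} [AddCommMonoid M] [TopologicalSpace M] (hd : d ≠ 0) (f : O → M) :
    ∑' m, (if d ∣ m then f m else 0) = ∑' t, f (d * t) := by
  simpa using tsum_ite_dvd hd 0 f

/-- removal of a coprimality condition -/
theorem tsum_cop (hn : Primary n) {f : O → ℂ} (hf : Summable f) :
    ∑' t, cop n t * f t = ∑ d ∈ pdiv n, mu d * ∑' t, f (d * t) := by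
  have e : ∀ t, cop n t * f t = ∑ d ∈ pdiv n, mu d * if d ∣ t then f t else 0 := fun t => by
    rw [cop_eq_sum hn, sum_mul]
    exact sum_congr rfl fun d _ => by split_ifs <;> simp
  simp only [e]
  rw [Summable.tsum_finsetSum fun d _ => Summable.mul_left _ (hf.indicator {t | d ∣ t} |>.congr
    fun t => by simp [Set.indicator_apply])]
  refine sum_congr rfl fun d hd => ?_
  rw [tsum_mul_left, tsum_ite_dvd0 ((mem_pdiv hn.ne_zero).1 hd).1.ne_zero]

/-! ### the divisor bound -/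

/-- normalised divisors -/
def ndiv (n : O) : Finset O := (ball (N n)).filter fun d => Nrm d ∧ d ∣ n

lemma mem_ndiv (hn : n ≠ 0) : d ∈ ndiv n ↔ Nrm d ∧ d ∣ n := by
  rw [ndiv, mem_filter, mem_ball]
  exact ⟨fun h => h.2, fun h => ⟨by exact_mod_cast N_le_of_dvd h.2 hn, h⟩⟩

lemma card_ndiv_mul (ha : a ≠ 0) (hb : b ≠ 0) :
    (ndiv (a * b)).card ≤ (ndiv a).card * (ndiv b).card := by
  rw [← card_product]
  refine card_le_card_of_surjOn (fun x => x.1 * x.2) fun d hd => ?_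
  rw [mem_coe, mem_ndiv (mul_ne_zero ha hb)] at hd
  obtain ⟨x, y, hx, hy, rfl⟩ := exists_dvd_and_dvd_of_dvd_mul hd.2
  have h1 := nrm_normalize (left_ne_zero_of_mul hd.1.ne_zero)
  have h2 := nrm_normalize (right_ne_zero_of_mul hd.1.ne_zero)
  refine ⟨(normalize x, normalize y), mem_coe.2 (mem_product.2 ⟨(mem_ndiv ha).2
    ⟨h1, normalize_dvd_iff.2 hx⟩, (mem_ndiv hb).2 ⟨h2, normalize_dvd_iff.2 hy⟩⟩), ?_⟩
  exact (h1.mul h2).eq_of_associated hd.1
    ((normalize_associated x).mul_mul (normalize_associated y))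

lemma card_ndiv_pow (hp : Prime p) (k : ℕ) : (ndiv (p ^ k)).card ≤ k + 1 := by
  rw [← card_range (k + 1)]
  refine card_le_card_of_surjOn (fun i => normalize (p ^ i)) fun d hd => ?_
  rw [mem_coe, mem_ndiv (pow_ne_zero _ hp.ne_zero)] at hd
  obtain ⟨i, hi, e⟩ := (dvd_prime_pow hp k).1 hd.2
  exact ⟨i, by simpa using Nat.lt_succ_of_le hi, (nrm_normalize
    (pow_ne_zero _ hp.ne_zero)).eq_of_associated hd.1 ((normalize_associated _).trans e.symm)⟩

lemma card_ndiv_unit (h : IsUnit n) : (ndiv n).card ≤ 1 :=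
  card_le_one.2 fun x hx y hy => by
    rw [mem_ndiv h.ne_zero] at hx hy
    exact hx.1.eq_of_associated hy.1 ((associated_one_iff_isUnit.2 (isUnit_of_dvd_unit hx.2 h)).trans
      (associated_one_iff_isUnit.2 (isUnit_of_dvd_unit hy.2 h)).symm)

lemma succ_le_rpow {ε : ℝ} (hε : 0 < ε) : ∃ C : ℝ, 1 ≤ C ∧ ∀ (k : ℕ) (x : ℝ), 2 ≤ x →
    (k + 1 : ℝ) ≤ C * (x ^ k) ^ ε := by
  have hl : 0 < ε * Real.log 2 := mul_pos hε (Real.log_pos one_lt_two)
  refine ⟨1 + 1 / (ε * Real.log 2), by simp; positivity, fun k x hx => ?_⟩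
  have h1 : ((2 : ℝ) ^ k) ^ ε ≤ (x ^ k) ^ ε := by gcongr
  have h2 : k * (ε * Real.log 2) + 1 ≤ ((2 : ℝ) ^ k) ^ ε := by
    rw [Real.rpow_def_of_pos (by positivity), Real.log_pow]
    convert Real.add_one_le_exp _ using 2; ring
  have h3 : (0 : ℝ) ≤ k := Nat.cast_nonneg k
  calc (k + 1 : ℝ) ≤ (1 + 1 / (ε * Real.log 2)) * (k * (ε * Real.log 2) + 1) := by
        have : (1 + 1 / (ε * Real.log 2)) * (k * (ε * Real.log 2) + 1) =
            k + 1 + (k * (ε * Real.log 2) + 1 / (ε * Real.log 2)) := by field_simp; ring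
        rw [this]; exact le_add_of_nonneg_right (by positivity)
    _ ≤ _ := mul_le_mul_of_nonneg_left (h2.trans h1) (by positivity)

theorem card_ndiv_le {ε : ℝ} (hε : 0 < ε) :
    ∃ C : ℝ, 0 < C ∧ ∀ n : O, n ≠ 0 → ((ndiv n).card : ℝ) ≤ C * (N n : ℝ) ^ ε := by
  obtain ⟨C, hC, H⟩ := succ_le_rpow hε
  set T := ball ((2 : ℝ) ^ (1 / ε)) with hT
  suffices key : ∀ (m : ℕ) (n : O), n ≠ 0 → N n = m → ((ndiv n).card : ℝ) ≤
      C ^ (T.filter fun q => Prime q ∧ q ∣ n).card * (N n : ℝ) ^ ε by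
    refine ⟨C ^ T.card, by positivity, fun n hn => (key _ n hn rfl).trans ?_⟩
    exact mul_le_mul_of_nonneg_right (pow_le_pow_right₀ hC (card_filter_le _ _)) (by positivity)
  intro m
  induction m using Nat.strong_induction_on with
  | _ m ih =>
  intro n hn hm
  by_cases hu : IsUnit n
  · have h1 : ((ndiv n).card : ℝ) ≤ 1 := by exact_mod_cast card_ndiv_unit hu
    exact h1.trans (one_le_mul_of_one_le_of_one_le (one_le_pow₀ hC)
      (Real.one_le_rpow (one_le_N hn) hε.le))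
  obtain ⟨p, hp, e⟩ := WfDvdMonoid.exists_irreducible_factor hu hn
  obtain ⟨k, a, ha, rfl⟩ := WfDvdMonoid.max_power_factor hn hp
  have hp' := hp.prime
  have ha0 : a ≠ 0 := right_ne_zero_of_mul hn
  have hk : k ≠ 0 := by rintro rfl; exact ha (by simpa using e)
  have h2 := two_le_N hp'
  have h2' : (2 : ℝ) ≤ N p := by exact_mod_cast h2
  have hlt : N a < m := by
    rw [← hm, map_mul, map_pow]
    exact lt_mul_of_one_lt_left (N_pos ha0) (one_lt_pow₀ h2 hk)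
  have h3 := ih _ hlt a ha0 rfl
  have h4 : ((ndiv (p ^ k * a)).card : ℝ) ≤ (k + 1) * (ndiv a).card := by
    exact_mod_cast (card_ndiv_mul (pow_ne_zero _ hp'.ne_zero) ha0).trans
      (Nat.mul_le_mul_right _ (card_ndiv_pow hp' k))
  have hsub : (T.filter fun q => Prime q ∧ q ∣ a) ⊆ T.filter fun q => Prime q ∧ q ∣ p ^ k * a :=
    monotone_filter_right _ fun q _ hq => ⟨hq.1, hq.2.mul_left _⟩
  have e2 : (N (p ^ k * a) : ℝ) ^ ε = ((N p : ℝ) ^ k) ^ ε * (N a : ℝ) ^ ε := by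
    rw [map_mul, map_pow]; push_cast; rw [Real.mul_rpow (by positivity) (by positivity)]
  rw [e2]
  refine h4.trans ?_
  by_cases hpT : p ∈ T
  · have h5 : (T.filter fun q => Prime q ∧ q ∣ a).card + 1 ≤
        (T.filter fun q => Prime q ∧ q ∣ p ^ k * a).card :=
      card_lt_card ⟨hsub, fun h => ha (mem_filter.1 (h (mem_filter.2 ⟨hpT, hp', e⟩))).2.2⟩
    calc _ ≤ (C * ((N p : ℝ) ^ k) ^ ε) * (C ^ (T.filter fun q => Prime q ∧ q ∣ a).card *
          (N a : ℝ) ^ ε) := mul_le_mul (H k _ h2') h3 (by positivity) (by positivity)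
      _ = C ^ ((T.filter fun q => Prime q ∧ q ∣ a).card + 1) * (((N p : ℝ) ^ k) ^ ε *
          (N a : ℝ) ^ ε) := by ring
      _ ≤ _ := mul_le_mul_of_nonneg_right (pow_le_pow_right₀ hC h5) (by positivity)
  · have h5 : (k + 1 : ℝ) ≤ ((N p : ℝ) ^ k) ^ ε := by
      rw [hT, mem_ball, not_le] at hpT
      have h6 : (2 : ℝ) ≤ (N p : ℝ) ^ ε := by
        have := Real.rpow_le_rpow (by positivity) hpT.le hε.le
        rwa [← Real.rpow_mul (by norm_num), one_div_mul_cancel hε.ne', Real.rpow_one] at this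
      have h7 : (k + 1 : ℝ) ≤ 2 ^ k := by exact_mod_cast Nat.lt_two_pow_self
      rw [← Real.rpow_natCast, ← Real.rpow_mul (by positivity), mul_comm,
        Real.rpow_mul (by positivity), Real.rpow_natCast]
      exact h7.trans (pow_le_pow_left₀ (by norm_num) h6 k)
    calc _ ≤ ((N p : ℝ) ^ k) ^ ε * (C ^ (T.filter fun q => Prime q ∧ q ∣ a).card *
          (N a : ℝ) ^ ε) := mul_le_mul h5 h3 (by positivity) (by positivity)
      _ = C ^ (T.filter fun q => Prime q ∧ q ∣ a).card * (((N p : ℝ) ^ k) ^ ε *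
          (N a : ℝ) ^ ε) := by ring
      _ ≤ _ := mul_le_mul_of_nonneg_right (pow_le_pow_right₀ hC (card_le_card hsub))
          (by positivity)

lemma pdiv_subset_ndiv (n : O) : pdiv n ⊆ ndiv n :=
  monotone_filter_right _ fun _ _ h => ⟨h.1.nrm, h.2⟩

/-- the divisor bound -/
theorem dv_le {ε : ℝ} (hε : 0 < ε) :
    ∃ C : ℝ, 0 < C ∧ ∀ n : O, n ≠ 0 → dv n ≤ C * (N n : ℝ) ^ ε := by
  obtain ⟨C, hC, H⟩ := card_ndiv_le hε
  refine ⟨C, hC, fun n hn => le_trans ?_ (H n hn)⟩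
  rw [dv]; exact_mod_cast card_le_card (pdiv_subset_ndiv n)

lemma card_all_div (hn : n ≠ 0) : ((ball (N n)).filter (· ∣ n)).card ≤ 6 * (ndiv n).card := by
  rw [← card_units6, ← card_product]
  refine card_le_card_of_surjOn (fun x => x.1 * x.2) fun d hd => ?_
  have h := (mem_filter.1 (mem_coe.1 hd)).2
  obtain ⟨u, hu⟩ := normalize_associated d
  exact ⟨(u, normalize d), mem_coe.2 (mem_product.2 ⟨mem_units6.2 u.isUnit, (mem_ndiv hn).2
    ⟨nrm_normalize (ne_zero_of_dvd_ne_zero hn h), normalize_dvd_iff.2 h⟩⟩), by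
      simp only; rw [mul_comm, hu]⟩

/-- the divisor bound for all divisors -/
theorem card_all_div_le {ε : ℝ} (hε : 0 < ε) : ∃ C : ℝ, 0 < C ∧ ∀ n : O, n ≠ 0 →
    ((((ball (N n)).filter (· ∣ n)).card : ℝ)) ≤ C * (N n : ℝ) ^ ε := by
  obtain ⟨C, hC, H⟩ := card_ndiv_le hε
  refine ⟨6 * C, by positivity, fun n hn => ?_⟩
  have h1 : ((((ball (N n)).filter (· ∣ n)).card : ℝ)) ≤ 6 * (ndiv n).card := by
    exact_mod_cast card_all_div hn
  linarith [H n hn]

/-- any finite set of divisors -/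
theorem card_dvd_le {ε : ℝ} (hε : 0 < ε) : ∃ C : ℝ, 0 < C ∧ ∀ (n : O) (S : Finset O), n ≠ 0 →
    (∀ d ∈ S, d ∣ n) → (S.card : ℝ) ≤ C * (N n : ℝ) ^ ε := by
  obtain ⟨C, hC, H⟩ := card_all_div_le hε
  refine ⟨C, hC, fun n S hn h => le_trans ?_ (H n hn)⟩
  exact_mod_cast card_le_card fun d hd => mem_filter.2
    ⟨mem_ball.2 (by exact_mod_cast N_le_of_dvd (h d hd) hn), h d hd⟩

lemma dv_nonneg (n : O) : 0 ≤ dv n := Nat.cast_nonneg _

lemma one_le_dv (hn : n ≠ 0) : 1 ≤ dv n := by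
  rw [dv]; exact_mod_cast card_pos.2 ⟨1, one_mem_pdiv hn⟩

lemma dv_mono (h : a ∣ b) (hb : b ≠ 0) : dv a ≤ dv b := by
  rw [dv, dv]; exact_mod_cast card_le_card (pdiv_mono h hb)

lemma dv_mul_le (ha : a ≠ 0) (hb : b ≠ 0) : dv (a * b) ≤ dv a * dv b := by
  have : (pdiv (a * b)).card ≤ (pdiv a ×ˢ pdiv b).card := by
    refine card_le_card_of_surjOn (fun x => x.1 * x.2) fun d hd => ?_
    rw [mem_coe, mem_pdiv (mul_ne_zero ha hb)] at hd
    obtain ⟨x, y, hx, hy, h1, h2, e⟩ := exists_primary_mul hd.1 hd.2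
    exact ⟨(x, y), mem_coe.2 (mem_product.2 ⟨(mem_pdiv ha).2 ⟨hx, h1⟩, (mem_pdiv hb).2 ⟨hy, h2⟩⟩),
      e.symm⟩
  rw [card_product] at this
  rw [dv, dv, dv]; exact_mod_cast this

lemma dv_mul (ha : a ≠ 0) (hb : b ≠ 0) (h : IsCoprime a b) : dv (a * b) = dv a * dv b := by
  have := sum_pdiv_mul ha hb h fun _ => (1 : ℝ)
  simpa [dv] using this

lemma dv_le_N (hn : n ≠ 0) : dv n ≤ 16 * N n :=
  card_le_of_N_le (Nat.cast_nonneg _) fun d hd =>
    have := (mem_pdiv hn).1 hd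
    ⟨this.1.ne_zero, by exact_mod_cast N_le_of_dvd this.2 hn⟩

/-- powers of the divisor function against a convergent zeta sum -/
theorem summable_dv_pow (k : ℕ) {s : ℝ} (hs : 1 < s) :
    Summable fun n : O => dv n ^ k * (N n : ℝ) ^ (-s) := by
  have hε : 0 < (s - 1) / 2 / (k + 1) := by have : 0 < s - 1 := by linarith
                                            positivity
  obtain ⟨C, hC, H⟩ := dv_le hε
  refine Summable.of_nonneg_of_le (fun n => by have := dv_nonneg n; positivity) (fun n => ?_)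
    ((summable_N_rpow (t := (s + 1) / 2) (by linarith)).mul_left (C ^ k))
  rcases eq_or_ne n 0 with rfl | hn
  · rw [map_zero, Nat.cast_zero, Real.zero_rpow (by linarith), Real.zero_rpow (by linarith)]; simp
  have h0 := N_pos_real hn
  have h1 := pow_le_pow_left₀ (dv_nonneg n) (H n hn) k
  rw [mul_pow, ← Real.rpow_natCast (_ ^ _), ← Real.rpow_mul h0.le] at h1
  have h2 : (N n : ℝ) ^ ((s - 1) / 2 / (k + 1) * k) ≤ (N n : ℝ) ^ ((s - 1) / 2) := by
    refine Real.rpow_le_rpow_of_exponent_le (one_le_N hn) ?_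
    rw [div_mul_eq_mul_div, div_le_iff₀ (by positivity)]
    nlinarith
  rw [show -((s + 1) / 2) = (s - 1) / 2 + -s by ring, Real.rpow_add h0, ← mul_assoc]
  exact mul_le_mul_of_nonneg_right (h1.trans (mul_le_mul_of_nonneg_left h2 (by positivity)))
    (by positivity)

end

end Pool.Agent.P.MP_26a8c3_nt.QO
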