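import Pool.Agent.P.MP_26a8c3_nt.QO.Defs

/-! Interface statements of the algebra layer. Each is proved in its own file. -/

namespace Pool.Agent.P.MP_26a8c3_nt.QO

open Finset
open scoped Classical ComplexConjugate

/-- Poisson summation -/
def S_Poi : Prop :=
  ∀ (q : O) (F : O → ℂ) (P : ℝ), q ≠ 0 → Per q F → 0 < P →
    ∑' m : O, F m * (G (N m / P) : ℝ) =
      (P / N q : ℝ) * ∑' h : O, ft F q h * (G (P * N h / N q) : ℝ)

/-- finite Fourier analysis -/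
def S_FT : Prop :=
  (∀ (a b h : O) (F H : O → ℂ), a ≠ 0 → b ≠ 0 → IsCoprime a b → Per a F → Per b H →
    ft (fun x => F x * H x) (a * b) h = ft (fun x => F (b * x)) a h * ft (fun x => H (a * x)) b h) ∧
  (∀ (q x : O) (F : O → ℂ), q ≠ 0 → Per q F →
    F x = (N q : ℂ)⁻¹ * sm q fun y => ft F q (-y) * el (x * y) q) ∧
  (∀ (q h : O) (F : O → ℂ) (B : ℝ), q ≠ 0 → (∀ x, ‖F x‖ ≤ B) → ‖ft F q h‖ ≤ N q * B) ∧
  (∀ (q h u : O) (ρ : O → ℂ), q ≠ 0 → IsNu q ρ → IsCoprime u q →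
    ft ρ q (u * h) = conj (ρ u) * ft ρ q h) ∧
  (∀ (p h : O), Prime p → ft (cop p) p h = (if p ∣ h then (N p : ℂ) else 0) - 1) ∧
  ∀ (p h : O) (ρ : O → ℂ), Prime p → IsNu p ρ → ρ ≠ cop p →
    ft ρ p h = conj (ρ h) * ft ρ p 1 ∧ ‖ft ρ p 1‖ = ab p

/-- cubic reciprocity -/
def S_R1 : Prop := ∀ a b : O, Primary a → Primary b → chi a b = chi b a

/-- the cube of the cubic Gauss sum -/
def S_G3 : Prop := ∀ p : O, Prime p → Primary p → ft (chi p) p 1 ^ 3 = -(toC p * N p)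

/-- the weak supplement -/
def S_R2 : Prop :=
  ∀ c d d' : O, Primary d → Primary d' → 9 ∣ d - d' → c ∣ d - d' → chi d c = chi d' c

/-- the Kubota symbol, translation by one, the cusps -/
def S_Kub : Prop :=
  (∀ c d α β γ δ : O, 3 ∣ c → Primary d → α * δ - β * γ = 1 → 3 ∣ β → 3 ∣ γ →
    Primary δ → chi (c * β + d * δ) (c * α + d * γ) = chi d c * chi δ γ) ∧
  (∀ c d : O, 3 ∣ c → Primary d → chi (c + d) c = chi d c) ∧
  ∀ α β γ δ : O, α * δ - β * γ = 1 → Primary α → 9 ∣ β →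
    Primary δ ∧ chi δ (γ * (1 - δ)) = chi δ γ ∧ chi α γ = conj (chi δ γ)

/-- the orders of the symbols at a prime -/
def S_Ord : Prop :=
  ∀ (p : O) (j : ℕ), Prime p → Primary p →
    (¬ 3 ∣ j → (fun x => chi p x ^ j) ≠ cop p) ∧
    (Od p → ¬ 6 ∣ j → (fun x => psi p x ^ j) ≠ cop p)

/-- quadratic Gauss sums -/
def S_R3 : Prop := ∀ n : O, Od n → sm n (fun x => el (x ^ 2) n) = ab n * gam n

/-- the table of `gam` and `xi` -/
def S_Gam : Prop :=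
  gam 1 = 1 ∧ (∀ a b, 4 ∣ a - b → gam a = gam b) ∧ (∀ a, Od a → ‖gam a‖ = 1) ∧
  (∀ a u, Od u → gam (a * u ^ 2) = gam a) ∧ (∀ a b, xi a b = xi b a) ∧
  (∀ a b, Od a → Od b → xi a b = 1 ∨ xi a b = -1) ∧
  (∀ k, Od k → IsNu 4 (xi k)) ∧ (∀ k ∈ cls, Od k) ∧
  (∀ a, Od a → ∃ k ∈ cls, ∃ u, Od u ∧ 4 ∣ a - k * u ^ 2) ∧
  (∀ a k u b, Od u → 4 ∣ a - k * u ^ 2 → xi a b = xi k b) ∧
  (∀ a b k u v, Od k → Od u → Od v → 4 ∣ a - k * u ^ 2 → 4 ∣ b - k * v ^ 2 → gam (a * b) = 1) ∧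
  ∃ κ : O → ℂ, ∑ k ∈ cls, ‖κ k‖ ≤ 2 ∧ ∀ a, Od a → gam a = ∑ k ∈ cls, κ k * xi k a

/-- quadratic and sextic reciprocity -/
def S_QR : Prop :=
  (∀ n h : O, Squarefree n → Od n → ft (eta n) n h = eta n h * (ab n * gam n)) ∧
  (∀ a b : O, Od a → Od b → eta a b = xi a b * eta b a) ∧
  ∀ a b : O, Primary a → Primary b → Od a → Od b → psi a b = xi a b * psi b a

/-- the symbol of an element supported at the primes of the modulus is periodic -/
def S_Per : Prop :=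
  ∀ Q h n n' : O, 36 ∣ Q → h ≠ 0 → (∀ p, Prime p → p ∣ h → p ∣ Q) → Primary n → Primary n' →
    IsCoprime n Q → 2 * Q ∣ n - n' → psi n h = psi n' h

/-- cubic and sextic Gauss sums -/
def S_R4 : Prop :=
  tau 1 = 1 ∧ (∀ c, SQ c → ‖tau c‖ = 1) ∧
  (∀ a b, Primary a → Primary b → IsCoprime a b → tau (a * b) = chi a b * tau a * tau b) ∧
  ∀ a b h, SQO a → SQO b → IsCoprime a b →
    mu a * mu b * ft (fun x => psi a x * conj (psi b x)) (a * b) h =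
      ab a * ab b * gam (a * b) * bb a * conj (bb b) * (conj (psi a h) * psi b h)

/-- the Poisson identity for the sextic family -/
def S_P2 : Prop :=
  ∀ (a b : O) (P : ℝ), SQO a → SQO b → 0 < P →
    mu a * mu b * ∑' m : O, KK a b m * (G (N m / P) : ℝ) =
      (P / (ab a * ab b) : ℝ) * gam (a * b) * bb a * conj (bb b) *
        ∑' h : O, conj (psi a h) * psi b h * (G (P * N h / (N a * N b)) : ℝ)

/-- the Poisson identity for the quadratic family -/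
def S_PE : Prop :=
  ∀ (a b : O) (P : ℝ), SQO a → SQO b → 0 < P →
    ∑' m : O, KE a b m * (G (N m / P) : ℝ) = (P / (ab a * ab b) : ℝ) * gam (a * b) *
      ∑' h : O, eta a h * eta b h * (G (P * N h / (N a * N b)) : ℝ)

/-- the kernels -/
def S_K : Prop :=
  (∀ a b m, SQ a → SQ b → psi a m * conj (psi b m) =
    ∑ e ∈ (pdiv a).filter (· ∣ b), jj e m * KK (quo a e) (quo b e) m) ∧
  (∀ a b m, SQ a → SQ b → KK a b m =
    ∑ e ∈ (pdiv a).filter (· ∣ b), mu e * jj e m * (psi (quo a e) m * conj (psi (quo b e) m))) ∧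
  (∀ a b, SQ a → SQ b → KK a b 0 = if a = b then phs a else 0) ∧
  (∀ a b f m, SQ a → SQ b → IsCoprime f (a * b) →
    KK a b (f ^ 2 * m) = chi a f * conj (chi b f) * KK a b m) ∧
  (∀ a b m, SQ a → SQ b → ‖KK a b m‖ ≤ N a) ∧
  (∀ a b m, SQ a → SQ b → eta a m * eta b m =
    ∑ e ∈ (pdiv a).filter (· ∣ b), jj e m * KE (quo a e) (quo b e) m) ∧
  (∀ a b m, SQ a → SQ b → KE a b m =
    ∑ e ∈ (pdiv a).filter (· ∣ b), mu e * jj e m * (eta (quo a e) m * eta (quo b e) m)) ∧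
  (∀ a b, SQ a → SQ b → KE a b 0 = if a = b then phs a else 0) ∧
  (∀ a b f m, SQ a → SQ b → IsCoprime f (a * b) → KE a b (f ^ 2 * m) = KE a b m) ∧
  ∀ a b m, SQ a → SQ b → ‖KE a b m‖ ≤ N a

/-- the algebra layer -/
structure Alg : Prop where
  poi : S_Poi
  ft : S_FT
  r1 : S_R1
  g3 : S_G3
  r2 : S_R2
  kub : S_Kub
  ord : S_Ord
  r3 : S_R3
  gam : S_Gam
  qr : S_QR
  per : S_Per
  r4 : S_R4
  p2 : S_P2
  pe : S_PE
  k : S_K

end Pool.Agent.P.MP_26a8c3_nt.QO
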