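import Pool.Agent.P.MP_26a8c3_nt.QO.Res
import Pool.Agent.P.MP_26a8c3_nt.QO.Sym
import Pool.Agent.P.MP_26a8c3_nt.QO.StR

/-! Finite Fourier transforms of characters; Gauss sums at a prime. -/

namespace Pool.Agent.P.MP_26a8c3_nt.QO

open scoped Classical ComplexConjugate

lemma ft_crt' {a b : O} (ha : a ≠ 0) (hb : b ≠ 0) (hc : IsCoprime a b) {F H : O → ℂ}
    (hF : Per a F) (hH : Per b H) (h : O) : ft (fun x => F x * H x) (a * b) h =
      ft (fun x => F (b * x)) a h * ft (fun x => H (a * x)) b h := by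
  rw [ft_crt ha hb hc hF hH h]
  congr 2 <;> ext x <;> rw [mul_comm]

lemma ft_inv' {q : O} (hq : q ≠ 0) {F : O → ℂ} (hF : Per q F) (x : O) :
    F x = (N q : ℂ)⁻¹ * sm q fun y => ft F q (-y) * el (x * y) q := by
  have h0 : (N q : ℂ) ≠ 0 := by exact_mod_cast (N_pos hq).ne'
  have hP : Per q fun h => ft F q h * el (-(x * h)) q :=
    (per_ft F q).mul fun a b e => el_congr (by
      rw [show -(x * a) - -(x * b) = -x * (a - b) by ring]; exact e.mul_left _)
  have := sm_scale hP (u := -1) isCoprime_one_left.neg_left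
  simp only [neg_mul, one_mul, mul_neg, neg_neg] at this
  rw [this, ft_inv hq hF, inv_mul_cancel_left₀ h0]

lemma ft_nu {q u : O} {ρ : O → ℂ} (hρ : IsNu q ρ) (hu : IsCoprime u q) (h : O) :
    ft ρ q (u * h) = conj (ρ u) * ft ρ q h := by
  rw [← ft_scale hρ.per hu h, mul_comm h u]
  simp only [hρ.mul, mul_comm _ (ρ u), ft_mul_left]
  rw [← mul_assoc, mul_comm (conj (ρ u)), hρ.mul_conj hu, one_mul]

lemma ft_one {q : O} (hq : q ≠ 0) (h : O) :
    ft (fun _ => 1) q h = if q ∣ h then (N q : ℂ) else 0 := by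
  simp only [ft, one_mul, sm_el hq]

lemma ft_ite_dvd {q : O} (hq : q ≠ 0) (h : O) : ft (fun x => if q ∣ x then 1 else 0) q h = 1 := by
  rw [ft, sm_single hq ((per_ite_dvd q 1 0).mul (per_el q h)) 0]
  · simp
  · intro x hx; rw [sub_zero] at hx; simp [hx]

lemma ft_cop {p : O} (hp : Prime p) (h : O) :
    ft (cop p) p h = (if p ∣ h then (N p : ℂ) else 0) - 1 := by
  have : cop p = fun x => 1 - if p ∣ x then 1 else 0 := by
    ext x; rw [cop_prime hp]; split_ifs <;> simp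
  rw [this, ft_sub hp.ne_zero, ft_one hp.ne_zero, ft_ite_dvd hp.ne_zero]

/-- the sum of a non-principal character vanishes -/
lemma sm_nu {q : O} {ρ : O → ℂ} (hρ : IsNu q ρ) (h : ρ ≠ cop q) : sm q ρ = 0 := by
  obtain ⟨a, ha⟩ := Function.ne_iff.1 h
  have hc : IsCoprime a q := by
    by_contra hc; exact ha (by rw [hρ.zero a hc, cop_of_not hc])
  rw [cop_of hc] at ha
  have h1 := sm_scale hρ.per hc
  simp only [hρ.mul, sm_mul_left] at h1
  have : (ρ a - 1) * sm q (fun x => ρ x) = 0 := by linear_combination h1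
  exact (mul_eq_zero.1 this).resolve_left (sub_ne_zero.2 ha)

lemma ft_nu_prime {p : O} (hp : Prime p) {ρ : O → ℂ} (hρ : IsNu p ρ) (hn : ρ ≠ cop p) (h : O) :
    ft ρ p h = conj (ρ h) * ft ρ p 1 := by
  by_cases H : p ∣ h
  · rw [per_ft ρ p h 0 (by simpa using H), ft_zero, sm_nu hρ hn,
      hρ.zero h fun hc => (hp.coprime_iff_not_dvd.1 hc.symm) H]
    simp
  · simpa using ft_nu hρ (hp.coprime_iff_not_dvd.2 H).symm 1

lemma ft_mul_conj {p : O} (hp : Prime p) {ρ : O → ℂ} (hρ : IsNu p ρ) (hn : ρ ≠ cop p) :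
    ft ρ p 1 * conj (ft ρ p 1) = N p := by
  have h := ft_inv hp.ne_zero hρ.per 1
  rw [hρ.one, mul_one] at h
  rw [← h, conj_ft hp.ne_zero, ft.eq_def _ p (-1), ← sm_mul_left]
  refine sm_congr fun x => ?_
  rw [ft_nu_prime hp hρ hn x, mul_neg, mul_one, one_mul]; ring

lemma norm_ft_prime {p : O} (hp : Prime p) {ρ : O → ℂ} (hρ : IsNu p ρ) (hn : ρ ≠ cop p) :
    ‖ft ρ p 1‖ = ab p := by
  have h := ft_mul_conj hp hρ hn
  rw [Complex.mul_conj, Complex.normSq_eq_norm_sq] at h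
  have h2 : ‖ft ρ p 1‖ ^ 2 = ab p ^ 2 := by rw [ab_sq]; exact_mod_cast h
  exact (pow_left_inj₀ (norm_nonneg _) (ab_nonneg p) two_ne_zero).1 h2

/-- Parseval -/
lemma sm_ft_mul_conj {q : O} (hq : q ≠ 0) {F : O → ℂ} (hF : Per q F) (H : O → ℂ) :
    sm q (fun h => ft F q h * conj (ft H q h)) = N q * sm q fun x => F x * conj (H x) := by
  have e : ∀ h, ft F q h * conj (ft H q h) =
      sm q fun x => conj (H x) * (ft F q h * el (-(x * h)) q) := fun h => by
    rw [conj_ft hq, ft.eq_def _ q (-h), ← sm_mul_left]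
    exact sm_congr fun x => by rw [mul_neg]; ring
  simp only [e]
  rw [sm_comm hq hq, ← sm_mul_left]
  refine sm_congr fun x => ?_
  rw [sm_mul_left, ft_inv hq hF]; ring

theorem pFT : S_FT :=
  ⟨fun _ _ h _ _ ha hb hc hF hH => ft_crt' ha hb hc hF hH h, fun _ x _ hq hF => ft_inv' hq hF x,
    fun _ h _ _ hq hF => norm_ft_le hq hF h, fun _ h _ _ _ hρ hu => ft_nu hρ hu h,
    fun _ h hp => ft_cop hp h,
    fun _ h _ hp hρ hn => ⟨ft_nu_prime hp hρ hn h, norm_ft_prime hp hρ hn⟩⟩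

end Pool.Agent.P.MP_26a8c3_nt.QO
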