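import Pool.Agent.P.MP_26a8c3_nt.QO.Defs

/-! Additive characters, sums over residue systems and the finite Fourier transform on `O`. -/

namespace Pool.Agent.P.MP_26a8c3_nt.QO

open Complex
open scoped ComplexConjugate

noncomputable section

lemma a0_pos : 0 < a0 := div_pos (by positivity) sqrt3_pos
lemma G_pos (y : ℝ) : 0 < G y := Real.exp_pos _
lemma G_zero : G 0 = 1 := by simp [G]
lemma G_add (x y : ℝ) : G (x + y) = G x * G y := by rw [G, G, G, ← Real.exp_add]; congr 1; ring
lemma G_anti : Antitone G := fun _ _ h =>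
  Real.exp_le_exp.2 (neg_le_neg (mul_le_mul_of_nonneg_left h a0_pos.le))
lemma G_le_one {y : ℝ} (h : 0 ≤ y) : G y ≤ 1 := G_zero ▸ G_anti h

/-! ### the additive character -/

lemma el_add (x y q : O) : el (x + y) q = el x q * el y q := by
  rw [el, el, el, ← Complex.exp_add]; congr 1; rw [add_mul]; simp; ring

@[simp] lemma el_zero (q : O) : el 0 q = 1 := by simp [el]

lemma el_ne_zero (x q : O) : el x q ≠ 0 := Complex.exp_ne_zero _

lemma el_eq_real (x q : O) :
    el x q = cexp (((2 * Real.pi * (((x * star q).im : ℝ) / N q) : ℝ) : ℂ) * I) := by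
  rw [el]; congr 1; push_cast; ring

@[simp] lemma norm_el (x q : O) : ‖el x q‖ = 1 := by rw [el_eq_real, norm_exp_ofReal_mul_I]

lemma el_neg (x q : O) : el (-x) q = conj (el x q) := by
  rw [el_eq_real, el_eq_real, ← exp_conj, map_mul, conj_ofReal, conj_I]; congr 1
  rw [neg_mul]; simp; ring

lemma el_mul_conj (x q : O) : el x q * conj (el x q) = 1 := by rw [← el_neg, ← el_add]; simp

lemma el_sub (x y q : O) : el (x - y) q = el x q * conj (el y q) := by
  rw [sub_eq_add_neg, el_add, el_neg]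

lemma el_dvd {x q : O} (h : q ∣ x) : el x q = 1 := by
  obtain ⟨c, rfl⟩ := h
  by_cases hq : q = 0
  · simp [hq]
  have h1 : (q * c * star q).im = c.im * N q := by
    rw [show q * c * star q = c * (q * star q) by ring, mul_star_eq]; simp
  have h2 : ((N q : ℕ) : ℂ) ≠ 0 := by exact_mod_cast (N_pos hq).ne'
  rw [el, h1]; push_cast
  rw [mul_div_assoc, div_self h2, mul_one, mul_comm]
  exact exp_int_mul_two_pi_mul_I _

lemma el_congr {x y q : O} (h : q ∣ x - y) : el x q = el y q := by
  rw [show x = (x - y) + y by ring, el_add, el_dvd h, one_mul]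

@[simp] lemma el_one (x : O) : el x 1 = 1 := el_dvd (one_dvd _)

lemma el_mul_cancel (x q : O) {a : O} (ha : a ≠ 0) : el (x * a) (q * a) = el x q := by
  have h1 : (x * a * star (q * a)).im = (x * star q).im * N a := by
    rw [star_mul, show x * a * (star a * star q) = x * star q * (a * star a) by ring, mul_star_eq]
    simp
  have h2 : ((N a : ℕ) : ℂ) ≠ 0 := by exact_mod_cast (N_pos ha).ne'
  rw [el, el, h1, map_mul]; push_cast
  rw [mul_div_mul_right _ _ h2]

lemma el_frac (x y : O) {m n : O} (hm : m ≠ 0) (hn : n ≠ 0) :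
    el (x * n + y * m) (m * n) = el x m * el y n := by
  rw [el_add, el_mul_cancel _ _ hn, mul_comm m n, el_mul_cancel _ _ hm]

lemma el_sum {ι : Type*} (s : Finset ι) (f : ι → O) (q : O) :
    el (∑ i ∈ s, f i) q = ∏ i ∈ s, el (f i) q := by
  classical
  induction s using Finset.induction_on with
  | empty => simp
  | insert a s h ih => rw [Finset.sum_insert h, Finset.prod_insert h, el_add, ih]

lemma el_nsmul (n : ℕ) (x q : O) : el (n * x) q = el x q ^ n := by
  induction n with
  | zero => simp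
  | succ n ih => push_cast; rw [add_mul, one_mul, el_add, ih, pow_succ]

lemma two_re_div_lam (z : ℂ) : 2 * (z / toC lam).re = 2 * z.im / √3 := by
  have := sqrt3_pos.ne'
  rw [toC_lam, div_re]; simp; field_simp; rw [sq, sqrt3_sq]

/-- the analytic form of `el` -/
lemma el_eq_exp (x q : O) :
    el x q = cexp (2 * Real.pi * I * ((2 * (toC x / (toC lam * toC q)).re : ℝ) : ℂ)) := by
  by_cases hq : q = 0
  · simp [hq, el]
  have h2 : (N q : ℝ) ≠ 0 := (N_pos_real hq).ne'
  have h3 : toC x / (toC lam * toC q) = toC (x * star q) / toC lam / ((N q : ℝ) : ℂ) := by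
    have h4 := toC_ne_zero hq
    have h5 : conj (toC q) ≠ 0 := by simpa using hq
    have h6 := toC_ne_zero lam_ne_zero
    rw [map_mul, toC_star, ofReal_natCast, N_complex]; field_simp
  rw [el, h3, div_ofReal_re, ← mul_div_assoc (2 : ℝ), two_re_div_lam, toC_im]
  congr 2
  have : ((√3 : ℝ) : ℂ) ≠ 0 := by exact_mod_cast sqrt3_pos.ne'
  push_cast; field_simp

lemma el_eq_one_iff {x q : O} (hq : q ≠ 0) : el x q = 1 ↔ (N q : ℤ) ∣ (x * star q).im := by
  have h2 : ((N q : ℕ) : ℂ) ≠ 0 := by exact_mod_cast (N_pos hq).ne'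
  rw [el, Complex.exp_eq_one_iff]
  constructor
  · rintro ⟨n, hn⟩
    refine ⟨n, ?_⟩
    have h3 : (2 * Real.pi * I : ℂ) ≠ 0 := two_pi_I_ne_zero
    rw [mul_comm (n : ℂ)] at hn
    have := mul_left_cancel₀ h3 hn
    rw [div_eq_iff h2] at this
    rw [mul_comm (N q : ℤ)]
    exact_mod_cast this
  · rintro ⟨n, hn⟩
    refine ⟨n, ?_⟩
    rw [hn]; push_cast; field_simp

/-- non-degeneracy -/
lemma dvd_of_el {h q : O} (hq : q ≠ 0) (H : ∀ x, el (x * h) q = 1) : q ∣ h := by
  have h1 := (el_eq_one_iff hq).1 (H 1)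
  have h2 := (el_eq_one_iff hq).1 (H w)
  rw [one_mul] at h1
  rw [mul_assoc] at h2
  generalize hs : h * star q = s at h1 h2
  have h3 : ((N q : ℤ) : O) ∣ s := by
    rw [intCast_dvd_iff]
    refine ⟨?_, h1⟩
    have : s.re = (w * s).im + s.im := by simp
    rw [this]; exact dvd_add h2 h1
  rw [← hs, Int.cast_natCast, ← mul_star_eq] at h3
  exact (mul_dvd_mul_iff_right (by simpa using hq)).1 h3

/-- `el` as an additive character of the residue ring -/
def elc (q : O) : AddChar (Rq q) ℂ where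
  toFun r := el r.out q
  map_zero_eq_one' := el_dvd (mk_eq_zero.1 (Ideal.Quotient.mk_out _))
  map_add_eq_mul' a b := by
    rw [← el_add]
    exact el_congr (mk_eq_iff.1 (by simp [Ideal.Quotient.mk_out]))

lemma mk_out {q : O} (r : Rq q) : mk q r.out = r := Ideal.Quotient.mk_out r

lemma dvd_out_sub (q x : O) : q ∣ (mk q x).out - x := mk_eq_iff.1 (mk_out _)

@[simp] lemma elc_mk (q x : O) : elc q (mk q x) = el x q := el_congr (dvd_out_sub q x)

lemma elc_prim {q : O} (hq : q ≠ 0) : (elc q).IsPrimitive := by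
  intro a ha h
  obtain ⟨a, rfl⟩ := mk_surj q a
  refine ha (mk_eq_zero.2 (dvd_of_el hq fun x => ?_))
  have := DFunLike.congr_fun h (mk q x)
  rwa [AddChar.mulShift_apply, ← map_mul, elc_mk, mul_comm] at this

/-! ### periodic functions -/

lemma Per.add_mul {q : O} {F : O → ℂ} (h : Per q F) (x t : O) : F (x + q * t) = F x :=
  h _ _ ⟨t, by ring⟩

lemma Per.out {q : O} {F : O → ℂ} (h : Per q F) (x : O) : F (mk q x).out = F x :=
  h _ _ (dvd_out_sub q x)

lemma per_const (q : O) (c : ℂ) : Per q fun _ => c := fun _ _ _ => rfl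

lemma Per.mono {q q' : O} {F : O → ℂ} (h : Per q F) (hq : q ∣ q') : Per q' F :=
  fun x y e => h x y (hq.trans e)

lemma Per.mul {q : O} {F H : O → ℂ} (h : Per q F) (h' : Per q H) : Per q fun x => F x * H x :=
  fun x y e => by simp only [h x y e, h' x y e]

lemma Per.add {q : O} {F H : O → ℂ} (h : Per q F) (h' : Per q H) : Per q fun x => F x + H x :=
  fun x y e => by simp only [h x y e, h' x y e]

lemma Per.sub {q : O} {F H : O → ℂ} (h : Per q F) (h' : Per q H) : Per q fun x => F x - H x :=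
  fun x y e => by simp only [h x y e, h' x y e]

lemma Per.comp {q : O} {F : O → ℂ} (h : Per q F) (g : ℂ → ℂ) : Per q fun x => g (F x) :=
  fun x y e => by simp only [h x y e]

lemma Per.conj {q : O} {F : O → ℂ} (h : Per q F) : Per q fun x => conj (F x) := h.comp _

lemma Per.affine {q : O} {F : O → ℂ} (h : Per q F) (u a : O) : Per q fun x => F (u * x + a) :=
  fun x y e => h _ _ (by rw [show u * x + a - (u * y + a) = u * (x - y) by ring]; exact e.mul_left u)

lemma Per.mul_right {q : O} {F : O → ℂ} (h : Per q F) (u : O) : Per q fun x => F (x * u) :=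
  fun x y e => h _ _ (by rw [← sub_mul]; exact e.mul_right u)

lemma Per.mul_left {q : O} {F : O → ℂ} (h : Per q F) (u : O) : Per q fun x => F (u * x) :=
  fun x y e => h _ _ (by rw [← mul_sub]; exact e.mul_left u)

lemma per_el (q h : O) : Per q fun x => el (x * h) q :=
  fun x y e => el_congr (by rw [← sub_mul]; exact e.mul_right h)

lemma per_ite_dvd (q : O) (a b : ℂ) [DecidablePred (q ∣ ·)] :
    Per q fun x => if q ∣ x then a else b := fun x y e => by
  have : q ∣ x ↔ q ∣ y := ⟨fun h => by simpa using dvd_sub h e, fun h => by simpa using dvd_add e h⟩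
  simp only [this]

lemma isCoprime_congr {q x y : O} (e : q ∣ x - y) : IsCoprime x q ↔ IsCoprime y q := by
  rw [← isUnit_mk_iff, ← isUnit_mk_iff, mk_eq_iff.2 e]

/-! ### residue systems -/

/-- a residue system modulo `q` (empty for `q = 0`) -/
def res (q : O) : Finset O :=
  if h : q = 0 then ∅ else
    have := finite_Rq h
    (Set.finite_range fun r : Rq q => r.out).toFinset

lemma mem_res {q x : O} (hq : q ≠ 0) : x ∈ res q ↔ ∃ r : Rq q, r.out = x := by
  simp [res, hq]

lemma out_mem_res {q : O} (hq : q ≠ 0) (r : Rq q) : r.out ∈ res q := (mem_res hq).2 ⟨r, rfl⟩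

lemma res_inj {q a b : O} (hq : q ≠ 0) (ha : a ∈ res q) (hb : b ∈ res q) (h : q ∣ a - b) :
    a = b := by
  obtain ⟨r, rfl⟩ := (mem_res hq).1 ha
  obtain ⟨s, rfl⟩ := (mem_res hq).1 hb
  rw [← mk_eq_iff, mk_out, mk_out] at h
  rw [h]

lemma res_surj {q : O} (hq : q ≠ 0) (x : O) : ∃ a ∈ res q, q ∣ x - a :=
  ⟨_, out_mem_res hq (mk q x), mk_eq_iff.1 (mk_out _).symm⟩

lemma sm_eq_sum (q : O) [Fintype (Rq q)] (F : O → ℂ) : sm q F = ∑ r : Rq q, F r.out :=
  finsum_eq_sum_of_fintype _

lemma sum_res_eq {M : Type*} [AddCommMonoid M] {q : O} (hq : q ≠ 0) [Fintype (Rq q)] (F : O → M) :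
    ∑ x ∈ res q, F x = ∑ r : Rq q, F r.out := by
  refine (Finset.sum_bij (fun r _ => r.out) (fun r _ => out_mem_res hq r)
    (fun a _ b _ h => Quotient.out_injective h) (fun b hb => ?_) fun _ _ => rfl).symm
  obtain ⟨r, rfl⟩ := (mem_res hq).1 hb
  exact ⟨r, Finset.mem_univ _, rfl⟩

lemma sm_eq_res {q : O} (hq : q ≠ 0) (F : O → ℂ) : sm q F = ∑ x ∈ res q, F x := by
  have := finite_Rq hq
  have := Fintype.ofFinite (Rq q)
  rw [sm_eq_sum, sum_res_eq hq]

lemma card_res (q : O) : (res q).card = N q := by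
  by_cases hq : q = 0
  · simp [res, hq]
  have := finite_Rq hq
  have := Fintype.ofFinite (Rq q)
  rw [Finset.card_eq_sum_ones, sum_res_eq hq, ← card_Rq]; simp

/-- a function on the residue ring -/
lemma sm_mk (q : O) [Fintype (Rq q)] (f : Rq q → ℂ) : sm q (fun x => f (mk q x)) = ∑ r, f r := by
  simp only [sm_eq_sum, mk_out]

/-- any parametrisation of the residue classes computes `sm` -/
lemma sm_bij {ι : Type*} {q : O} {F : O → ℂ} (hF : Per q F) (φ : ι → O)
    (hφ : Function.Bijective fun i => mk q (φ i)) : sm q F = ∑ᶠ i, F (φ i) :=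
  (finsum_eq_of_bijective _ hφ fun i => (hF.out (φ i)).symm).symm

/-- any complete residue system computes `sm` -/
lemma sm_eq_of_reps {q : O} {F : O → ℂ} (hF : Per q F) (S : Finset O)
    (h1 : ∀ a ∈ S, ∀ b ∈ S, q ∣ a - b → a = b) (h2 : ∀ x, ∃ a ∈ S, q ∣ x - a) :
    sm q F = ∑ x ∈ S, F x := by
  rw [sm_bij hF (fun i : S => (i : O)), finsum_eq_sum_of_fintype, Finset.sum_coe_sort]
  refine ⟨fun a b h => Subtype.ext (h1 _ a.2 _ b.2 (mk_eq_iff.1 h)), fun r => ?_⟩
  obtain ⟨x, rfl⟩ := mk_surj q r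
  obtain ⟨a, ha, h⟩ := h2 x
  exact ⟨⟨a, ha⟩, (mk_eq_iff.2 h).symm⟩

lemma sm_congr {q : O} {F H : O → ℂ} (h : ∀ x, F x = H x) : sm q F = sm q H := by
  rw [funext h]

@[simp] lemma sm_zero (q : O) : sm q (fun _ => 0) = 0 := by simp [sm]

lemma sm_const {q : O} (hq : q ≠ 0) (c : ℂ) : sm q (fun _ => c) = N q * c := by
  rw [sm_eq_res hq, Finset.sum_const, card_res, nsmul_eq_mul]

lemma sm_add {q : O} (hq : q ≠ 0) (F H : O → ℂ) :
    sm q (fun x => F x + H x) = sm q F + sm q H := by
  simp only [sm_eq_res hq, Finset.sum_add_distrib]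

lemma sm_sub {q : O} (hq : q ≠ 0) (F H : O → ℂ) :
    sm q (fun x => F x - H x) = sm q F - sm q H := by
  simp only [sm_eq_res hq, Finset.sum_sub_distrib]

lemma sm_mul_left (q : O) (c : ℂ) (F : O → ℂ) : sm q (fun x => c * F x) = c * sm q F := by
  rw [sm, sm, mul_finsum]

lemma sm_mul_right (q : O) (c : ℂ) (F : O → ℂ) : sm q (fun x => F x * c) = sm q F * c := by
  rw [sm, sm, finsum_mul]

lemma sm_neg (q : O) (F : O → ℂ) : sm q (fun x => -F x) = -sm q F := by
  simpa using sm_mul_left q (-1) F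

lemma sm_sum {ι : Type*} {q : O} (hq : q ≠ 0) (s : Finset ι) (F : ι → O → ℂ) :
    sm q (fun x => ∑ i ∈ s, F i x) = ∑ i ∈ s, sm q (F i) := by
  simp only [sm_eq_res hq]; exact Finset.sum_comm

lemma sm_comm {m n : O} (hm : m ≠ 0) (hn : n ≠ 0) (F : O → O → ℂ) :
    sm m (fun a => sm n fun b => F a b) = sm n fun b => sm m fun a => F a b := by
  simp only [sm_eq_res hm, sm_eq_res hn]; exact Finset.sum_comm

lemma sm_mul_sm {m n : O} (F H : O → ℂ) :
    sm m F * sm n H = sm m fun a => sm n fun b => F a * H b := by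
  simp only [sm_mul_left, sm_mul_right]

lemma conj_sm {q : O} (hq : q ≠ 0) (F : O → ℂ) : conj (sm q F) = sm q fun x => conj (F x) := by
  simp only [sm_eq_res hq, map_sum]

lemma norm_sm_le {q : O} (hq : q ≠ 0) {F : O → ℂ} {B : ℝ} (h : ∀ x, ‖F x‖ ≤ B) :
    ‖sm q F‖ ≤ N q * B := by
  rw [sm_eq_res hq]
  refine (norm_sum_le _ _).trans ((Finset.sum_le_card_nsmul _ _ B fun x _ => h x).trans ?_)
  rw [card_res, nsmul_eq_mul]

lemma sm_unit {q : O} (hq : IsUnit q) {F : O → ℂ} (hF : Per q F) : sm q F = F 0 := by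
  rw [sm_eq_of_reps hF {0} (by simp) fun x => ⟨0, by simp, hq.dvd⟩, Finset.sum_singleton]

lemma sm_assoc {q q' : O} (h : Associated q q') {F : O → ℂ} (hF : Per q F) : sm q F = sm q' F := by
  by_cases hq : q' = 0
  · subst hq; rw [(associated_zero_iff_eq_zero q).1 h]
  rw [sm_eq_res hq]
  refine sm_eq_of_reps hF _ (fun a ha b hb e => res_inj hq ha hb (h.symm.dvd.trans e)) fun x => ?_
  obtain ⟨a, ha, e⟩ := res_surj hq x
  exact ⟨a, ha, h.dvd.trans e⟩

lemma sm_single {q : O} (hq : q ≠ 0) {F : O → ℂ} (hF : Per q F) (a : O)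
    (h : ∀ x, ¬q ∣ x - a → F x = 0) : sm q F = F a := by
  obtain ⟨b, hb, e⟩ := res_surj hq a
  rw [sm_eq_res hq, Finset.sum_eq_single_of_mem b hb, hF _ _ e]
  intro c hc hcb
  refine h c fun e' => hcb (res_inj hq hc hb ?_)
  simpa using dvd_add e' e

lemma sm_affine {q : O} {F : O → ℂ} (hF : Per q F) {u : O} (hu : IsCoprime u q) (a : O) :
    sm q (fun x => F (u * x + a)) = sm q F := by
  rw [sm_bij hF (fun r : Rq q => u * r.out + a), sm]
  simp only [map_add, map_mul, mk_out]
  exact (AddGroup.addRight_bijective (mk q a)).comp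
    (isUnit_mk_iff.2 hu).unit.mulLeft_bijective

lemma sm_shift {q : O} {F : O → ℂ} (hF : Per q F) (a : O) : sm q (fun x => F (x + a)) = sm q F := by
  simpa using sm_affine hF isCoprime_one_left a

lemma sm_scale {q : O} {F : O → ℂ} (hF : Per q F) {u : O} (hu : IsCoprime u q) :
    sm q (fun x => F (u * x)) = sm q F := by
  simpa using sm_affine hF hu 0

lemma sm_scale' {q : O} {F : O → ℂ} (hF : Per q F) {u : O} (hu : IsCoprime u q) :
    sm q (fun x => F (x * u)) = sm q F := by
  simpa [mul_comm] using sm_scale hF hu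

lemma sm_pair {m n : O} (hm : m ≠ 0) (hn : n ≠ 0) {F : O → ℂ} (hF : Per (m * n) F) (φ : O → O → O)
    (hφ : ∀ a b a' b', m * n ∣ φ a b - φ a' b' → m ∣ a - a' ∧ (a = a' → n ∣ b - b')) :
    sm (m * n) F = sm m fun a => sm n fun b => F (φ a b) := by
  have := finite_Rq hm
  have := finite_Rq hn
  have := finite_Rq (mul_ne_zero hm hn)
  have := Fintype.ofFinite (Rq m)
  have := Fintype.ofFinite (Rq n)
  rw [sm_bij hF (fun x : Rq m × Rq n => φ x.1.out x.2.out), finsum_eq_sum_of_fintype,
    Fintype.sum_prod_type]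
  · simp only [sm_eq_sum]
  rw [Nat.bijective_iff_injective_and_card]
  refine ⟨fun x y h => ?_, by rw [Nat.card_prod, card_Rq, card_Rq, card_Rq, map_mul]⟩
  obtain ⟨h1, h2⟩ := hφ _ _ _ _ (mk_eq_iff.1 h)
  rw [← mk_eq_iff, mk_out, mk_out] at h1
  have h3 := h2 (by rw [h1])
  rw [← mk_eq_iff, mk_out, mk_out] at h3
  exact Prod.ext h1 h3

/-- residues modulo `m * n` as `a + m * b` -/
lemma sm_tower {m n : O} (hm : m ≠ 0) (hn : n ≠ 0) {F : O → ℂ} (hF : Per (m * n) F) :
    sm (m * n) F = sm m fun a => sm n fun b => F (a + m * b) := by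
  refine sm_pair hm hn hF (fun a b => a + m * b) fun a b a' b' h => ⟨?_, ?_⟩
  · have h1 : m ∣ a + m * b - (a' + m * b') := (dvd_mul_right m n).trans h
    have : a - a' = a + m * b - (a' + m * b') - m * (b - b') := by ring
    rw [this]; exact dvd_sub h1 (dvd_mul_right _ _)
  · rintro rfl
    rw [show a + m * b - (a + m * b') = m * (b - b') by ring] at h
    exact (mul_dvd_mul_iff_left hm).1 h

/-- Chinese remainder theorem: residues modulo `m * n` as `a * n + b * m` -/
lemma sm_crt {m n : O} (hm : m ≠ 0) (hn : n ≠ 0) (hc : IsCoprime m n) {F : O → ℂ}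
    (hF : Per (m * n) F) : sm (m * n) F = sm m fun a => sm n fun b => F (a * n + b * m) := by
  refine sm_pair hm hn hF (fun a b => a * n + b * m) fun a b a' b' h => ⟨?_, ?_⟩
  · have h1 : m ∣ a * n + b * m - (a' * n + b' * m) := (dvd_mul_right m n).trans h
    have : (a - a') * n = a * n + b * m - (a' * n + b' * m) - m * (b - b') := by ring
    exact hc.dvd_of_dvd_mul_right (by rw [this]; exact dvd_sub h1 (dvd_mul_right _ _))
  · rintro rfl
    rw [show a * n + b * m - (a * n + b' * m) = m * (b - b') by ring] at h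
    exact (mul_dvd_mul_iff_left hm).1 h

lemma sm_lift {m n : O} (hm : m ≠ 0) (hn : n ≠ 0) {F : O → ℂ} (hF : Per m F) :
    sm (m * n) F = N n * sm m F := by
  rw [sm_tower hm hn (hF.mono (dvd_mul_right m n)), ← sm_mul_left]
  exact sm_congr fun a => by simp only [hF.add_mul, sm_const hn]

lemma sm_crt_mul {m n : O} (hm : m ≠ 0) (hn : n ≠ 0) (hc : IsCoprime m n) {F H : O → ℂ}
    (hF : Per m F) (hH : Per n H) : sm (m * n) (fun x => F x * H x) = sm m F * sm n H := by
  rw [sm_crt hm hn hc ((hF.mono (dvd_mul_right m n)).mul (hH.mono (dvd_mul_left n m))),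
    ← sm_scale' hF hc.symm, ← sm_scale' hH hc, sm_mul_sm]
  refine sm_congr fun a => sm_congr fun b => ?_
  rw [hF (a * n + b * m) (a * n) ⟨b, by ring⟩, hH (a * n + b * m) (b * m) ⟨a, by ring⟩]

/-- sum over the multiples of `m` modulo `m * n` -/
lemma sm_dvd {m n : O} (hm : m ≠ 0) (hn : n ≠ 0) {F : O → ℂ} (hF : Per (m * n) F)
    [DecidablePred (m ∣ ·)] :
    sm (m * n) (fun x => if m ∣ x then F x else 0) = sm n fun b => F (m * b) := by
  have hP : Per (m * n) fun x => if m ∣ x then F x else 0 := by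
    have := ((per_ite_dvd m 1 0).mono (dvd_mul_right m n)).mul hF
    simpa using this
  have key : ∀ a a', m ∣ a - a' → (sm n fun b => if m ∣ a + m * b then F (a + m * b) else 0) =
      sm n fun b => if m ∣ a' + m * b then F (a' + m * b) else 0 := by
    rintro a a' ⟨c, hc⟩
    have hQ : Per n fun b => if m ∣ a' + m * b then F (a' + m * b) else 0 := fun x y e =>
      hP _ _ (by rw [show a' + m * x - (a' + m * y) = m * (x - y) by ring]
                 exact mul_dvd_mul_left m e)
    rw [← sm_shift hQ c]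
    refine sm_congr fun b => ?_
    rw [show a + m * b = a' + m * (b + c) by linear_combination hc]
  rw [sm_tower hm hn hP, sm_single hm key 0]
  · simp
  · intro x hx
    rw [sub_zero] at hx
    have : ∀ b, ¬m ∣ x + m * b := fun b h => hx (by simpa using dvd_sub h (dvd_mul_right m b))
    simp [this]

open Classical in
/-- orthogonality -/
lemma sm_el {q : O} (hq : q ≠ 0) (h : O) :
    sm q (fun x => el (x * h) q) = if q ∣ h then (N q : ℂ) else 0 := by
  split_ifs with H
  · rw [sm_congr (H := fun _ => 1) fun x => el_dvd (H.mul_left x), sm_const hq, mul_one]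
  · obtain ⟨a, ha⟩ : ∃ a, el (a * h) q ≠ 1 := by
      by_contra hc; push Not at hc; exact H (dvd_of_el hq hc)
    have h1 := sm_shift (per_el q h) a
    simp only [add_mul, el_add, sm_mul_right] at h1
    have : sm q (fun x => el (x * h) q) * (el (a * h) q - 1) = 0 := by linear_combination h1
    exact (mul_eq_zero.1 this).resolve_right (sub_ne_zero.2 ha)

/-! ### the finite Fourier transform -/

lemma per_ft (F : O → ℂ) (q : O) : Per q (ft F q) := fun x y e =>
  sm_congr fun a => by rw [el_congr (x := a * x) (y := a * y) (by rw [← mul_sub]; exact e.mul_left a)]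

lemma ft_zero (F : O → ℂ) (q : O) : ft F q 0 = sm q F := by simp [ft]

lemma norm_ft_le {q : O} (hq : q ≠ 0) {F : O → ℂ} {B : ℝ} (h : ∀ x, ‖F x‖ ≤ B) (k : O) :
    ‖ft F q k‖ ≤ N q * B := norm_sm_le hq fun x => by simpa using h x

lemma ft_mul_left (c : ℂ) (F : O → ℂ) (q h : O) : ft (fun x => c * F x) q h = c * ft F q h := by
  simp only [ft, mul_assoc, sm_mul_left]

lemma ft_add {q : O} (hq : q ≠ 0) (F H : O → ℂ) (h : O) :
    ft (fun x => F x + H x) q h = ft F q h + ft H q h := by
  simp only [ft, add_mul, sm_add hq]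

lemma ft_sub {q : O} (hq : q ≠ 0) (F H : O → ℂ) (h : O) :
    ft (fun x => F x - H x) q h = ft F q h - ft H q h := by
  simp only [ft, sub_mul, sm_sub hq]

lemma conj_ft {q : O} (hq : q ≠ 0) (F : O → ℂ) (h : O) :
    conj (ft F q h) = ft (fun x => conj (F x)) q (-h) := by
  simp only [ft, conj_sm hq, map_mul, mul_neg, el_neg]

/-- change of variable by a unit modulo `q` -/
lemma ft_scale {q : O} {F : O → ℂ} (hF : Per q F) {u : O} (hu : IsCoprime u q) (h : O) :
    ft (fun x => F (x * u)) q (h * u) = ft F q h := by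
  rw [ft, ft, ← sm_scale' (hF.mul (per_el q h)) hu]
  exact sm_congr fun x => by rw [show x * (h * u) = x * u * h by ring]

/-- change of the generator of the modulus -/
lemma ft_unit {q : O} {F : O → ℂ} (hF : Per q F) {u : O} (hu : IsUnit u) (h : O) :
    ft F (q * u) (h * u) = ft F q h := by
  rw [ft, ft, sm_assoc (associated_mul_unit_right q u hu) (hF.mul (per_el q h))]
  exact sm_congr fun x => by rw [← mul_assoc, el_mul_cancel _ _ hu.ne_zero]

lemma ft_crt {m n : O} (hm : m ≠ 0) (hn : n ≠ 0) (hc : IsCoprime m n) {F H : O → ℂ}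
    (hF : Per m F) (hH : Per n H) (h : O) : ft (fun x => F x * H x) (m * n) h =
      ft (fun a => F (a * n)) m h * ft (fun b => H (b * m)) n h := by
  rw [ft, sm_crt hm hn hc (((hF.mono (dvd_mul_right m n)).mul (hH.mono (dvd_mul_left n m))).mul
    (per_el _ h)), ft, ft, sm_mul_sm]
  refine sm_congr fun a => sm_congr fun b => ?_
  rw [hF (a * n + b * m) (a * n) ⟨b, by ring⟩, hH (a * n + b * m) (b * m) ⟨a, by ring⟩,
    show (a * n + b * m) * h = a * h * n + b * h * m by ring, el_frac _ _ hm hn]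
  ring

open Classical in
/-- transform of a function of smaller period -/
lemma ft_lift {m n : O} (hm : m ≠ 0) (hn : n ≠ 0) {F : O → ℂ} (hF : Per m F) (h : O) :
    ft F (m * n) h = if H : n ∣ h then N n * ft F m H.choose else 0 := by
  rw [ft, sm_tower hm hn ((hF.mono (dvd_mul_right m n)).mul (per_el _ h))]
  have e : ∀ a b, F (a + m * b) * el ((a + m * b) * h) (m * n) =
      F a * el (a * h) (m * n) * el (b * h) n := fun a b => by
    rw [hF.add_mul, add_mul, el_add, show m * b * h = b * h * m by ring, mul_comm m n,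
      el_mul_cancel _ _ hm, mul_assoc]
  simp only [e, sm_mul_left, sm_el hn, sm_mul_right]
  split_ifs with H
  · rw [mul_comm, ft]
    congr 1
    refine sm_congr fun a => ?_
    conv_lhs => rw [H.choose_spec]
    rw [show a * (n * H.choose) = a * H.choose * n by ring, el_mul_cancel _ _ hn]
  · simp

lemma ft_lift_mul {m n : O} (hm : m ≠ 0) (hn : n ≠ 0) {F : O → ℂ} (hF : Per m F) (h : O) :
    ft F (m * n) (h * n) = N n * ft F m h := by
  have H : n ∣ h * n := dvd_mul_left n h
  rw [ft_lift hm hn hF, dif_pos H]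
  rw [← mul_left_cancel₀ hn ((mul_comm n h).trans H.choose_spec)]

lemma ft_lift_not {m n : O} (hm : m ≠ 0) (hn : n ≠ 0) {F : O → ℂ} (hF : Per m F) {h : O}
    (H : ¬n ∣ h) : ft F (m * n) h = 0 := by
  rw [ft_lift hm hn hF, dif_neg H]

/-- Fourier inversion -/
lemma ft_inv {q : O} (hq : q ≠ 0) {F : O → ℂ} (hF : Per q F) (x : O) :
    sm q (fun h => ft F q h * el (-(x * h)) q) = N q * F x := by
  classical
  simp only [ft, ← sm_mul_right]
  rw [sm_comm hq hq]
  have e : ∀ a h, F a * el (a * h) q * el (-(x * h)) q = F a * el (h * (a - x)) q := fun a h => by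
    rw [mul_assoc, ← el_add]; congr 2; ring
  simp only [e, sm_mul_left, sm_el hq]
  rw [sm_single hq (hF.mul fun a b e => ?_) x]
  · simp [mul_comm]
  · intro y hy; simp [hy]
  · have : q ∣ a - x ↔ q ∣ b - x :=
      ⟨fun h => by simpa using dvd_sub h e, fun h => by simpa using dvd_add e h⟩
    simp only [this]

/-! ### splitting sums over `O` into residue classes -/

/-- `O` as pairs (residue class, quotient) -/
def clsEquiv {q : O} (hq : q ≠ 0) : Rq q × O ≃ O :=
  Equiv.ofBijective (fun x => x.1.out + q * x.2) ⟨fun x y h => by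
    have h1 : x.1 = y.1 := by
      have := congrArg (mk q) h
      simpa [mk_out, mk_eq_zero.2 (dvd_refl q)] using this
    have h2 : x.1.out + q * x.2 = y.1.out + q * y.2 := h
    rw [h1] at h2
    exact Prod.ext h1 (mul_left_cancel₀ hq (add_left_cancel h2)), fun x => by
    obtain ⟨c, hc⟩ := dvd_out_sub q x
    exact ⟨(mk q x, -c), by simp only; linear_combination hc⟩⟩

lemma tsum_eq_sm {q : O} (hq : q ≠ 0) {f : O → ℂ} (hf : Summable f) :
    ∑' m, f m = sm q fun a => ∑' t, f (a + q * t) := by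
  have := finite_Rq hq
  have := Fintype.ofFinite (Rq q)
  rw [← (clsEquiv hq).tsum_eq, sm_eq_sum]
  exact ((clsEquiv hq).summable_iff.2 hf).tsum_prod.trans (tsum_fintype _)

lemma add_mul_injective (a : O) {q : O} (hq : q ≠ 0) : Function.Injective fun t => a + q * t :=
  fun _ _ h => mul_left_cancel₀ hq (add_left_cancel h)

/-- a sum over one residue class -/
lemma tsum_ite_dvd {M : Type*} [AddCommMonoid M] [TopologicalSpace M] {q : O} (hq : q ≠ 0) (a : O)
    (f : O → M) [∀ x, Decidable (q ∣ x - a)] :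
    ∑' m, (if q ∣ m - a then f m else 0) = ∑' t, f (a + q * t) := by
  rw [← (add_mul_injective a hq).tsum_eq (f := fun m => if q ∣ m - a then f m else 0)]
  · simp
  · intro m hm
    by_contra hc
    refine hm (if_neg ?_)
    rintro ⟨c, e⟩
    exact hc ⟨c, by simp only; linear_combination -e⟩

end

end Pool.Agent.P.MP_26a8c3_nt.QO
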