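import Pool.Agent.P.MP_26a8c3_nt.QO.Sym
import Pool.Agent.P.MP_26a8c3_nt.QO.Res

/-! The Poisson identities for the sextic and the quadratic family. -/

namespace Pool.Agent.P.MP_26a8c3_nt.QO

open scoped Classical ComplexConjugate

namespace P2

variable {a b g n p : O}

/-- splitting off the common factor -/
lemma exists_dec (ha : SQ a) (b : O) :
    ∃ g a' b', a = g * a' ∧ b = g * b' ∧ Primary g ∧ IsCoprime a' b' := by
  obtain ⟨a', b', h1, h2, h3⟩ := extract_gcd a b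
  refine ⟨gcd a b, a', b', h1, h2, ?_, (gcd_isUnit_iff a' b').1 h3⟩
  rw [← normalize_gcd]
  exact primary_normalize fun h => ha.1.not_lam_dvd (h.trans (gcd_dvd_left a b))

lemma per_kP (p : O) : Per (p ^ 2) (kP p) := fun x y e => by
  have e' : p ∣ x - y := (dvd_pow_self p two_ne_zero).trans e
  simp only [kP, dvd_congr e, dvd_congr e']

lemma per_kk (g : O) : Per (g ^ 2) (kk g) := fun x y e =>
  ext_congr fun p _ _ h => per_kP p x y ((pow_dvd_pow_of_dvd h 2).trans e)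

lemma kP_mul (h : IsCoprime p n) (x : O) : kP p (x * n) = kP p x := by
  have e1 : p ∣ x * n ↔ p ∣ x := ⟨h.dvd_of_dvd_mul_right, fun e => e.mul_right n⟩
  have e2 : p ^ 2 ∣ x * n ↔ p ^ 2 ∣ x :=
    ⟨(h.pow_left (m := 2)).dvd_of_dvd_mul_right, fun e => e.mul_right n⟩
  simp only [kP, e1, e2]

lemma kk_mul (h : IsCoprime g n) (x : O) : kk g (x * n) = kk g x :=
  ext_congr fun _ _ _ e => kP_mul (h.of_isCoprime_of_dvd_left e) x

lemma cop_mul_left (a b h : O) : cop (a * b) h = cop a h * cop b h := by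
  simp only [cop, IsCoprime.mul_right_iff]
  by_cases h1 : IsCoprime h a <;> by_cases h2 : IsCoprime h b <;> simp [h1, h2]

lemma ft_kP (hp : Prime p) (h : O) : ft (kP p) (p ^ 2) h = N p * cop p h := by
  have h0 := hp.ne_zero
  have h2 : p ^ 2 ≠ 0 := pow_ne_zero 2 h0
  have e1 : ft (fun x => if p ^ 2 ∣ x then (N p : ℂ) else 0) (p ^ 2) h = N p := by
    rw [ft, sm_single h2 ((per_ite_dvd (p ^ 2) _ _).mul (per_el _ h)) 0]
    · simp
    · intro x hx
      rw [sub_zero] at hx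
      rw [if_neg hx, zero_mul]
  have e2 : ft (fun x => if p ∣ x then (1 : ℂ) else 0) (p ^ 2) h =
      if p ∣ h then (N p : ℂ) else 0 := by
    rw [ft, sq, ← sm_el h0 h]
    simp only [ite_mul, one_mul, zero_mul]
    rw [sm_dvd h0 h0 (per_el (p * p) h)]
    exact sm_congr fun x => by
      rw [show p * x * h = x * h * p by ring, el_mul_cancel _ _ h0]
  have e3 : kP p = fun x => (if p ^ 2 ∣ x then (N p : ℂ) else 0) - if p ∣ x then 1 else 0 := rfl
  rw [e3, ft_sub h2, e1, e2, cop_prime hp]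
  split_ifs <;> simp

lemma ft_kk (hg : SQ g) (h : O) : ft (kk g) (g ^ 2) h = N g * cop g h := by
  refine primary_ind (P := fun g => Squarefree g → ft (kk g) (g ^ 2) h = N g * cop g h)
    (fun _ => ?_) (fun p a hp h1 h2 ih hs => ?_) hg.1 hg.2
  · have e : kk 1 = fun _ => 1 := funext fun x => ext_one _
    rw [e, ft, one_pow, sm_unit isUnit_one ((per_const 1 1).mul (per_el 1 h))]
    simp [cop_of isCoprime_one_right]
  · have hc : IsCoprime p a := SQ.coprime ⟨h1.mul h2, hs⟩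
    have e : kk (p * a) = fun x => kP p x * kk a x := funext fun x => by
      rw [kk, ext_mul _ hp.ne_zero h2.ne_zero, ext_prime _ hp h1]; rfl
    rw [e, mul_pow, ft_crt (pow_ne_zero 2 hp.ne_zero) (pow_ne_zero 2 h2.ne_zero) hc.pow
      (per_kP p) (per_kk a)]
    simp only [kP_mul (hc.pow_right (n := 2)), kk_mul (hc.symm.pow_right (n := 2))]
    rw [ft_kP hp, ih hs.of_mul_right, cop_mul_left, map_mul]
    push_cast; ring

/-- Poisson summation for a local kernel times a multiplicative periodic function -/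
lemma poi_kk (hP : S_Poi) (hg : SQ g) (hn : n ≠ 0) (hc : IsCoprime g n) {ρ : O → ℂ}
    (h1 : Per n ρ) (h2 : ∀ x y, ρ (x * y) = ρ x * ρ y) {P : ℝ} (h0 : 0 < P) :
    ∑' m : O, kk g m * ρ m * (G (N m / P) : ℝ) =
      ∑' h : O, (P / (N g * N n) : ℝ) * ρ (g ^ 2) * (cop g h * ft ρ n h) *
        (G (P * N h / ((N g : ℝ) ^ 2 * N n)) : ℝ) := by
  have g2 : g ^ 2 ≠ 0 := pow_ne_zero 2 hg.ne_zero
  have := hP (g ^ 2 * n) (fun m => kk g m * ρ m) P (mul_ne_zero g2 hn)
    (((per_kk g).mono (dvd_mul_right _ _)).mul (h1.mono (dvd_mul_left _ _))) h0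
  rw [this, ← tsum_mul_left]
  refine tsum_congr fun h => ?_
  rw [ft_crt g2 hn hc.pow_left (per_kk g) h1]
  simp only [kk_mul hc, h2 _ (g ^ 2), mul_comm _ (ρ (g ^ 2)), ft_mul_left]
  rw [ft_kk hg, map_mul, map_pow]
  have e1 : ((N g : ℕ) : ℂ) ≠ 0 := by exact_mod_cast (N_pos hg.ne_zero).ne'
  have e2 : ((N n : ℕ) : ℂ) ≠ 0 := by exact_mod_cast (N_pos hn).ne'
  push_cast
  field_simp

/-- the kernels as a local kernel times symbols -/
lemma ext_split {a' b' : O} (ha : SQ (g * a')) (hb : SQ (g * b')) (hc : IsCoprime a' b')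
    (k u v : O → ℂ) :
    ext (fun p => if p ∣ g * b' then k p else u p) (g * a') *
      ext (fun p => if p ∣ g * a' then 1 else v p) (g * b') = ext k g * (ext u a' * ext v b') := by
  have g0 : g ≠ 0 := left_ne_zero_of_mul ha.ne_zero
  have a0 : a' ≠ 0 := right_ne_zero_of_mul ha.ne_zero
  have b0 : b' ≠ 0 := right_ne_zero_of_mul hb.ne_zero
  have c1 : IsCoprime a' (g * b') := ha.coprime.symm.mul_right hc
  have c2 : IsCoprime b' (g * a') := hb.coprime.symm.mul_right hc.symm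
  rw [ext_mul _ g0 a0, ext_mul _ g0 b0,
    ext_congr (n := g) (g := k) fun p _ _ e => if_pos (e.mul_right _),
    ext_congr (n := a') (g := u) fun p hp _ e => if_neg fun e' =>
      hp.not_isUnit (c1.isUnit_of_dvd' e e'),
    ext_congr (n := g) (g := fun _ => 1) fun p _ _ e => if_pos (e.mul_right _),
    ext_congr (n := b') (g := v) fun p hp _ e => if_neg fun e' =>
      hp.not_isUnit (c2.isUnit_of_dvd' e e'), ext_const_one]
  ring

lemma KK_eq {a' b' : O} (ha : SQ (g * a')) (hb : SQ (g * b')) (hc : IsCoprime a' b') (m : O) :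
    KK (g * a') (g * b') m = kk g m * (psi a' m * conj (psi b' m)) := by
  rw [KK, ext_split ha hb hc, psi_ext a', psi_ext b', conj_ext]; rfl

lemma KE_eq {a' b' : O} (ha : SQ (g * a')) (hb : SQ (g * b')) (hc : IsCoprime a' b') (m : O) :
    KE (g * a') (g * b') m = kk g m * eta (a' * b') m := by
  rw [KE, ext_split ha hb hc, eta_mul_left (right_ne_zero_of_mul ha.ne_zero)
    (right_ne_zero_of_mul hb.ne_zero), eta_ext a', eta_ext b']; rfl

lemma scale_eq (g a' b' : O) (y : ℝ) :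
    y / ((N (g * a') : ℝ) * N (g * b')) = y / ((N g : ℝ) ^ 2 * N (a' * b')) := by
  simp only [map_mul]; push_cast; ring

lemma coef_eq {a' b' : O} (hg : g ≠ 0) (ha : a' ≠ 0) (hb : b' ≠ 0) (P : ℝ) :
    ((P / (ab (g * a') * ab (g * b')) : ℝ) : ℂ) =
      (P / (N g * N (a' * b')) : ℝ) * (ab a' * ab b') := by
  have e1 := ab_neC hg
  have e2 := ab_neC ha
  have e3 := ab_neC hb
  simp only [ab_mul, map_mul]
  push_cast
  rw [← ab_sqC, ← ab_sqC, ← ab_sqC]
  field_simp

lemma bb_mul (h4 : S_R4) (ha : Primary a) (hb : Primary b) (hc : IsCoprime a b) :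
    bb (a * b) = chi a b * bb a * bb b := by
  simp only [bb, h4.2.2.1 a b ha hb hc, chi_mul_left ha.ne_zero hb.ne_zero, ang_mul, map_mul]
  ring

lemma norm_bb (h4 : S_R4) (ha : SQO a) : ‖bb a‖ = 1 := by
  rw [bb, norm_mul, norm_mul, Complex.norm_conj, norm_chi ha.1.ne_zero ha.2.symm,
    norm_ang ha.1.ne_zero, h4.2.1 a ha.1]
  simp

lemma bb_mul_conj (h4 : S_R4) (ha : SQO a) : bb a * conj (bb a) = 1 := by
  rw [Complex.mul_conj, Complex.normSq_eq_norm_sq, norm_bb h4 ha]; simp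

end P2

open P2

theorem pP2 (hP : S_Poi) (h1 : S_R1) (h4 : S_R4) (hG : S_Gam) : S_P2 := by
  intro a b P ha hb h0
  obtain ⟨g, a', b', rfl, rfl, hg, hc⟩ := exists_dec ha.1 b
  have sg : SQO g := ⟨ha.1.left hg, (od_mul.1 ha.2).1⟩
  have sa : SQO a' := ⟨ha.1.right hg, (od_mul.1 ha.2).2⟩
  have sb : SQO b' := ⟨hb.1.right hg, (od_mul.1 hb.2).2⟩
  have ca := ha.1.coprime
  have cb := hb.1.coprime
  have g0 := hg.ne_zero
  have a0 := sa.1.ne_zero
  have b0 := sb.1.ne_zero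
  simp only [KK_eq ha.1 hb.1 hc]
  rw [poi_kk hP sg.1 (mul_ne_zero a0 b0) (ca.mul_right cb)
    (ρ := fun m => psi a' m * conj (psi b' m))
    (fun x y e => by
      simp only [psi_congr ((dvd_mul_right a' b').trans e),
        psi_congr ((dvd_mul_left b' a').trans e)])
    (fun x y => by simp only [psi_mul, map_mul]; ring) h0, ← tsum_mul_left, ← tsum_mul_left]
  refine tsum_congr fun h => ?_
  have e1 := h4.2.2.2 a' b' h sa sb hc
  have e2 : gam (g * a' * (g * b')) = gam (a' * b') := by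
    rw [show g * a' * (g * b') = a' * b' * g ^ 2 by ring]; exact hG.2.2.2.1 _ _ sg.2
  have e3 := bb_mul_conj h4 sg
  have e4 := mu_sq sg.1.2
  have e5 := psi_mul_conj g0 h
  rw [scale_eq, coef_eq g0 a0 b0, e2, bb_mul h4 hg sa.1.1 ca, bb_mul h4 hg sb.1.1 cb, mu_mul ca,
    mu_mul cb, psi_mul_left g0 a0, psi_mul_left g0 b0, psi_pow, psi_pow, psi_sq a0, psi_sq b0,
    h1 a' g sa.1.1 hg, h1 b' g sb.1.1 hg, ← e5]
  generalize ((P / (N g * N (a' * b')) : ℝ) : ℂ) = c
  generalize ((G (P * N h / ((N g : ℝ) ^ 2 * N (a' * b'))) : ℝ) : ℂ) = γ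
  generalize ft (fun x => psi a' x * conj (psi b' x)) (a' * b') h = F at e1 ⊢
  simp only [map_mul]
  linear_combination
    (c * (chi g a' * conj (chi g b')) * (psi g h * conj (psi g h)) * γ) *
      (e1 + mu a' * mu b' * F * e4 -
        ab a' * ab b' * gam (a' * b') * bb a' * conj (bb b') * (conj (psi a' h) * psi b' h) * e3)

theorem pPE (hP : S_Poi) (hQ : S_QR) (hG : S_Gam) : S_PE := by
  intro a b P ha hb h0
  obtain ⟨g, a', b', rfl, rfl, hg, hc⟩ := exists_dec ha.1 b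
  have sg : SQO g := ⟨ha.1.left hg, (od_mul.1 ha.2).1⟩
  have sa : SQO a' := ⟨ha.1.right hg, (od_mul.1 ha.2).2⟩
  have sb : SQO b' := ⟨hb.1.right hg, (od_mul.1 hb.2).2⟩
  have cn : IsCoprime g (a' * b') := ha.1.coprime.mul_right hb.1.coprime
  have g0 := hg.ne_zero
  have a0 := sa.1.ne_zero
  have b0 := sb.1.ne_zero
  have n0 := mul_ne_zero a0 b0
  simp only [KE_eq ha.1 hb.1 hc]
  rw [poi_kk hP sg.1 n0 cn (ρ := eta (a' * b')) (fun x y e => eta_congr e) (eta_mul _) h0,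
    ← tsum_mul_left]
  refine tsum_congr fun h => ?_
  have e2 : gam (g * a' * (g * b')) = gam (a' * b') := by
    rw [show g * a' * (g * b') = a' * b' * g ^ 2 by ring]; exact hG.2.2.2.1 _ _ sg.2
  rw [scale_eq, coef_eq g0 a0 b0, e2,
    hQ.1 _ h (sa.1.mul sb.1 hc).2 (od_mul.2 ⟨sa.2, sb.2⟩), eta_pow, eta_sq n0, cop_of cn,
    eta_mul_left g0 a0, eta_mul_left g0 b0, eta_mul_left a0 b0, ← eta_sq g0, ab_mul]
  push_cast
  ring

end Pool.Agent.P.MP_26a8c3_nt.QO
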