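import Pool.Agent.P.MP_26a8c3_nt.QO.Res
import Pool.Agent.P.MP_26a8c3_nt.QO.StR
import Pool.Agent.P.MP_b8021b_nt.BS.PoiG

/-! Poisson summation on `O`, Gaussian sums. -/

namespace Pool.Agent.P.MP_26a8c3_nt.QO

open Complex MeasureTheory Pool.Agent.P.MP_b8021b_nt.PoiN
open scoped ComplexConjugate

noncomputable section

/-- coordinates in the basis `1, w` -/
def coL : (Fin 2 → ℝ) ≃L[ℝ] ℂ :=
  LinearEquiv.toContinuousLinearEquiv
    { toFun := fun x => x 0 + x 1 * wC
      invFun := fun z => ![z.re + z.im / √3, 2 * z.im / √3]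
      map_add' := fun x y => by simp; ring
      map_smul' := fun c x => by simp; ring
      left_inv := fun x => by
        have := sqrt3_pos.ne'
        ext i; fin_cases i <;> simp [wC] <;> field_simp
        ring
      right_inv := fun z => by
        have := sqrt3_pos.ne'
        apply Complex.ext <;> simp [wC] <;> field_simp
        ring }

lemma coL_apply (x : Fin 2 → ℝ) : coL x = x 0 + x 1 * wC := rfl

/-- integer coordinates -/
def eO : (Fin 2 → ℤ) ≃ O where
  toFun z := ⟨z 0, z 1⟩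
  invFun m := ![m.re, m.im]
  left_inv z := by ext i; fin_cases i <;> simp
  right_inv m := by ext <;> simp

/-- dual integer coordinates -/
def eD : (Fin 2 → ℤ) ≃ O where
  toFun z := ⟨z 0 + z 1, z 0⟩
  invFun m := ![m.im, m.re - m.im]
  left_inv z := by ext i; fin_cases i <;> simp
  right_inv m := by ext <;> simp

lemma coL_int (z : Fin 2 → ℤ) : coL (fun i => z i) = toC (eO z) := by
  rw [coL_apply, toC_apply]; simp [eO]

lemma summable_dec {Φ : ℂ → ℂ} (h : Dec Φ) {a : ℂ} (ha : a ≠ 0) (ξ : ℂ) :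
    Summable fun m : O => Φ (a * toC m + ξ) := by
  have := h.summable (coL.trans
    ((LinearEquiv.smulOfNeZero ℂ ℂ a ha).restrictScalars ℝ).toContinuousLinearEquiv) ξ
  rw [← eO.summable_iff]
  refine this.congr fun z => ?_
  simp [coL_int]

lemma pair_dual (x : Fin 2 → ℝ) (k : Fin 2 → ℤ) :
    2 * (coL x * (toC (eD k) / toC lam)).re = ∑ i, k i * x i := by
  have := sqrt3_pos.ne'
  rw [← mul_div_assoc, two_re_div_lam, coL_apply, toC_apply]
  simp [eD, wC]
  field_simp
  ring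

lemma poisson_aux : ∃ c : ℝ, (∀ s, volume.real (coL ⁻¹' s) = c * volume.real s) ∧
    ∀ Φ Φh : ℂ → ℂ, Continuous Φ → Dec Φ → Dec Φh →
      (∀ κ, ∫ z, Φ z * ee (-(2 * (z * κ).re)) = Φh κ) → ∀ ξ : ℂ,
      HasSum (fun h : O => c * (Φh (toC h / toC lam) * ee (2 * (ξ * (toC h / toC lam)).re)))
        (∑' m : O, Φ (toC m + ξ)) := by
  have hH : ((volume : Measure (Fin 2 → ℝ)).map coL).IsAddHaarMeasure := coL.isAddHaarMeasure_map _
  set c := Measure.addHaarScalarFactor ((volume : Measure (Fin 2 → ℝ)).map coL)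
    (volume : Measure ℂ) with hc
  have hμ : (volume : Measure (Fin 2 → ℝ)).map coL = c • (volume : Measure ℂ) :=
    Measure.isAddLeftInvariant_eq_smul _ _
  have hL : MeasurableEmbedding coL := coL.toHomeomorph.measurableEmbedding
  refine ⟨c, fun s => by
    rw [← measureReal_nnreal_smul_apply, ← hμ, Measure.real, Measure.real, hL.map_apply], ?_⟩
  intro Φ Φh hΦ hd hdh hft ξ
  obtain ⟨C, c', hc', hb⟩ := hd.comp coL ξ
  have key : ∀ k : Fin 2 → ℤ, ∫ x, Φ (coL x + ξ) * ee (-∑ i, k i * x i) =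
      c * (Φh (toC (eD k) / toC lam) * ee (2 * (ξ * (toC (eD k) / toC lam)).re)) := by
    intro k
    have h1 : ∀ x, Φ (coL x + ξ) * ee (-∑ i, k i * x i) =
        (fun z => Φ (z + ξ) * ee (-(2 * ((z + ξ) * (toC (eD k) / toC lam)).re))) (coL x) *
          ee (2 * (ξ * (toC (eD k) / toC lam)).re) := by
      intro x
      simp only
      rw [mul_assoc, ← ee_add, add_mul, add_re, mul_add, pair_dual]
      congr 2
      ring
    simp only [h1]
    rw [integral_mul_const, ← hL.integral_map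
      (fun z => Φ (z + ξ) * ee (-(2 * ((z + ξ) * (toC (eD k) / toC lam)).re))), hμ,
      integral_smul_nnreal_measure, integral_add_right_eq_self
      (fun z => Φ z * ee (-(2 * (z * (toC (eD k) / toC lam)).re))), hft,
      NNReal.smul_def, real_smul, mul_assoc]
  have hs : Summable fun k : Fin 2 → ℤ => ∫ x, Φ (coL x + ξ) * ee (-∑ i, k i * x i) := by
    simp only [key]
    refine Summable.mul_left _ (Summable.of_norm ?_)
    have := eD.summable_iff.2 (summable_dec hdh (inv_ne_zero (toC_ne_zero lam_ne_zero)) 0).norm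
    refine this.congr fun k => ?_
    simp [div_eq_inv_mul]
  have := poissonZ (fun x => Φ (coL x + ξ)) (by fun_prop) hc' hb hs
  simp only [key, coL_int] at this
  rw [← eO.tsum_eq, ← eD.hasSum_iff]
  exact this

lemma gau_eq {P : ℝ} (hP : 0 < P) (z : ℂ) : gau 0 (1 / (√3 * P)) z = (G (‖z‖ ^ 2 / P) : ℝ) := by
  have := sqrt3_pos.ne'
  rw [gau, pow_zero, one_mul, G, a0]
  congr 2
  field_simp

lemma norm_div_lam (h : O) : ‖toC h / toC lam‖ ^ 2 = N h / 3 := by
  rw [norm_div, div_pow, norm_toC_sq, norm_toC_sq]; simp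

lemma gauh_eq {P : ℝ} (hP : 0 < P) (h : O) :
    gauh 0 (1 / (√3 * P)) (toC h / toC lam) = (√3 / 2 * P * G (P * N h) : ℝ) := by
  have := sqrt3_pos.ne'
  have h1 : ((√3 : ℝ) : ℂ) ≠ 0 := by exact_mod_cast this
  have h2 : (P : ℂ) ≠ 0 := by exact_mod_cast hP.ne'
  rw [gauh, pow_zero, one_mul, G, a0, norm_div_lam,
    show 2 * Real.pi * (N h / 3) / (1 / (√3 * P)) = 2 * Real.pi / √3 * (P * N h) by
      field_simp; rw [sq, sqrt3_sq]]
  push_cast
  field_simp

/-- shifted Gaussian sums converge -/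
lemma summable_G_shift {P : ℝ} (hP : 0 < P) (ξ : ℂ) :
    Summable fun m : O => G (‖toC m + ξ‖ ^ 2 / P) := by
  have := summable_dec (dec_gau 0 (y := 1 / (√3 * P)) (by have := sqrt3_pos; positivity))
    one_ne_zero ξ
  simp only [gau_eq hP, one_mul] at this
  exact_mod_cast this

lemma summable_G {P : ℝ} (hP : 0 < P) : Summable fun m : O => G (N m / P) := by
  simpa [norm_toC_sq] using summable_G_shift hP 0

lemma summable_G' {P : ℝ} (hP : 0 < P) : Summable fun m : O => G (P * N m) := by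
  simpa [mul_comm] using summable_G (inv_pos.2 hP)

lemma summable_G'' {P Q : ℝ} (hP : 0 < P) (hQ : 0 < Q) : Summable fun m : O => G (P * N m / Q) :=
  (summable_G' (div_pos hP hQ)).congr fun m => by congr 1; ring

/-- the theta value `∑ G (N m)` -/
def th : ℝ := ∑' m : O, G (N m)

lemma summable_G1 : Summable fun m : O => G (N m) := by simpa using summable_G one_pos

lemma one_le_th : 1 ≤ th := by
  have := summable_G1.le_tsum 0 fun m _ => (G_pos _).le
  simpa [G_zero, th] using this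

lemma poisson_const : (∀ s, volume.real (coL ⁻¹' s) = 2 / √3 * volume.real s) ∧
    ∀ Φ Φh : ℂ → ℂ, Continuous Φ → Dec Φ → Dec Φh →
      (∀ κ, ∫ z, Φ z * ee (-(2 * (z * κ).re)) = Φh κ) → ∀ ξ : ℂ,
      HasSum (fun h : O => ((2 / √3 : ℝ) : ℂ) *
        (Φh (toC h / toC lam) * ee (2 * (ξ * (toC h / toC lam)).re))) (∑' m : O, Φ (toC m + ξ)) := by
  obtain ⟨c, h1, h2⟩ := poisson_aux
  have hy : 0 < 1 / (√3 * (1 : ℝ)) := by have := sqrt3_pos; positivity
  have h := (h2 _ _ (by unfold gau; fun_prop) (dec_gau 0 hy) (dec_gauh 0 hy)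
    (ft_gau zero_le_one hy) 0).tsum_eq
  simp only [gau_eq one_pos, gauh_eq one_pos] at h
  simp only [zero_mul, zero_re, mul_zero, ee_zero, mul_one,
    one_mul, add_zero, div_one, norm_toC_sq] at h
  have h' : ∑' m : O, c * (√3 / 2 * G (N m)) = th := by rw [th]; exact_mod_cast h
  rw [tsum_mul_left, tsum_mul_left, ← th] at h'
  have h3 : c = 2 / √3 := by
    have := sqrt3_pos.ne'
    have h4 : th ≠ 0 := by linarith [one_le_th]
    field_simp
    apply mul_right_cancel₀ h4
    linear_combination 2 * h'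
  subst h3
  exact ⟨h1, h2⟩

/-- Poisson summation on `O` for functions with exponential decay -/
theorem poissonO {Φ Φh : ℂ → ℂ} (hΦ : Continuous Φ) (hd : Dec Φ) (hdh : Dec Φh)
    (hft : ∀ κ, ∫ z, Φ z * ee (-(2 * (z * κ).re)) = Φh κ) (ξ : ℂ) :
    HasSum (fun h : O => ((2 / √3 : ℝ) : ℂ) *
      (Φh (toC h / toC lam) * ee (2 * (ξ * (toC h / toC lam)).re))) (∑' m : O, Φ (toC m + ξ)) :=
  poisson_const.2 Φ Φh hΦ hd hdh hft ξ

/-- the character `exp (2 π i Tr z)` -/
def ex (z : ℂ) : ℂ := cexp (2 * Real.pi * I * ((2 * z.re : ℝ) : ℂ))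

lemma ex_eq_ee (z : ℂ) : ex z = ee (2 * z.re) := rfl
@[simp] lemma norm_ex (z : ℂ) : ‖ex z‖ = 1 := norm_ee _
@[simp] lemma ex_zero : ex 0 = 1 := by simp [ex]
lemma ex_add (z z' : ℂ) : ex (z + z') = ex z * ex z' := by
  rw [ex_eq_ee, add_re, mul_add, ee_add]; rfl
lemma el_eq_ex (x q : O) : el x q = ex (toC x / (toC lam * toC q)) := el_eq_exp x q

/-- Poisson summation for the shifted Gaussian -/
theorem poisson_G {P : ℝ} (hP : 0 < P) (ξ : ℂ) :
    HasSum (fun h : O => (P : ℂ) * (ex (toC h * ξ / toC lam) * (G (P * N h) : ℝ)))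
      (∑' m : O, (G (‖toC m + ξ‖ ^ 2 / P) : ℝ)) := by
  have hy : 0 < 1 / (√3 * P) := by have := sqrt3_pos; positivity
  have h := poissonO (by unfold gau; fun_prop) (dec_gau 0 hy) (dec_gauh 0 hy)
    (ft_gau zero_le_one hy) ξ
  simp only [gau_eq hP, gauh_eq hP] at h
  convert h using 2 with m
  have h1 : ((√3 : ℝ) : ℂ) ≠ 0 := by exact_mod_cast sqrt3_pos.ne'
  rw [ex_eq_ee, show toC m * ξ / toC lam = ξ * (toC m / toC lam) by ring]
  push_cast
  field_simp

lemma Per.bdd {q : O} (hq : q ≠ 0) {F : O → ℂ} (hF : Per q F) : ∃ B, ∀ x, ‖F x‖ ≤ B := by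
  refine ⟨∑ a ∈ res q, ‖F a‖, fun x => ?_⟩
  obtain ⟨a, ha, e⟩ := res_surj hq x
  rw [hF _ _ e]
  exact Finset.single_le_sum (f := fun a => ‖F a‖) (fun _ _ => norm_nonneg _) ha

lemma summable_mul_real {F : O → ℂ} {B : ℝ} (hF : ∀ x, ‖F x‖ ≤ B) {g : O → ℝ} (hg : Summable g) :
    Summable fun m => F m * (g m : ℂ) :=
  Summable.of_norm_bounded (hg.abs.mul_left B) fun m => by
    rw [norm_mul, norm_real]; exact mul_le_mul_of_nonneg_right (hF m) (norm_nonneg _)

/-- Poisson summation with a periodic coefficient and a complex shift -/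
theorem poi_shift {q : O} (hq : q ≠ 0) {F : O → ℂ} (hF : Per q F) {P : ℝ} (hP : 0 < P) (ξ : ℂ) :
    ∑' m : O, F m * (G (‖toC m + ξ‖ ^ 2 / P) : ℝ) = (P / N q : ℝ) *
      ∑' h : O, ft F q h * ex (toC h * ξ / (toC lam * toC q)) * (G (P * N h / N q) : ℝ) := by
  obtain ⟨B, hB⟩ := hF.bdd hq
  have hN := N_pos_real hq
  have hq' := toC_ne_zero hq
  have hl := toC_ne_zero lam_ne_zero
  rw [tsum_eq_sm hq (summable_mul_real hB (summable_G_shift hP ξ)), sm_eq_res hq]
  have key : ∀ a, HasSum (fun h : O => ((P / N q : ℝ) : ℂ) * (F a * el (a * h) q *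
      ex (toC h * ξ / (toC lam * toC q)) * (G (P * N h / N q) : ℝ)))
      (∑' t, F (a + q * t) * (G (‖toC (a + q * t) + ξ‖ ^ 2 / P) : ℝ)) := by
    intro a
    have h := (poisson_G (div_pos hP hN) ((toC a + ξ) / toC q)).mul_left (F a)
    rw [← tsum_mul_left] at h
    have e1 : ∀ t : O, F a * (((P / N q : ℝ) : ℂ) * (ex (toC t * ((toC a + ξ) / toC q) / toC lam) *
        (G (P / N q * N t) : ℝ))) = ((P / N q : ℝ) : ℂ) * (F a * el (a * t) q *
        ex (toC t * ξ / (toC lam * toC q)) * (G (P * N t / N q) : ℝ)) := fun t => by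
      rw [el_eq_ex, show toC t * ((toC a + ξ) / toC q) / toC lam = toC (a * t) / (toC lam * toC q) +
        toC t * ξ / (toC lam * toC q) by rw [map_mul]; field_simp, ex_add,
        show P / N q * N t = P * N t / N q by ring]
      ring
    have e2 : ∀ t : O, F a * (G (‖toC t + (toC a + ξ) / toC q‖ ^ 2 / (P / N q)) : ℝ) =
        F (a + q * t) * (G (‖toC (a + q * t) + ξ‖ ^ 2 / P) : ℝ) := fun t => by
      rw [hF.add_mul, show toC (a + q * t) + ξ = toC q * (toC t + (toC a + ξ) / toC q) by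
        rw [map_add, map_mul]; field_simp; ring, norm_mul, mul_pow, norm_toC_sq]
      congr 3
      field_simp
    simpa only [e1, e2] using h
  rw [← (hasSum_sum fun a _ => key a).tsum_eq, ← tsum_mul_left]
  refine tsum_congr fun h => ?_
  rw [ft, sm_eq_res hq, ← Finset.mul_sum, ← Finset.sum_mul, ← Finset.sum_mul]

/-- Poisson summation with a periodic coefficient -/
theorem poi {q : O} (hq : q ≠ 0) {F : O → ℂ} (hF : Per q F) {P : ℝ} (hP : 0 < P) :
    ∑' m : O, F m * (G (N m / P) : ℝ) =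
      (P / N q : ℝ) * ∑' h : O, ft F q h * (G (P * N h / N q) : ℝ) := by
  simpa [norm_toC_sq] using poi_shift hq hF hP 0

theorem pPoi : S_Poi := fun _ _ _ hq hF hP => poi hq hF hP

/-! ### bounds for Gaussian sums -/

lemma tsum_G_eq {P : ℝ} (hP : 0 < P) : ∑' m : O, G (N m / P) = P * ∑' h : O, G (P * N h) := by
  have h := (poisson_G hP 0).tsum_eq
  simp only [mul_zero, zero_div, ex_zero, one_mul, add_zero, norm_toC_sq, tsum_mul_left] at h
  exact_mod_cast h.symm

lemma tsum_G_shift_le' {P : ℝ} (hP : 0 < P) (ξ : ℂ) :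
    ∑' m : O, G (‖toC m + ξ‖ ^ 2 / P) ≤ ∑' m : O, G (N m / P) := by
  have h := (poisson_G hP ξ).norm_le_of_bounded ((summable_G' hP).hasSum.mul_left P) fun h => by
    simp [abs_of_pos hP, abs_of_pos (G_pos _)]
  rw [tsum_G_eq hP]
  exact (le_abs_self _).trans (by simpa only [← ofReal_tsum, norm_real, Real.norm_eq_abs] using h)

lemma tsum_G_le_of_one_le {P : ℝ} (hP : 1 ≤ P) : ∑' m : O, G (N m / P) ≤ th * P := by
  have h0 : 0 < P := by linarith
  rw [tsum_G_eq h0, mul_comm]
  refine mul_le_mul_of_nonneg_right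
    ((summable_G' h0).tsum_le_tsum (fun m => G_anti ?_) summable_G1) h0.le
  exact le_mul_of_one_le_left (Nat.cast_nonneg _) hP

lemma tsum_G_le {P : ℝ} (hP : 0 < P) : ∑' m : O, G (N m / P) ≤ th * (1 + P) := by
  have := one_le_th
  rcases le_total P 1 with h | h
  · refine ((summable_G hP).tsum_le_tsum (fun m => G_anti ?_) summable_G1).trans ?_
    · rw [le_div_iff₀ hP]; exact mul_le_of_le_one_right (Nat.cast_nonneg _) h
    · rw [← th]; nlinarith
  · exact (tsum_G_le_of_one_le h).trans (by nlinarith)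

/-- uniform bound for shifted Gaussian sums -/
lemma tsum_G_shift_le {P : ℝ} (hP : 0 < P) (ξ : ℂ) :
    ∑' m : O, G (‖toC m + ξ‖ ^ 2 / P) ≤ th * (1 + P) :=
  (tsum_G_shift_le' hP ξ).trans (tsum_G_le hP)

lemma one_le_a0 : 1 ≤ a0 := by
  rw [a0, le_div_iff₀ sqrt3_pos]
  nlinarith [Real.pi_gt_three, sqrt3_sq, sqrt3_pos]

lemma exp_eq_G (y : ℝ) {R : ℝ} (hR : 0 < R) : Real.exp (-(y / R)) = G (y / (a0 * R)) := by
  have := a0_pos.ne'
  rw [G]; congr 2; field_simp

lemma summable_exp_shift {R : ℝ} (hR : 0 < R) (ξ : ℂ) :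
    Summable fun m : O => Real.exp (-(‖toC m + ξ‖ ^ 2 / R)) := by
  simp only [exp_eq_G _ hR]; exact summable_G_shift (mul_pos a0_pos hR) ξ

lemma tsum_exp_shift_le {R : ℝ} (hR : 0 < R) (ξ : ℂ) :
    ∑' m : O, Real.exp (-(‖toC m + ξ‖ ^ 2 / R)) ≤ th * a0 * (1 + R) := by
  simp only [exp_eq_G _ hR]
  refine (tsum_G_shift_le (mul_pos a0_pos hR) ξ).trans ?_
  rw [mul_assoc]
  exact mul_le_mul_of_nonneg_left (by nlinarith [one_le_a0]) (by linarith [one_le_th])

lemma summable_G_ne {U : ℝ} (hU : 0 < U) : Summable fun h : O => if h = 0 then 0 else G (N h / U) :=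
  Summable.of_nonneg_of_le (fun h => by split_ifs; exacts [le_rfl, (G_pos _).le])
    (fun h => by split_ifs; exacts [(G_pos _).le, le_rfl]) (summable_G hU)

/-- the Gaussian sum without the zero term -/
lemma tsum_G_ne_le {U : ℝ} (hU : 0 < U) :
    ∑' h : O, (if h = 0 then 0 else G (N h / U)) ≤ th * U := by
  rcases le_total U 1 with h | h
  · rw [th, ← tsum_mul_right]
    refine (summable_G_ne hU).tsum_le_tsum (fun m => ?_) (summable_G1.mul_right U)
    split_ifs with hm
    · exact (mul_pos (G_pos _) hU).le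
    · have h1 := one_le_N hm
      have h2 : 0 ≤ 1 / U - 1 := by rw [sub_nonneg, le_div_iff₀ hU]; linarith
      rw [show N m / U = N m + N m * (1 / U - 1) by ring, G_add]
      refine mul_le_mul_of_nonneg_left ?_ (G_pos _).le
      have h3 : 1 / U - 1 ≤ a0 * (N m * (1 / U - 1)) := by
        calc 1 / U - 1 = 1 * (1 * (1 / U - 1)) := by ring
          _ ≤ _ := by have := a0_pos; have := one_le_a0; gcongr
      have h4 := Real.add_one_le_exp (a0 * (N m * (1 / U - 1)))
      rw [G, Real.exp_neg, inv_le_comm₀ (Real.exp_pos _) hU, inv_eq_one_div]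
      linarith
  · refine le_trans ((summable_G_ne hU).tsum_le_tsum (fun m => ?_) (summable_G hU))
      (tsum_G_le_of_one_le h)
    split_ifs; exacts [(G_pos _).le, le_rfl]

end

end Pool.Agent.P.MP_26a8c3_nt.QO
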