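import Pool.Agent.P.MP_26a8c3_nt.QO.Sym
import Pool.Agent.P.MP_26a8c3_nt.QO.Res

/-! Cubic and sextic Gauss sums: twisted multiplicativity and the duplication formula. -/

namespace Pool.Agent.P.MP_26a8c3_nt.QO

namespace Dup

open Finset AddChar MulChar

variable {F : Type*} [Field F] [Fintype F] [DecidableEq F]

/-- a sum over squares -/
theorem sum_sq (h2 : ringChar F ≠ 2) (f : F → ℂ) :
    ∑ y, f (y ^ 2) = ∑ t, ((quadraticChar F t : ℤ) + 1 : ℂ) * f t := by
  rw [← Finset.sum_fiberwise (s := univ) (g := fun y : F => y ^ 2)]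
  refine Finset.sum_congr rfl fun t _ => ?_
  have h := quadraticChar_card_sqrts h2 t
  rw [Finset.sum_congr rfl (g := fun _ => f t) fun y hy => by rw [(Finset.mem_filter.1 hy).2],
    Finset.sum_const, nsmul_eq_mul]
  congr 1
  have e : ({x : F | x ^ 2 = t}.toFinset) = univ.filter fun y => y ^ 2 = t := by
    ext; simp
  rw [e] at h
  exact_mod_cast h

/-- the duplication formula for Jacobi sums -/
theorem jac (h2 : ringChar F ≠ 2) {ρ η : MulChar F ℂ} (hη : ∀ x, η x = (quadraticChar F x : ℤ))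
    (hρ : ρ ≠ 1) : ρ 4 * jacobiSum ρ ρ = jacobiSum η ρ := by
  have t2 : (2 : F) ≠ 0 := Ring.two_ne_zero h2
  have e1 : ρ 4 * jacobiSum ρ ρ = ∑ x : F, ρ (1 - (2 * x - 1) ^ 2) := by
    rw [jacobiSum, Finset.mul_sum]
    refine Finset.sum_congr rfl fun x _ => ?_
    rw [← map_mul, ← map_mul]
    congr 1
    ring
  have e2 : ∑ x : F, ρ (1 - (2 * x - 1) ^ 2) = ∑ y : F, ρ (1 - y ^ 2) :=
    Fintype.sum_equiv ((Equiv.mulLeft₀ 2 t2).trans (Equiv.subRight 1)) _ _ fun x => by simp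
  have e3 : ∑ t : F, ρ (1 - t) = 0 := by
    rw [← MulChar.sum_eq_zero_of_ne_one hρ]
    exact Fintype.sum_equiv (Equiv.subLeft 1) _ _ fun x => by simp
  rw [e1, e2, sum_sq h2 fun t => ρ (1 - t), jacobiSum]
  simp only [add_mul, one_mul, Finset.sum_add_distrib, e3, add_zero, hη]

/-- the duplication formula for Gauss sums -/
theorem gauss (h2 : ringChar F ≠ 2) {ρ η : MulChar F ℂ} (hη : ∀ x, η x = (quadraticChar F x : ℤ))
    (hρ : ρ ≠ 1) (h1 : ρ * ρ ≠ 1) (h3 : η * ρ ≠ 1) {ψ : AddChar F ℂ} (hψ : ψ.IsPrimitive) :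
    ρ 4 * (gaussSum ρ ψ * gaussSum (η * ρ) ψ) = gaussSum (ρ * ρ) ψ * gaussSum η ψ := by
  have a1 := jacobiSum_mul_nontrivial h1 ψ
  have a2 := jacobiSum_mul_nontrivial h3 ψ
  have a3 := jac h2 hη hρ
  have hg := gaussSum_ne_zero_of_nontrivial (R' := ℂ) (by exact_mod_cast Fintype.card_ne_zero) hρ hψ
  refine mul_right_cancel₀ hg ?_
  calc ρ 4 * (gaussSum ρ ψ * gaussSum (η * ρ) ψ) * gaussSum ρ ψ
      = ρ 4 * (gaussSum ρ ψ * gaussSum ρ ψ) * gaussSum (η * ρ) ψ := by ring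
    _ = gaussSum (ρ * ρ) ψ * (gaussSum (η * ρ) ψ * (ρ 4 * jacobiSum ρ ρ)) := by rw [← a1]; ring
    _ = _ := by rw [a3, a2]; ring

end Dup

open scoped Classical ComplexConjugate

variable {a b c h p q : O} {ρ ρ' : O → ℂ}

/-- the character of the residue field given by a character modulo `p` -/
noncomputable def IsNu.mcR (H : IsNu q ρ) : MulChar (Rq q) ℂ where
  toFun r := ρ r.out
  map_one' := by rw [← map_one (QO.mk q), H.per.out, H.one]
  map_mul' x y := by
    obtain ⟨x, rfl⟩ := mk_surj q x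
    obtain ⟨y, rfl⟩ := mk_surj q y
    rw [← map_mul, H.per.out, H.per.out, H.per.out, H.mul]
  map_nonunit' x hx := H.zero _ fun e => hx (by rw [← mk_out x]; exact isUnit_mk_iff.2 e)

lemma IsNu.mcR_mk (H : IsNu q ρ) (x : O) : H.mcR (QO.mk q x) = ρ x := H.per.out x

lemma IsNu.mcR_ne (H : IsNu q ρ) (h1 : ρ ≠ cop q) : H.mcR ≠ 1 := fun e => h1 (funext fun x => by
  rw [← H.mcR_mk, e]
  by_cases hx : IsCoprime x q
  · rw [cop_of hx, MulChar.one_apply (isUnit_mk_iff.2 hx)]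
  · rw [cop_of_not hx, MulChar.map_nonunit _ (mt isUnit_mk_iff.1 hx)])

lemma IsNu.gaussR [Fact (Prime p)] (H : IsNu p ρ) : gaussSum H.mcR (elc p) = ft ρ p 1 := by
  rw [gaussSum, ft, sm_eq_sum]
  exact Finset.sum_congr rfl fun r _ => by rw [mul_one]; rfl

lemma IsNu.mcR_mul (H : IsNu q ρ) (H' : IsNu q ρ') {σ : O → ℂ} (H'' : IsNu q σ)
    (e : ∀ x, ρ x * ρ' x = σ x) : H.mcR * H'.mcR = H''.mcR :=
  MulChar.ext' fun _ => e _

lemma IsNu.ftR_left (H : IsNu q ρ) (u h : O) : ft (fun x => ρ (u * x)) q h = ρ u * ft ρ q h := by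
  simp only [H.mul, ft_mul_left]

namespace R4

lemma eta_mul_psi (hq : q ≠ 0) (x : O) : eta q x * psi q x = conj (chi q x) := by
  by_cases hx : IsCoprime x q
  · have := eta_sq hq x
    rw [cop_of hx] at this
    rw [psi]
    linear_combination conj (chi q x) * this
  · simp [(eta_eq_zero hq).2 hx, (chi_eq_zero hq).2 hx]

lemma ft_one_left {F : O → ℂ} (hF : ∀ x, F x = 1) (h : O) : ft F 1 h = 1 := by
  rw [ft, sm_congr (H := fun _ => 1) fun x => by rw [hF, el_one, one_mul], sm_const one_ne_zero]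
  simp

lemma tau_one : tau 1 = 1 := by rw [tau, ft_one_left chi_one_left]; simp

lemma bb_one : bb 1 = 1 := by simp [bb, tau_one]

lemma chi_ne_cop (hO : S_Ord) (hp : Prime p) (h1 : Primary p) : chi p ≠ cop p := by
  simpa using (hO p 1 hp h1).1 (by norm_num)

lemma psi_ne_cop (hO : S_Ord) (hp : Prime p) (h1 : Primary p) (h2 : Od p) : psi p ≠ cop p := by
  simpa using (hO p 1 hp h1).2 h2 (by norm_num)

lemma tau_mul (hF : S_FT) (hR : S_R1) (ha : Primary a) (hb : Primary b) (hc : IsCoprime a b) :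
    tau (a * b) = chi a b * tau a * tau b := by
  have e : chi (a * b) = fun x => chi a x * chi b x :=
    funext (chi_mul_left ha.ne_zero hb.ne_zero)
  have A := isNu_chi ha.ne_zero
  have B := isNu_chi hb.ne_zero
  have h3 := chi_cube ha.ne_zero b
  rw [cop_of hc.symm] at h3
  rw [tau, tau, tau, e, hF.1 a b 1 _ _ ha.ne_zero hb.ne_zero hc A.per B.per, A.ftR_left, B.ftR_left,
    ← hR a b ha hb, ab_mul]
  simp only [map_mul, conj_chi]
  push_cast
  linear_combination (chi a b * conj (ft (chi a) a 1) * conj (ft (chi b) b 1) /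
    ((ab a : ℂ) * ab b)) * h3

lemma norm_tau (hF : S_FT) (hR : S_R1) (hO : S_Ord) (hc : SQ c) : ‖tau c‖ = 1 := by
  refine primary_ind (P := fun c => SQ c → ‖tau c‖ = 1) (fun _ => by simp [tau_one])
    (fun p a hp h1 ha ih H => ?_) hc.1 hc
  have e := (hF.2.2.2.2.2 p 1 _ hp (isNu_chi hp.ne_zero) (chi_ne_cop hO hp h1)).2
  rw [tau_mul hF hR h1 ha H.coprime, norm_mul, norm_mul, ih (H.right h1),
    norm_chi hp.ne_zero H.coprime.symm, tau, norm_div, Complex.norm_conj, e, Complex.norm_real,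
    Real.norm_of_nonneg (ab_nonneg p), div_self (ab_pos hp.ne_zero).ne']
  simp

lemma bb_mul (hF : S_FT) (hR : S_R1) (ha : Primary a) (hb : Primary b) (hc : IsCoprime a b) :
    bb (a * b) = chi a b * bb a * bb b := by
  rw [bb, bb, bb, tau_mul hF hR ha hb hc, chi_mul_left ha.ne_zero hb.ne_zero, ang_mul, map_mul]
  ring

lemma ringChar_ne_two [hp : Fact (Prime p)] (h2 : Od p) : ringChar (Rq p) ≠ 2 := by
  intro e
  have h1 : ((2 : ℕ) : Rq p) = 0 := (ringChar.spec _ 2).2 (by rw [e])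
  rw [← map_natCast (mk p), mk_eq_zero] at h1
  exact hp.out.not_isUnit (h2.isUnit_of_dvd' dvd_rfl (by simpa using h1))

/-- the sextic Gauss sum at a prime -/
lemma ft_psi_prime (hF : S_FT) (hG : S_G3) (hO : S_Ord) (hQ : S_QR) (hp : Prime p)
    (h1 : Primary p) (h2 : Od p) : -ft (psi p) p 1 = ab p * gam p * bb p := by
  have := Fact.mk hp
  have h0 := hp.ne_zero
  have C := isNu_chi h0
  have P := isNu_psi h0
  have E := isNu_eta h0
  have m1 : P.mcR * P.mcR = C.mcR := P.mcR_mul P C fun x => by rw [← psi_sq h0, sq]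
  have m2 : E.mcR * P.mcR = C.conj'.mcR := E.mcR_mul P C.conj' (eta_mul_psi h0)
  have n1 := chi_ne_cop hO hp h1
  have n2 : (fun x => conj (chi p x)) ≠ cop p := by
    simpa only [conj_chi] using (hO p 2 hp h1).1 (by norm_num)
  have d := Dup.gauss (ringChar_ne_two h2) (ρ := P.mcR) (η := E.mcR) (fun x => by
      obtain ⟨x, rfl⟩ := mk_surj p x
      rw [E.mcR_mk, eta_prime hp, s2_quad])
    (P.mcR_ne (psi_ne_cop hO hp h1 h2)) (m1 ▸ C.mcR_ne n1) (m2 ▸ C.conj'.mcR_ne n2) (elc_prim h0)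
  have e4 : P.mcR 4 = chi p 2 := by
    rw [show (4 : Rq p) = mk p (2 ^ 2) by rw [map_pow, map_ofNat]; norm_num, P.mcR_mk, psi_pow,
      psi_sq h0]
  rw [m1, m2, P.gaussR, C.gaussR, E.gaussR, C.conj'.gaussR, e4, hQ.1 p 1 hp.squarefree h2, eta_one,
    one_mul] at d
  have c1 : ft (fun x => conj (chi p x)) p 1 = conj (ft (chi p) p 1) := by
    have k1 := conj_ft h0 (chi p) (-1)
    have k2 := (hF.2.2.2.2.2 p (-1) _ hp C n1).1
    rw [neg_neg] at k1
    rw [← k1, k2, chi_neg_one, map_one, one_mul]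
  have c2 : ft (chi p) p 1 * conj (ft (chi p) p 1) = (ab p : ℂ) ^ 2 := by
    rw [Complex.mul_conj, Complex.normSq_eq_norm_sq, (hF.2.2.2.2.2 p 1 _ hp C n1).2]
    push_cast; rfl
  have c3 := hG p hp h1
  have c4 := C.mul_conj (a := 2) h2.symm
  have c5 := ab_neC h0
  rw [← ab_sqC] at c3
  rw [c1] at d
  rw [bb, ang, tau]
  generalize ft (chi p) p 1 = g at *
  generalize conj g = g' at *
  generalize ft (psi p) p 1 = s at *
  generalize conj (chi p 2) = k' at *
  generalize chi p 2 = k at *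
  generalize (ab p : ℂ) = r at *
  have c6 : g ^ 2 = -(toC p * g') := by
    refine mul_right_cancel₀ (pow_ne_zero 2 c5) ?_
    linear_combination g' * c3 - g ^ 2 * c2
  field_simp
  refine mul_right_cancel₀ c5 ?_
  linear_combination (-k' * g) * d + s * c2 + s * g * g' * c4 - k' * r * gam p * c6

lemma xi_eq (ha : Od a) (hb : Od b) (hM : S_Gam) : xi a b * (gam a * gam b) = gam (a * b) := by
  have n : ∀ x, Od x → gam x ≠ 0 := fun x hx => norm_ne_zero_iff.1 (by rw [hM.2.2.1 x hx]; simp)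
  rw [xi, if_pos (od_mul.2 ⟨ha, hb⟩), div_mul_cancel₀ _ (mul_ne_zero (n a ha) (n b hb))]

/-- the sextic Gauss sum of a squarefree modulus -/
lemma ft_psi (hF : S_FT) (hR : S_R1) (hG : S_G3) (hO : S_Ord) (hQ : S_QR) (hM : S_Gam)
    (ha : SQO a) (h : O) : mu a * ft (psi a) a h = ab a * gam a * bb a * conj (psi a h) := by
  refine primary_ind (P := fun a => SQO a → mu a * ft (psi a) a h =
    ab a * gam a * bb a * conj (psi a h)) (fun _ => ?_) (fun p a hp h1 ha ih H => ?_) ha.1.1 ha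
  · simp [ft_one_left psi_one_left, hM.1, bb_one]
  have hc := H.1.coprime
  obtain ⟨o1, o2⟩ := od_mul.1 H.2
  have e : psi (p * a) = fun x => psi p x * psi a x := funext (psi_mul_left hp.ne_zero ha.ne_zero)
  have A := isNu_psi ha.ne_zero
  have P := isNu_psi hp.ne_zero
  have i1 := ih ⟨H.1.right h1, o2⟩
  have i2 := ft_psi_prime hF hG hO hQ hp h1 o1
  have i3 := (hF.2.2.2.2.2 p h _ hp P (psi_ne_cop hO hp h1 o1)).1
  have i4 := hQ.2.2 p a h1 ha o1 o2
  have i5 := psi_sq ha.ne_zero p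
  rw [psi_mul_left hp.ne_zero ha.ne_zero, e, hF.1 p a h _ _ hp.ne_zero ha.ne_zero hc P.per A.per,
    P.ftR_left, A.ftR_left, mu_mul hc, mu_prime hp, i3, bb_mul hF hR h1 ha hc, ← xi_eq o1 o2 hM,
    ab_mul, hR p a h1 ha, ← i5, i4, map_mul]
  push_cast
  linear_combination (-(xi p a * psi a p ^ 2 * conj (psi p h) * ft (psi p) p 1)) * i1 +
    xi p a * psi a p ^ 2 * conj (psi p h) * (ab a * gam a * bb a * conj (psi a h)) * i2

lemma conj_gam (hQ : S_QR) (ha : SQO a) : conj (gam a) = eta a (-1) * gam a := by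
  have h0 := ha.1.ne_zero
  have k1 := conj_ft h0 (eta a) 1
  simp only [conj_eta] at k1
  rw [hQ.1 a 1 ha.1.2 ha.2, hQ.1 a (-1) ha.1.2 ha.2, eta_one, one_mul, map_mul,
    Complex.conj_ofReal] at k1
  exact mul_left_cancel₀ (ab_neC h0) (by rw [k1]; ring)

/-- the conjugate form of `ft_psi` -/
lemma ft_conj_psi (hF : S_FT) (hR : S_R1) (hG : S_G3) (hO : S_Ord) (hQ : S_QR) (hM : S_Gam)
    (ha : SQO a) (h : O) :
    mu a * ft (fun x => conj (psi a x)) a h = ab a * gam a * conj (bb a) * psi a h := by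
  have h0 := ha.1.ne_zero
  have k1 := congrArg conj (ft_psi hF hR hG hO hQ hM ha (-h))
  have k2 := eta_sq h0 (-1)
  have k3 : psi a (-h) = eta a (-1) * psi a h := by
    rw [← neg_one_mul, psi_mul, psi, chi_neg_one, map_one, mul_one]
  rw [cop_of isCoprime_one_left.neg_left] at k2
  rw [map_mul, conj_mu, conj_ft h0, neg_neg, map_mul, map_mul, map_mul, Complex.conj_conj,
    Complex.conj_ofReal, conj_gam hQ ha, k3] at k1
  linear_combination k1 + ab a * gam a * conj (bb a) * psi a h * k2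

end R4

open R4 in
theorem pR4 (hF : S_FT) (hR : S_R1) (hG : S_G3) (hO : S_Ord) (hQ : S_QR) (hM : S_Gam) : S_R4 := by
  refine ⟨tau_one, fun c => norm_tau hF hR hO, fun a b => tau_mul hF hR, fun a b h ha hb hc => ?_⟩
  have A := isNu_psi ha.1.ne_zero
  have B := (isNu_psi hb.1.ne_zero).conj'
  have i1 := ft_psi hF hR hG hO hQ hM ha h
  have i2 := ft_conj_psi hF hR hG hO hQ hM hb h
  have i3 := hQ.2.2 a b ha.1.1 hb.1.1 ha.2 hb.2
  have i4 := psi_mul_conj hb.1.ne_zero a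
  rw [cop_of hc] at i4
  rw [hF.1 a b h _ _ ha.1.ne_zero hb.1.ne_zero hc A.per B.per, A.ftR_left, B.ftR_left,
    ← xi_eq ha.2 hb.2 hM, i3]
  linear_combination (xi a b * (mu b * ft (fun x => conj (psi b x)) b h)) * i1 +
    xi a b * (ab a * gam a * bb a * conj (psi a h)) * i2 +
    xi a b * (mu a * ft (psi a) a h) * (mu b * ft (fun x => conj (psi b x)) b h) * i4

end Pool.Agent.P.MP_26a8c3_nt.QO
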