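import Pool.Agent.P.MP_26a8c3_nt.QO.Kub
import Pool.Agent.P.MP_26a8c3_nt.QO.P2
import Pool.Agent.P.MP_26a8c3_nt.QO.FT
import Pool.Agent.P.MP_26a8c3_nt.QO.Poi
import Pool.Agent.P.MP_26a8c3_nt.QO.R4
import Pool.Agent.P.MP_26a8c3_nt.QO.Ker
import Pool.Agent.P.MP_26a8c3_nt.QR.Per
import Pool.Agent.P.MP_26a8c3_nt.QR.R1
import Pool.Agent.P.MP_26a8c3_nt.QR.R3
import Pool.Agent.P.MP_26a8c3_nt.QR.Gam
import Pool.Agent.P.MP_26a8c3_nt.QR.QR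

/-! The algebra layer. -/

namespace Pool.Agent.P.MP_26a8c3_nt.QO

theorem alg : Alg :=
  have r3 := pR3 pPoi
  have qr := pQR pR1 r3
  have r4 := pR4 pFT pR1 pG3 pOrd qr pGam
  ⟨pPoi, pFT, pR1, pG3, pR2 pR1, pKub pR1, pOrd, r3, pGam, qr, pPer (pR2 pR1) qr pGam, r4,
    pP2 pPoi pR1 r4 pGam, pPE pPoi qr pGam, pK⟩

end Pool.Agent.P.MP_26a8c3_nt.QO
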