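import Pool.Agent.P.MP_26a8c3_nt.QO.StR
import Pool.Agent.P.MP_26a8c3_nt.QA.W
import Pool.Agent.P.MP_26a8c3_nt.QK.K

/-! Weighted sums, their Gaussian moments, and the interfaces between the layers. -/

namespace Pool.Agent.P.MP_26a8c3_nt.QO

open scoped Classical ComplexConjugate
open Pool.Agent.P.MP_26a8c3_nt.QA Pool.Agent.P.MP_26a8c3_nt.QK

noncomputable section

/-- the norm as a positive real number (one at zero) -/
def nr (c : O) : ℝ := max 1 (N c : ℝ)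

lemma one_le_nr (c : O) : 1 ≤ nr c := le_max_left _ _

lemma nr_pos (c : O) : 0 < nr c := lt_of_lt_of_le one_pos (one_le_nr c)

lemma nr_eq {c : O} (h : c ≠ 0) : nr c = N c := max_eq_right (one_le_N h)

/-- weighted sum over `O` -/
def Wsum (u : O → ℂ) (X t : ℝ) : ℂ := ∑' c : O, u c * W X t (nr c)

/-- Moebius side coefficient -/
def uA (ν : O → ℂ) (r m c : O) : ℂ := if SQ c ∧ IsCoprime c r then mu c * ν c * psi c m else 0

/-- Moebius side sum, over arguments prime to `r` -/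
def A (ν : O → ℂ) (r m : O) (X t : ℝ) : ℂ := Wsum (uA ν r m) X t

/-- completely multiplicative twist on the theta side -/
def Phi (ν : O → ℂ) (h n : O) : ℂ := ang n * ν n * conj (psi n h)

/-- theta side coefficient -/
def uB (ν : O → ℂ) (h c : O) : ℂ := if SQ c then tau c * Phi ν h c else 0

/-- theta side sum over squarefree arguments -/
def B (ν : O → ℂ) (h : O) (X t : ℝ) : ℂ := Wsum (uB ν h) X t

/-- theta side sum over all arguments `c * d ^ 3` -/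
def Bs (ν : O → ℂ) (h : O) (X t : ℝ) : ℂ :=
  ∑' x : O × O, if SQ x.1 ∧ Primary x.2 then
    (ab x.2 : ℂ) * tau x.1 * Phi ν h (x.1 * x.2 ^ 3) * W X t (nr (x.1 * x.2 ^ 3)) else 0

/-- the crude large sieve bound -/
def LL (P R : ℝ) : ℝ := P ^ (6 / 5 : ℝ) + R ^ (33 / 20 : ℝ)

/-- divisors of powers of `lam` -/
def Lp (n : O) : Prop := ∃ k : ℕ, n ∣ lam ^ k

end

/-- the cubic theta function: coefficients at the cusps and the transformation law -/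
def S_Theta : Prop :=
  ∃ (T : O → O → ℂ) (n₀ : O) (b C : ℝ) (ζ : ℂ), 0 < b ∧ ‖ζ‖ = 1 ∧ Lp n₀ ∧ T 0 n₀ ≠ 0 ∧
    (∀ x y, 3 ∣ x - y → T x = T y) ∧
    (∀ x n c d, Lp n → SQ c → Primary d →
      T x (n * (c * d ^ 3)) = chi c (3 * n) * ab d * tau c * T x n) ∧
    (∀ x n m, Lp n → Primary m → (¬ ∃ c d, SQ c ∧ Primary d ∧ m = c * d ^ 3) → T x (n * m) = 0) ∧
    (∀ x n, n ≠ 0 → ‖T x n‖ ≤ C * ab n) ∧
    (∀ n, T 0 n * el n 9 = T 0 n) ∧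
    ∀ α β γ δ : O, α * δ - β * γ = 1 → Primary α → 9 ∣ β → γ ≠ 0 → ∀ v : ℝ, 0 < v →
      ∑' n : O, ang n * T 0 n * el (n * α) (9 * γ) * (kB b (ab n / (N γ * v)) : ℝ) =
        ζ * ang γ ^ 2 * chi α γ * ((N γ * v ^ 2 : ℝ) : ℂ) *
          ∑' n : O, conj (ang n) * T γ n * el (-(n * δ)) (9 * γ) * (kB b (ab n * v) : ℝ)

/-- the crude quadratic large sieve -/
def S_LS : Prop :=
  ∃ C : ℝ, 0 < C ∧ ∀ (P R : ℝ) (S T : Finset O) (a : O → ℂ), 0 ≤ P → 0 ≤ R →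
    (∀ n ∈ S, SQO n ∧ (N n : ℝ) ≤ R) → (∀ m ∈ T, SQO m ∧ (N m : ℝ) ≤ P) →
      ∑ m ∈ T, ‖∑ n ∈ S, a n * eta m n‖ ^ 2 ≤ C * LL P R * ∑ n ∈ S, ‖a n‖ ^ 2

/-- the Voronoi bound for the theta side moment -/
def S_V : Prop :=
  ∀ Q : O, Q ≠ 0 → 36 ∣ Q → ∀ ε : ℝ, 0 < ε → ∃ C : ℝ, 0 < C ∧ ∀ ν, IsNu Q ν →
    ∀ (P X t : ℝ) (s : Finset O), 1 ≤ P → 0 < X → 0 ∉ s →
      ∑ h ∈ s, G (N h / P) * ‖Bs ν h X t‖ ^ 2 ≤
        C * (1 + |t|) ^ 16 * (2 + P + P ^ 2 / X) ^ ε * X * LL P (P ^ 2 / X)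

/-- the power saving on the Moebius side -/
def S_Z : Prop :=
  ∀ Q : O, Q ≠ 0 → 36 ∣ Q → ∀ ν, IsNu Q ν → ∃ C : ℝ, ∀ X : ℝ, 1 ≤ X →
    ‖A ν 1 1 X 0‖ ≤ C * X ^ (1999 / 2000 : ℝ)

end Pool.Agent.P.MP_26a8c3_nt.QO
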