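import Pool.Agent.P.MP_26a8c3_nt.QO.Sym

/-! The weak supplement and the Kubota symbol. -/

namespace Pool.Agent.P.MP_26a8c3_nt.QO

open scoped Classical ComplexConjugate

namespace PKub

variable {a b c d d' n p : O}

lemma cube_nine (h : Primary d) : (9 : O) ∣ d ^ 3 - 1 := by
  obtain ⟨t, e⟩ := h
  exact ⟨t + 3 * t ^ 2 + 3 * t ^ 3, by rw [show d = 1 + 3 * t by linear_combination e]; ring⟩

lemma primary_of_nine (h : (9 : O) ∣ c - 1) : Primary c := (Dvd.intro 3 (by norm_num)).trans h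

/-- a function of primary elements that is multiplicative, of order three, trivial modulo nine -/
lemma per_of_one {x : O} (hx : ∀ d, Primary d → IsCoprime x d)
    (h : ∀ c, (9 : O) ∣ c - 1 → chi c x = 1) (hd : Primary d) (hd' : Primary d')
    (e : (9 : O) ∣ d - d') : chi d x = chi d' x := by
  have h1 := h (d * d' ^ 2) (by
    have : d * d' ^ 2 - 1 = (d - d') * d' ^ 2 + (d' ^ 3 - 1) := by ring
    rw [this]; exact dvd_add (e.mul_right _) (cube_nine hd'))
  rw [chi_mul_left hd.ne_zero (hd'.pow 2).ne_zero, chi_pow_left] at h1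
  have h2 := chi_cube hd'.ne_zero x
  rw [cop_of (hx d' hd')] at h2
  linear_combination chi d' x * h1 - chi d x * h2

lemma chi_w (hd : Primary d) : chi d w = toC w ^ ((N d - 1) / 3) := by
  refine primary_ind (P := fun d => chi d w = toC w ^ ((N d - 1) / 3)) (by simp)
    (fun p a hp h1 h2 ih => ?_) hd
  have e : s3 p w = w ^ ((N p - 1) / 3) := by
    refine s3_eq hp h1.not_lam_dvd ?_ (by simp)
    generalize (N p - 1) / 3 = k
    induction k with
    | zero => exact Or.inl rfl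
    | succ k ih => rw [pow_succ]; exact ih.mul (Or.inr (Or.inl rfl))
  rw [chi_mul_left hp.ne_zero h2.ne_zero, ih, chi_prime hp, e, map_pow, ← pow_add, map_mul]
  obtain ⟨k, hk⟩ : ∃ k, N p = 3 * k + 1 := ⟨N p / 3, by have := h1.N_mod; omega⟩
  obtain ⟨l, hl⟩ : ∃ k, N a = 3 * k + 1 := ⟨N a / 3, by have := h2.N_mod; omega⟩
  have : (3 * k + 1) * (3 * l + 1) = 3 * (k + l + 3 * (k * l)) + 1 := by ring
  rw [hk, hl, this, show (3 * k + 1 - 1) / 3 = k by omega, show (3 * l + 1 - 1) / 3 = l by omega,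
    show (3 * (k + l + 3 * (k * l)) + 1 - 1) / 3 = k + l + 3 * (k * l) by omega, pow_add _ (k + l),
    pow_mul, ← map_pow toC w 3, w_cube]
  simp

lemma N_congr (k : ℕ) {x y : O} (h : (k : O) ∣ x - y) : N x ≡ N y [MOD k] := by
  have h2 : (k : O) ∣ star x - star y := by
    have := star_dvd_star.2 h
    rwa [star_natCast, star_sub] at this
  have h3 : ((k : ℤ) : O) ∣ (N y : O) - N x := by
    rw [← mul_star_eq, ← mul_star_eq, Int.cast_natCast,
      show y * star y - x * star x = -((x - y) * star x + y * (star x - star y)) by ring, dvd_neg]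
    exact dvd_add (h.mul_right _) (h2.mul_left _)
  rw [Nat.modEq_iff_dvd]
  simpa using ((intCast_dvd_iff _ _).1 h3).1

lemma w_nine (h : (9 : O) ∣ c - 1) : chi c w = 1 := by
  have h1 : N c ≡ N 1 [MOD 9] := N_congr 9 (by exact_mod_cast h)
  rw [map_one, Nat.ModEq] at h1
  rw [chi_w (primary_of_nine h), show (N c - 1) / 3 = 3 * ((N c - 1) / 9) by omega, pow_mul,
    ← map_pow toC w 3, w_cube]
  simp

lemma lam_nine (R : S_R1) (h : (9 : O) ∣ c - 1) : chi c lam = 1 := by
  have key : ∀ c : O, (9 : O) ∣ c - 1 → chi (-2 * c) lam = 1 := by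
    rintro c ⟨t, e⟩
    have hc : Primary (-2 * c) := primary_neg_two.mul (primary_of_nine ⟨t, e⟩)
    have hb : Primary (1 + 6 * t) := ⟨2 * t, by ring⟩
    have e1 : -2 * c - 1 = lam ^ 2 * (1 + 6 * t) := by rw [lam_sq]; linear_combination -2 * e
    have e2 : chi (-2 * c) (lam ^ 2 * (1 + 6 * t)) = 1 := by
      rw [chi_congr (y := -1) ⟨1, by rw [← e1]; ring⟩, chi_neg_one]
    rw [chi_mul, R _ _ hc hb, chi_congr (n := 1 + 6 * t) (y := 1) ⟨lam ^ 2, by rw [e1]; ring⟩,
      chi_one, mul_one, chi_pow] at e2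
    have e3 := chi_cube hc.ne_zero lam
    rw [cop_of hc.isCoprime_lam.symm] at e3
    linear_combination e3 - chi (-2 * c) lam * e2
  have h1 := key c h
  have h2 := key 1 (by simp)
  rw [mul_one] at h2
  rwa [chi_mul_left (by norm_num) (primary_of_nine h).ne_zero, h2, one_mul] at h1

end PKub

open PKub

theorem pR2 (R : S_R1) : S_R2 := by
  intro c d d' hd hd' h9 hc
  by_cases h0 : c = 0
  · rw [h0, zero_dvd_iff, sub_eq_zero] at hc; rw [hc]
  obtain ⟨u, k, p, hu, hp, rfl⟩ := exists_decomp h0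
  have e1 : chi d w = chi d' w :=
    per_of_one (fun _ _ => ⟨w ^ 2, 0, by linear_combination w_cube⟩) (fun _ => w_nine) hd hd' h9
  have e2 : chi d lam = chi d' lam :=
    per_of_one (fun _ h => h.isCoprime_lam.symm) (fun _ => lam_nine R) hd hd' h9
  have e3 : chi d u = chi d' u := by
    rcases isUnit_iff.1 hu with rfl | rfl | rfl | rfl | rfl | rfl <;> simp [chi_pow, e1]
  simp only [chi_mul, chi_pow, e2, e3, R _ _ hd hp, R _ _ hd' hp,
    chi_congr ((dvd_mul_left p _).trans hc)]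

namespace PKub

variable {a b c d : O}

lemma chi_det {α β γ δ : O} (h : α * δ - β * γ = 1) :
    chi δ β * chi δ γ = 1 := by
  rw [← chi_mul, chi_congr (y := -1) ⟨α, by linear_combination -h⟩, chi_neg_one]

lemma kub0 (R : S_R1) {α β γ δ : O} (hc : 3 ∣ c) (hd : Primary d) (h : α * δ - β * γ = 1)
    (hβ : 3 ∣ β) (hδ : Primary δ) (hco : IsCoprime c δ) :
    chi (c * β + d * δ) (c * α + d * γ) = chi d c * chi δ γ := by
  have h9 : (9 : O) ∣ c * β + d * δ - d * δ := by
    obtain ⟨s, rfl⟩ := hc; obtain ⟨t, rfl⟩ := hβ; exact ⟨s * t, by ring⟩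
  have hD : Primary (c * β + d * δ) :=
    (hd.mul hδ).of_dvd_sub ((Dvd.intro 3 (by norm_num)).trans h9)
  have e1 : chi (c * β + d * δ) (c * α + d * γ) * chi (c * β + d * δ) δ =
      chi (c * β + d * δ) c := by
    rw [← chi_mul]; exact chi_congr ⟨γ, by linear_combination c * h⟩
  rw [pR2 R c _ _ hD (hd.mul hδ) h9 ⟨β, by ring⟩, chi_mul_left hd.ne_zero hδ.ne_zero, R _ _ hD hδ,
    chi_congr (n := δ) (y := c * β) ⟨d, by ring⟩, chi_mul] at e1
  have e2 := chi_det h
  have e3 : chi δ c ≠ 0 := fun e => (chi_eq_zero hδ.ne_zero).1 e hco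
  apply mul_left_cancel₀ e3
  linear_combination chi δ γ * e1 - chi (c * β + d * δ) (c * α + d * γ) * chi δ c * e2

/-- a shift that makes two elements coprime -/
lemma exists_shift (hc : c ≠ 0) (h : IsCoprime a b) : ∃ t, IsCoprime c (a + t * b) := by
  refine nz_ind (P := fun c => ∃ t, IsCoprime c (a + t * b)) (fun u hu => ⟨0, ?_⟩)
    (fun p c hp _ hc0 ⟨t, ht⟩ => ?_) hc
  · obtain ⟨v, rfl⟩ := hu; exact ⟨(v⁻¹ : Oˣ), 0, by simp⟩
  by_cases h1 : p ∣ a + t * b
  · refine ⟨t + c, IsCoprime.mul_left (hp.coprime_iff_not_dvd.2 fun h2 => ?_) ?_⟩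
    · have h3 : p ∣ c * b := by simpa [add_mul] using dvd_sub h2 h1
      rcases hp.dvd_or_dvd h3 with h4 | h4
      · exact hp.not_isUnit (ht.isUnit_of_dvd' h4 h1)
      · exact hp.not_isUnit (h.isUnit_of_dvd' (by simpa using dvd_sub h1 (h4.mul_left t)) h4)
    · rw [show a + (t + c) * b = a + t * b + c * b by ring]; exact ht.add_mul_left_right b
  · exact ⟨t, IsCoprime.mul_left (hp.coprime_iff_not_dvd.2 h1) ht⟩

end PKub

theorem pKub (R : S_R1) : S_Kub := by
  refine ⟨fun c d α β γ δ hc hd h hβ hγ hδ => ?_, fun c d hc hd => ?_, fun α β γ δ h hα hβ => ?_⟩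
  · by_cases h0 : c = 0
    · simp only [h0, zero_mul, zero_add, chi_mul_left hd.ne_zero hδ.ne_zero, chi_mul]
      by_cases hu : IsUnit d
      · simp [hd.eq_one_of_isUnit hu]
      · have e : ∀ x, d ∣ x → chi d x = 0 := fun x hx =>
          (chi_eq_zero hd.ne_zero).2 fun e => hu (e.isUnit_of_dvd' hx dvd_rfl)
        simp [e d dvd_rfl, e 0 (dvd_zero _)]
    have hco : IsCoprime δ (3 * γ) :=
      hδ.isCoprime_three.mul_right ⟨α, -β, by linear_combination h⟩
    obtain ⟨t, ht⟩ := exists_shift h0 hco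
    have h9 : ∀ x : O, 3 ∣ x → (9 : O) ∣ t * (3 * x) := by
      rintro _ ⟨s, rfl⟩; exact ⟨t * s, by ring⟩
    have h39 : (3 : O) ∣ 9 := Dvd.intro 3 (by norm_num)
    have hδ' : Primary (δ + t * (3 * γ)) := hδ.of_dvd_sub (by simpa using h39.trans (h9 γ hγ))
    have hC : 3 ∣ c * α + d * γ := dvd_add (hc.mul_right _) (hγ.mul_left _)
    have hD : Primary (c * β + d * δ) := (hd.mul hδ).of_dvd_sub (by simpa using hc.mul_right β)
    have e := kub0 R (α := α) (β := β + t * (3 * α)) (γ := γ) hc hd (by linear_combination h)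
      (dvd_add hβ ⟨t * α, by ring⟩) hδ' ht
    rw [pR2 R γ _ _ hδ' hδ (by simpa using h9 γ hγ) ⟨t * 3, by ring⟩,
      show c * (β + t * (3 * α)) + d * (δ + t * (3 * γ)) =
        c * β + d * δ + t * (3 * (c * α + d * γ)) by ring] at e
    rw [← e]
    exact pR2 R _ _ _ hD (hD.of_dvd_sub (by simpa using h39.trans (h9 _ hC)))
      (by simpa using h9 _ hC) ⟨-(t * 3), by ring⟩
  · have h1 : Primary (1 + c * d ^ 2) := by simpa [Primary] using hc.mul_right _
    have h2 : Primary (c + d) := hd.of_dvd_sub (by simpa using hc)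
    obtain ⟨s, hs⟩ := cube_nine hd
    have h3 : chi (1 + c * d ^ 2) c = 1 := by
      have e := chi_congr (n := 1 + c * d ^ 2) (x := c * d ^ 2) (y := -1) ⟨1, by ring⟩
      rwa [chi_neg_one, chi_mul, R _ _ h1 (hd.pow 2),
        chi_congr (n := d ^ 2) (y := 1) ⟨c, by ring⟩, chi_one, mul_one] at e
    rw [pR2 R c _ _ h2 (hd.mul h1) ⟨-(c * s), by linear_combination -c * hs⟩
      ⟨-(9 * s), by linear_combination -c * hs⟩, chi_mul_left hd.ne_zero h1.ne_zero, h3, mul_one]
  · have h9 : (9 : O) ∣ α * δ - 1 := by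
      rw [show α * δ - 1 = β * γ by linear_combination h]; exact hβ.mul_right _
    have hδ := (primary_of_nine h9).of_mul hα
    refine ⟨hδ, chi_congr ⟨-γ, by ring⟩, ?_⟩
    have e := pR2 R γ _ _ (hα.mul hδ) primary_one h9 ⟨β, by linear_combination h⟩
    rw [chi_one_left, chi_mul_left hα.ne_zero hδ.ne_zero] at e
    have e2 := chi_mul_conj hδ.ne_zero γ
    rw [cop_of ⟨-β, α, by linear_combination h⟩] at e2
    linear_combination conj (chi δ γ) * e - chi α γ * e2

end Pool.Agent.P.MP_26a8c3_nt.QO
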