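import Mathlib

/-!
The Eisenstein integers `O = ℤ[w]`: embedding in `ℂ`, norm, division with remainder, units,
primary elements, normalisation (`lam ^ k * primary`), residue rings.
-/

namespace Pool.Agent.P.MP_26a8c3_nt.QO

open QuadraticAlgebra Complex
open scoped ComplexConjugate

/-- Eisenstein integers `a + b w`, `w ^ 2 = -1 - w`. -/
abbrev O : Type := QuadraticAlgebra ℤ (-1) (-1)

/-- the cube root of unity -/
def w : O := ⟨0, 1⟩
/-- `lam = 1 + 2 w = sqrt (-3)` -/
def lam : O := ⟨1, 2⟩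

@[simp] lemma w_re : w.re = 0 := rfl
@[simp] lemma w_im : w.im = 1 := rfl
@[simp] lemma lam_re : lam.re = 1 := rfl
@[simp] lemma lam_im : lam.im = 2 := rfl
@[simp] lemma one_re' : (1 : O).re = 1 := rfl
@[simp] lemma one_im' : (1 : O).im = 0 := rfl

lemma w_sq : w ^ 2 = -1 - w := by ext <;> simp [sq]
lemma w_cube : w ^ 3 = 1 := by ext <;> simp [pow_succ]
lemma w_rel : w ^ 2 + w + 1 = 0 := by rw [w_sq]; ring
lemma lam_eq : lam = 1 + 2 * w := by ext <;> simp
lemma lam_sq : lam ^ 2 = -3 := by ext <;> simp [sq]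
lemma three_eq : (3 : O) = -lam ^ 2 := by rw [lam_sq]; simp
lemma star_lam : star lam = -lam := by ext <;> simp
lemma star_w : star w = w ^ 2 := by ext <;> simp [sq]
lemma eq_re_add_im (z : O) : z = (z.re : O) + (z.im : O) * w := by ext <;> simp

instance : Countable O := (equivProd (-1 : ℤ) (-1)).injective.countable

/-- `w` as a complex number -/
noncomputable def wC : ℂ := ⟨-1 / 2, √3 / 2⟩

lemma sqrt3_sq : (√3 : ℝ) * √3 = 3 := Real.mul_self_sqrt (by norm_num)
lemma sqrt3_pos : (0 : ℝ) < √3 := Real.sqrt_pos.2 (by norm_num)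

lemma wC_mul : wC * wC = -1 - wC := by
  apply Complex.ext <;> simp [wC]
  · linear_combination (-1 / 4 : ℝ) * sqrt3_sq
  · ring

/-- the embedding of `O` in `ℂ` -/
noncomputable def toC : O →+* ℂ :=
  (QuadraticAlgebra.lift (R := ℤ) (a := -1) (b := -1) ⟨wC, by rw [wC_mul]; simp; ring⟩).toRingHom

lemma toC_apply (z : O) : toC z = z.re + z.im * wC := by
  simp [toC, QuadraticAlgebra.lift]

lemma toC_re (z : O) : (toC z).re = z.re - z.im / 2 := by
  rw [toC_apply]; simp [wC]; ring

lemma toC_im (z : O) : (toC z).im = z.im * (√3 / 2) := by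
  rw [toC_apply]; simp [wC]

@[simp] lemma toC_w : toC w = wC := by simp [toC_apply]

lemma toC_lam : toC lam = √3 * I := by
  apply Complex.ext
  · simp [toC_re]
  · simp [toC_im]; ring

lemma toC_star (z : O) : toC (star z) = conj (toC z) := by
  apply Complex.ext
  · simp [toC_re]; ring
  · simp [toC_im]

lemma norm_eq (z : O) : z.norm = z.re ^ 2 - z.re * z.im + z.im ^ 2 := by
  rw [QuadraticAlgebra.norm_def]; ring

lemma norm_nonneg' (z : O) : 0 ≤ z.norm := by
  rw [norm_eq]; nlinarith [sq_nonneg (2 * z.re - z.im), sq_nonneg z.im]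

/-- the norm as a natural number -/
def N : O →*₀ ℕ where
  toFun z := z.norm.natAbs
  map_zero' := by simp
  map_one' := by simp
  map_mul' x y := by simp [Int.natAbs_mul]

lemma N_int (z : O) : (N z : ℤ) = z.re ^ 2 - z.re * z.im + z.im ^ 2 := by
  rw [← norm_eq]; exact Int.natAbs_of_nonneg (norm_nonneg' z)

lemma N_real (z : O) : (N z : ℝ) = normSq (toC z) := by
  have h := congrArg (Int.cast : ℤ → ℝ) (N_int z)
  push_cast at h
  rw [h, normSq_apply, toC_re, toC_im]
  linear_combination (-(z.im : ℝ) ^ 2 / 4) * sqrt3_sq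

lemma norm_toC_sq (z : O) : ‖toC z‖ ^ 2 = N z := by rw [N_real, Complex.sq_norm]

lemma norm_toC (z : O) : ‖toC z‖ = √(N z) := by
  rw [← norm_toC_sq, Real.sqrt_sq (norm_nonneg _)]

lemma N_complex (z : O) : (N z : ℂ) = toC z * conj (toC z) := by
  rw [mul_conj, ← N_real]; simp

lemma N_eq_zero {z : O} : N z = 0 ↔ z = 0 := by
  constructor
  · intro h
    have h1 := N_int z
    rw [h, Nat.cast_zero] at h1
    have h2 : z.im = 0 := by nlinarith [sq_nonneg (2 * z.re - z.im), sq_nonneg z.im]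
    have h3 : z.re = 0 := by rw [h2] at h1; simpa using h1.symm
    ext <;> simp [h2, h3]
  · rintro rfl; simp

lemma N_pos {z : O} (h : z ≠ 0) : 0 < N z := Nat.pos_of_ne_zero (mt N_eq_zero.1 h)
lemma one_le_N {z : O} (h : z ≠ 0) : (1 : ℝ) ≤ N z := by exact_mod_cast N_pos h
lemma N_pos_real {z : O} (h : z ≠ 0) : (0 : ℝ) < N z := by exact_mod_cast N_pos h

lemma toC_injective : Function.Injective toC := by
  rw [injective_iff_map_eq_zero]
  intro z h
  have := N_real z
  rw [h] at this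
  exact N_eq_zero.1 (by simpa using this)

@[simp] lemma toC_eq_zero {z : O} : toC z = 0 ↔ z = 0 := map_eq_zero_iff _ toC_injective
lemma toC_ne_zero {z : O} (h : z ≠ 0) : toC z ≠ 0 := mt toC_eq_zero.1 h

instance : IsDomain O := toC_injective.isDomain

lemma mul_star_eq (z : O) : z * star z = (N z : O) := by
  apply toC_injective
  rw [map_mul, toC_star, map_natCast, N_complex]

lemma dvd_N (z : O) : z ∣ (N z : O) := ⟨_, (mul_star_eq z).symm⟩

@[simp] lemma N_star (z : O) : N (star z) = N z := by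
  have := N_int (star z); have h := N_int z
  zify; rw [this, h]; simp; ring

@[simp] lemma N_neg (z : O) : N (-z) = N z := by
  have := N_int (-z); have h := N_int z
  zify; rw [this, h]; simp

@[simp] lemma N_natCast (n : ℕ) : N (n : O) = n ^ 2 := by
  have := N_int (n : O); zify; rw [this]; simp

lemma N_intCast (n : ℤ) : N (n : O) = n.natAbs ^ 2 := by
  have := N_int (n : O); zify; rw [this]; simp

@[simp] lemma N_ofNat (n : ℕ) [n.AtLeastTwo] : N (ofNat(n) : O) = ofNat(n) ^ 2 := N_natCast n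
@[simp] lemma N_w : N w = 1 := by have := N_int w; simp at this; exact_mod_cast this
@[simp] lemma N_lam : N lam = 3 := by have := N_int lam; simp at this; exact_mod_cast this

lemma lam_ne_zero : lam ≠ 0 := by intro h; simpa using congrArg QuadraticAlgebra.re h

lemma N_dvd {a b : O} (h : a ∣ b) : N a ∣ N b := map_dvd N h

lemma N_le_of_dvd {a b : O} (h : a ∣ b) (hb : b ≠ 0) : N a ≤ N b :=
  Nat.le_of_dvd (N_pos hb) (N_dvd h)

lemma isUnit_iff_N {u : O} : IsUnit u ↔ N u = 1 := by
  constructor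
  · intro h; exact Nat.isUnit_iff.1 (h.map N)
  · intro h
    refine IsUnit.of_mul_eq_one (star u) ?_
    rw [mul_star_eq, h]; simp

lemma N_unit (u : Oˣ) : N (u : O) = 1 := isUnit_iff_N.1 u.isUnit

lemma N_assoc {a b : O} (h : Associated a b) : N a = N b := by
  obtain ⟨u, rfl⟩ := h; simp [N_unit]

lemma norm_toC_unit {u : O} (h : IsUnit u) : ‖toC u‖ = 1 := by
  rw [norm_toC, isUnit_iff_N.1 h]; simp

lemma isUnit_w : IsUnit w := isUnit_iff_N.2 N_w

lemma abs_le_of_N (z : O) : 3 * z.re ^ 2 ≤ 4 * (N z : ℤ) ∧ 3 * z.im ^ 2 ≤ 4 * (N z : ℤ) := by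
  rw [N_int]
  constructor
  · nlinarith [sq_nonneg (2 * z.im - z.re)]
  · nlinarith [sq_nonneg (2 * z.re - z.im)]

/-- the six units -/
def units6 : Finset O := {1, -1, w, -w, w ^ 2, -w ^ 2}

lemma card_units6 : units6.card = 6 := by decide

lemma isUnit_iff {u : O} :
    IsUnit u ↔ u = 1 ∨ u = -1 ∨ u = w ∨ u = -w ∨ u = w ^ 2 ∨ u = -w ^ 2 := by
  constructor
  · intro h
    have h1 := isUnit_iff_N.1 h
    obtain ⟨h2, h3⟩ := abs_le_of_N u
    have h4 := N_int u
    rw [h1] at h2 h3 h4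
    obtain ⟨a, b⟩ := u
    simp only [Nat.cast_one] at h2 h3 h4
    have ha : -1 ≤ a ∧ a ≤ 1 := by constructor <;> nlinarith
    have hb : -1 ≤ b ∧ b ≤ 1 := by constructor <;> nlinarith
    obtain ⟨ha1, ha2⟩ := ha
    obtain ⟨hb1, hb2⟩ := hb
    interval_cases a <;> interval_cases b <;> first | (exfalso; revert h4; decide) | decide
  · rintro (rfl | rfl | rfl | rfl | rfl | rfl) <;> rw [isUnit_iff_N] <;> simp

lemma mem_units6 {u : O} : u ∈ units6 ↔ IsUnit u := by rw [isUnit_iff]; simp [units6]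

lemma unit_pow_six {u : O} (h : IsUnit u) : u ^ 6 = 1 := by
  rcases isUnit_iff.1 h with rfl | rfl | rfl | rfl | rfl | rfl <;> decide

/-- only finitely many elements of bounded norm -/
lemma finite_N_le (n : ℕ) : {z : O | N z ≤ n}.Finite := by
  refine ((Set.finite_Icc (-(2 * n : ℤ)) (2 * n)).prod (Set.finite_Icc (-(2 * n : ℤ)) (2 * n))).preimage
    (f := fun z : O => (z.re, z.im)) (fun a _ b _ h => ?_) |>.subset ?_
  · simp only [Prod.mk.injEq] at h; exact QuadraticAlgebra.ext h.1 h.2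
  · intro z hz
    obtain ⟨h2, h3⟩ := abs_le_of_N z
    have h1 : (N z : ℤ) ≤ n := by exact_mod_cast hz
    have h0 : (0 : ℤ) ≤ n := by positivity
    simp only [Set.mem_preimage, Set.mem_prod, Set.mem_Icc]
    refine ⟨⟨?_, ?_⟩, ?_, ?_⟩ <;> by_contra hc <;> push Not at hc <;> nlinarith

lemma finite_N_le_real (y : ℝ) : {z : O | (N z : ℝ) ≤ y}.Finite :=
  (finite_N_le ⌊y⌋₊).subset fun _ hz => Nat.le_floor hz

/-- division with remainder -/
lemma exists_div (x : O) {y : O} (hy : y ≠ 0) : ∃ q r : O, x = y * q + r ∧ N r < N y := by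
  have hn : (0 : ℤ) < N y := by exact_mod_cast N_pos hy
  set n : ℤ := ((N y : ℕ) : ℤ) with hndef
  set s := x * star y with hs
  -- nearest multiples of `n`
  have key : ∀ a : ℤ, ∃ q r : ℤ, a = n * q + r ∧ -n ≤ 2 * r ∧ 2 * r ≤ n := by
    intro a
    refine ⟨(2 * a + n) / (2 * n), a - n * ((2 * a + n) / (2 * n)), by ring, ?_, ?_⟩
    · have := Int.emod_nonneg (2 * a + n) (b := 2 * n) (by omega)
      have h2 := Int.mul_ediv_add_emod (2 * a + n) (2 * n)
      linarith
    · have := Int.emod_lt_of_pos (2 * a + n) (b := 2 * n) (by omega)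
      have h2 := Int.mul_ediv_add_emod (2 * a + n) (2 * n)
      linarith
  obtain ⟨q1, r1, e1, a1, b1⟩ := key s.re
  obtain ⟨q2, r2, e2, a2, b2⟩ := key s.im
  refine ⟨⟨q1, q2⟩, x - y * ⟨q1, q2⟩, by ring, ?_⟩
  have e3 : (x - y * ⟨q1, q2⟩) * star y = ⟨r1, r2⟩ := by
    have : (x - y * ⟨q1, q2⟩) * star y = s - (y * star y) * ⟨q1, q2⟩ := by rw [hs]; ring
    rw [this, mul_star_eq]
    ext
    · simp; rw [← hndef]; linarith
    · simp; rw [← hndef]; linarith
  have e4 := congrArg (fun z => (N z : ℤ)) e3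
  simp only [map_mul, N_star, Nat.cast_mul] at e4
  rw [N_int (⟨r1, r2⟩ : O), ← hndef] at e4
  simp only at e4
  have e5 : (N (x - y * ⟨q1, q2⟩) : ℤ) < n := by
    by_contra hc
    push Not at hc
    have h1 : n * n ≤ r1 ^ 2 - r1 * r2 + r2 ^ 2 := by rw [← e4]; nlinarith
    have h2 : 4 * r1 ^ 2 ≤ n ^ 2 := by nlinarith
    have h3 : 4 * r2 ^ 2 ≤ n ^ 2 := by nlinarith
    nlinarith [sq_nonneg (r1 + r2)]
  rw [hndef] at e5
  exact_mod_cast e5

instance : IsPrincipalIdealRing O := by
  refine ⟨fun I => ?_⟩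
  by_cases h : ∃ x ∈ I, x ≠ 0
  · classical
    have h' : ∃ n, ∃ x ∈ I, x ≠ 0 ∧ N x = n := by
      obtain ⟨x, hx, h0⟩ := h; exact ⟨_, x, hx, h0, rfl⟩
    obtain ⟨y, hy, hy0, hyn⟩ := Nat.find_spec h'
    refine ⟨y, le_antisymm (fun x hx => ?_) ((Submodule.span_singleton_le_iff_mem _ _).2 hy)⟩
    obtain ⟨q, r, e, hr⟩ := exists_div x hy0
    have hrI : r ∈ I := by
      have : r = x - y * q := by rw [e]; ring
      rw [this]; exact I.sub_mem hx (I.mul_mem_right _ hy)
    by_cases hr0 : r = 0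
    · rw [e, hr0, add_zero]; exact Ideal.mem_span_singleton.2 ⟨q, rfl⟩
    · exact absurd (Nat.find_min' h' ⟨r, hrI, hr0, rfl⟩) (by omega)
  · push Not at h
    exact ⟨0, by ext x; simpa using ⟨h x, fun e => e ▸ I.zero_mem⟩⟩

/-! ### divisibility by integers and by `lam` -/

lemma intCast_dvd_iff (n : ℤ) (z : O) : (n : O) ∣ z ↔ n ∣ z.re ∧ n ∣ z.im := by
  constructor
  · rintro ⟨c, rfl⟩; simp
  · rintro ⟨⟨a, ha⟩, b, hb⟩; exact ⟨⟨a, b⟩, by ext <;> simp [ha, hb]⟩

lemma three_dvd_iff (z : O) : (3 : O) ∣ z ↔ (3 : ℤ) ∣ z.re ∧ (3 : ℤ) ∣ z.im := by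
  simpa using intCast_dvd_iff 3 z

lemma lam_dvd_iff (z : O) : lam ∣ z ↔ (3 : ℤ) ∣ z.re + z.im := by
  constructor
  · rintro ⟨c, rfl⟩; simp; exact ⟨c.re - c.im, by ring⟩
  · rintro ⟨k, hk⟩
    refine ⟨⟨z.im - k, z.im - 2 * k⟩, ?_⟩
    ext <;> simp <;> omega

lemma lam_dvd_iff_N (z : O) : lam ∣ z ↔ 3 ∣ N z := by
  constructor
  · intro h; simpa using N_dvd h
  · intro h
    have h1 : (3 : ℤ) ∣ N z := by exact_mod_cast h
    rw [N_int] at h1
    rw [lam_dvd_iff]
    have h2 : (3 : ℤ) ∣ (z.re + z.im) ^ 2 := by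
      have : (z.re + z.im) ^ 2 = (z.re ^ 2 - z.re * z.im + z.im ^ 2) + 3 * (z.re * z.im) := by ring
      rw [this]; exact dvd_add h1 (dvd_mul_right _ _)
    exact Int.prime_three.dvd_of_dvd_pow h2

lemma lam_dvd_three : lam ∣ (3 : O) := by rw [lam_dvd_iff_N]; simp

lemma prime_lam : Prime lam := by
  refine ⟨lam_ne_zero, by rw [isUnit_iff_N]; simp, fun a b h => ?_⟩
  simp only [lam_dvd_iff_N, map_mul] at h ⊢
  exact (Nat.Prime.dvd_mul Nat.prime_three).1 h

lemma prime_of_N {p : O} (h : (N p).Prime) : Prime p := by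
  refine Irreducible.prime ⟨by rw [isUnit_iff_N]; exact h.one_lt.ne', fun a b e => ?_⟩
  have := (Nat.irreducible_iff_nat_prime _ |>.2 h).isUnit_or_isUnit (a := N a) (b := N b)
    (by rw [e, map_mul])
  simpa [isUnit_iff_N] using this

lemma N_mod_three {z : O} (h : ¬lam ∣ z) : N z % 3 = 1 := by
  rw [lam_dvd_iff] at h
  have h1 := N_int z
  have : (N z : ℤ) % 3 = 1 := by
    have e : (N z : ℤ) = (z.re + z.im) ^ 2 - 3 * (z.re * z.im) := by rw [h1]; ring
    rw [e]
    generalize z.re + z.im = t at h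
    generalize z.re * z.im = s
    have : t % 3 = 1 ∨ t % 3 = 2 := by omega
    rcases this with h2 | h2 <;> simp [Int.sub_emod, sq, Int.mul_emod, h2]
  omega

lemma two_dvd_iff_N (z : O) : (2 : O) ∣ z ↔ 2 ∣ N z := by
  constructor
  · intro h; exact Dvd.dvd.trans (by simp) (N_dvd h)
  · intro h
    have h1 : (2 : ℤ) ∣ N z := by exact_mod_cast h
    rw [N_int] at h1
    have := intCast_dvd_iff 2 z
    simp only [Int.cast_ofNat] at this
    rw [this]
    rcases Int.emod_two_eq_zero_or_one z.re with h2 | h2 <;>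
      rcases Int.emod_two_eq_zero_or_one z.im with h3 | h3 <;>
      first
      | omega
      | (exfalso
         have := Int.emod_eq_zero_of_dvd h1
         simp [Int.add_emod, Int.sub_emod, sq, Int.mul_emod, h2, h3] at this)

lemma prime_two : Prime (2 : O) := by
  refine ⟨two_ne_zero, by rw [isUnit_iff_N]; simp, fun a b h => ?_⟩
  simp only [two_dvd_iff_N, map_mul] at h ⊢
  exact (Nat.Prime.dvd_mul Nat.prime_two).1 h

/-! ### primary elements -/

/-- primary: congruent to `1` modulo `3` -/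
def Primary (x : O) : Prop := (3 : O) ∣ x - 1

lemma primary_iff (x : O) : Primary x ↔ x.re % 3 = 1 ∧ x.im % 3 = 0 := by
  rw [Primary, three_dvd_iff]; simp; omega

instance : DecidablePred Primary := fun x => decidable_of_iff _ (primary_iff x).symm

lemma primary_one : Primary 1 := by simp [Primary]
lemma primary_neg_two : Primary (-2) := ⟨-1, by norm_num⟩

lemma Primary.mul {x y : O} (hx : Primary x) (hy : Primary y) : Primary (x * y) := by
  have : x * y - 1 = (x - 1) * y + (y - 1) := by ring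
  rw [Primary, this]; exact dvd_add (hx.mul_right _) hy

lemma Primary.pow {x : O} (hx : Primary x) (n : ℕ) : Primary (x ^ n) := by
  induction n with
  | zero => simpa using primary_one
  | succ n ih => rw [pow_succ]; exact ih.mul hx

lemma Primary.of_mul {x y : O} (hxy : Primary (x * y)) (hx : Primary x) : Primary y := by
  have : y - 1 = (x * y - 1) - (x - 1) * y := by ring
  rw [Primary, this]; exact dvd_sub hxy (hx.mul_right _)

lemma Primary.star {x : O} (hx : Primary x) : Primary (star x) := by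
  rw [primary_iff] at hx ⊢; simp; omega

lemma Primary.not_lam_dvd {x : O} (hx : Primary x) : ¬lam ∣ x := by
  rw [primary_iff] at hx; rw [lam_dvd_iff]; omega

lemma Primary.ne_zero {x : O} (hx : Primary x) : x ≠ 0 := by
  rintro rfl; exact hx.not_lam_dvd (dvd_zero _)

lemma Primary.N_mod {x : O} (hx : Primary x) : N x % 3 = 1 := N_mod_three hx.not_lam_dvd

lemma Primary.of_dvd_sub {x y : O} (hx : Primary x) (h : (3 : O) ∣ y - x) : Primary y := by
  have : y - 1 = (y - x) + (x - 1) := by ring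
  rw [Primary, this]; exact dvd_add h hx

lemma Primary.isCoprime_three {x : O} (hx : Primary x) : IsCoprime x 3 := by
  obtain ⟨c, hc⟩ := hx
  exact ⟨1, -c, by linear_combination hc⟩

lemma Primary.isCoprime_lam {x : O} (hx : Primary x) : IsCoprime x lam :=
  hx.isCoprime_three.of_isCoprime_of_dvd_right lam_dvd_three

lemma Primary.eq_one_of_isUnit {u : O} (hu : Primary u) (h : IsUnit u) : u = 1 := by
  rcases isUnit_iff.1 h with rfl | rfl | rfl | rfl | rfl | rfl <;> first | rfl | (revert hu; decide)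

lemma Primary.eq_of_associated {a b : O} (ha : Primary a) (hb : Primary b) (h : Associated a b) : a = b := by
  obtain ⟨u, rfl⟩ := h
  rw [(hb.of_mul ha).eq_one_of_isUnit u.isUnit, mul_one]

lemma exists_primary {x : O} (h : ¬lam ∣ x) : ∃ u : O, IsUnit u ∧ Primary (u * x) := by
  rw [lam_dvd_iff] at h
  simp only [isUnit_iff, primary_iff]
  have h1 : x.re % 3 = 0 ∨ x.re % 3 = 1 ∨ x.re % 3 = 2 := by omega
  have h2 : x.im % 3 = 0 ∨ x.im % 3 = 1 ∨ x.im % 3 = 2 := by omega
  simp only [exists_eq_or_imp, exists_eq_left, sq]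
  simp
  omega

/-- normalised elements: a power of `lam` times a primary element -/
def Nrm (x : O) : Prop := ∃ (k : ℕ) (p : O), Primary p ∧ x = lam ^ k * p

lemma Primary.nrm {x : O} (hx : Primary x) : Nrm x := ⟨0, x, hx, by simp⟩
lemma nrm_one : Nrm 1 := primary_one.nrm
lemma nrm_lam : Nrm lam := ⟨1, 1, primary_one, by simp⟩
lemma Nrm.ne_zero {x : O} (hx : Nrm x) : x ≠ 0 := by
  obtain ⟨k, p, hp, rfl⟩ := hx; exact mul_ne_zero (pow_ne_zero _ lam_ne_zero) hp.ne_zero

lemma Nrm.mul {x y : O} (hx : Nrm x) (hy : Nrm y) : Nrm (x * y) := by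
  obtain ⟨k, p, hp, rfl⟩ := hx
  obtain ⟨l, q, hq, rfl⟩ := hy
  exact ⟨k + l, p * q, hp.mul hq, by ring⟩

lemma Nrm.primary {x : O} (hx : Nrm x) (h : ¬lam ∣ x) : Primary x := by
  obtain ⟨k, p, hp, rfl⟩ := hx
  cases k with
  | zero => simpa using hp
  | succ k => exact absurd ((dvd_pow_self lam k.succ_ne_zero).mul_right p) h

lemma lam_pow_inj {k l : ℕ} {a b : O} (ha : ¬lam ∣ a) (hb : ¬lam ∣ b)
    (h : lam ^ k * a = lam ^ l * b) : k = l ∧ a = b := by
  have key : ∀ {k l : ℕ} {a b : O}, ¬lam ∣ a → lam ^ k * a = lam ^ l * b → l ≤ k := by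
    intro k l a b ha h
    by_contra hc
    obtain ⟨m, rfl⟩ : ∃ m, l = k + (m + 1) := ⟨l - k - 1, by omega⟩
    rw [pow_add, mul_assoc] at h
    exact ha ⟨lam ^ m * b, by
      rw [mul_left_cancel₀ (pow_ne_zero k lam_ne_zero) h]; ring⟩
  have e : k = l := le_antisymm (key hb h.symm) (key ha h)
  subst e
  exact ⟨rfl, mul_left_cancel₀ (pow_ne_zero k lam_ne_zero) h⟩

lemma Nrm.eq_of_associated {a b : O} (ha : Nrm a) (hb : Nrm b) (h : Associated a b) : a = b := by
  obtain ⟨k, p, hp, rfl⟩ := ha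
  obtain ⟨l, q, hq, rfl⟩ := hb
  obtain ⟨u, hu⟩ := h
  rw [mul_assoc] at hu
  have h1 : ¬lam ∣ p * u := fun h => hp.not_lam_dvd ((Units.dvd_mul_right).1 h)
  obtain ⟨rfl, e⟩ := lam_pow_inj h1 hq.not_lam_dvd hu
  rw [hp.eq_of_associated hq ⟨u, e⟩]

/-- every nonzero element is unit times power of `lam` times primary -/
lemma exists_decomp {x : O} (hx : x ≠ 0) :
    ∃ (u : O) (k : ℕ) (p : O), IsUnit u ∧ Primary p ∧ x = u * lam ^ k * p := by
  obtain ⟨k, a, ha, rfl⟩ := WfDvdMonoid.max_power_factor hx prime_lam.irreducible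
  obtain ⟨u, hu, hp⟩ := exists_primary ha
  obtain ⟨v, rfl⟩ := hu
  refine ⟨(v⁻¹ : Oˣ), k, v * a, (v⁻¹).isUnit, hp, ?_⟩
  have : ((v⁻¹ : Oˣ) : O) * v = 1 := by simp
  linear_combination (-(lam ^ k * a)) * this

lemma exists_nrm (a : Associates O) : ∃ x : O, (x = 0 ∨ Nrm x) ∧ Associates.mk x = a := by
  obtain ⟨y, rfl⟩ := Associates.mk_surjective a
  by_cases hy : y = 0
  · exact ⟨0, Or.inl rfl, by rw [hy]⟩
  · obtain ⟨u, k, p, hu, hp, rfl⟩ := exists_decomp hy
    refine ⟨lam ^ k * p, Or.inr ⟨k, p, hp, rfl⟩, Associates.mk_eq_mk_iff_associated.2 ?_⟩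
    exact ⟨hu.unit, by simp; ring⟩

lemma nrm0_unique {a b : O} (ha : a = 0 ∨ Nrm a) (hb : b = 0 ∨ Nrm b) (h : Associated a b) :
    a = b := by
  rcases ha with rfl | ha
  · exact ((associated_zero_iff_eq_zero b).1 h.symm).symm
  rcases hb with rfl | hb
  · exact (associated_zero_iff_eq_zero a).1 h
  · exact ha.eq_of_associated hb h

/-- the normalised representative of an associate class -/
noncomputable def outN : Associates O →* O where
  toFun a := (exists_nrm a).choose
  map_one' := nrm0_unique (exists_nrm 1).choose_spec.1 (Or.inr nrm_one)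
    (Associates.mk_eq_mk_iff_associated.1 (exists_nrm 1).choose_spec.2)
  map_mul' a b := by
    refine nrm0_unique (exists_nrm _).choose_spec.1 ?_ (Associates.mk_eq_mk_iff_associated.1 ?_)
    · rcases (exists_nrm a).choose_spec.1 with h | h
      · left; rw [h, zero_mul]
      rcases (exists_nrm b).choose_spec.1 with h' | h'
      · left; rw [h', mul_zero]
      · exact Or.inr (h.mul h')
    · rw [← Associates.mk_mul_mk, (exists_nrm a).choose_spec.2, (exists_nrm b).choose_spec.2,
        (exists_nrm _).choose_spec.2]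

noncomputable instance : StrongNormalizationMonoid O :=
  strongNormalizationMonoidOfMonoidHomRightInverse outN fun a => (exists_nrm a).choose_spec.2

noncomputable instance : StrongNormalizedGCDMonoid O :=
  UniqueFactorizationMonoid.toStrongNormalizedGCDMonoid O

lemma normalize_eq_outN (x : O) : normalize x = outN (Associates.mk x) := by
  by_cases hx : x = 0
  · subst hx
    rw [normalize_zero]
    exact nrm0_unique (Or.inl rfl) (exists_nrm _).choose_spec.1
      (Associates.mk_eq_mk_iff_associated.1 (exists_nrm _).choose_spec.2.symm)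
  · have h := Classical.choose_spec (Associates.mk_eq_mk_iff_associated.1
      ((exists_nrm (Associates.mk x)).choose_spec.2).symm)
    refine Eq.trans ?_ h
    rw [normalize_apply]
    congr 2
    exact if_neg hx

lemma nrm_normalize {x : O} (hx : x ≠ 0) : Nrm (normalize x) := by
  rw [normalize_eq_outN]
  refine (exists_nrm _).choose_spec.1.resolve_left fun h => hx ?_
  have := (exists_nrm (Associates.mk x)).choose_spec.2
  rw [h] at this
  simpa using this.symm

lemma normalize_eq_self_iff {x : O} (hx : x ≠ 0) : normalize x = x ↔ Nrm x :=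
  ⟨fun h => h ▸ nrm_normalize hx, fun h => (nrm_normalize hx).eq_of_associated h
    (normalize_associated x)⟩

lemma Nrm.normalize {x : O} (hx : Nrm x) : normalize x = x := (normalize_eq_self_iff hx.ne_zero).2 hx
lemma Primary.normalize {x : O} (hx : Primary x) : normalize x = x := hx.nrm.normalize

lemma primary_normalize {x : O} (h : ¬lam ∣ x) : Primary (normalize x) :=
  (nrm_normalize (by rintro rfl; exact h (dvd_zero _))).primary fun h' =>
    h (h'.trans (normalize_associated x).dvd)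

@[simp] lemma N_normalize (x : O) : N (normalize x) = N x := N_assoc (normalize_associated x)

/-! ### residue rings -/

/-- the residue ring `O / n` -/
abbrev Rq (n : O) : Type := O ⧸ Ideal.span {n}

/-- reduction modulo `n` -/
abbrev mk (n : O) : O →+* Rq n := Ideal.Quotient.mk _

lemma mk_eq_iff {n a b : O} : mk n a = mk n b ↔ n ∣ a - b := by
  rw [Ideal.Quotient.eq, Ideal.mem_span_singleton]

lemma mk_eq_zero {n a : O} : mk n a = 0 ↔ n ∣ a := by
  rw [Ideal.Quotient.eq_zero_iff_mem, Ideal.mem_span_singleton]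

lemma mk_surj (n : O) : Function.Surjective (mk n) := Ideal.Quotient.mk_surjective

lemma card_Rq (n : O) : Nat.card (Rq n) = N n := by
  have h := Ideal.absNorm_span_singleton (S := O) n
  rw [Ideal.absNorm_apply, Submodule.cardQuot_apply] at h
  rw [h, Algebra.norm_apply]
  have := det_toLinearMap_eq_norm n
  change _ = n.norm.natAbs
  rw [← this]
  rfl

lemma finite_Rq {n : O} (hn : n ≠ 0) : Finite (Rq n) :=
  Nat.finite_of_card_ne_zero (by rw [card_Rq]; exact (N_pos hn).ne')

lemma isUnit_mk_iff {n a : O} : IsUnit (mk n a) ↔ IsCoprime a n := by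
  constructor
  · intro h
    obtain ⟨b, hb⟩ := h.exists_right_inv
    obtain ⟨b, rfl⟩ := mk_surj n b
    rw [← map_mul, ← map_one (mk n), mk_eq_iff] at hb
    obtain ⟨c, hc⟩ := hb
    exact ⟨b, -c, by linear_combination hc⟩
  · rintro ⟨b, c, h⟩
    refine IsUnit.of_mul_eq_one (mk n b) ?_
    rw [← map_mul, ← map_one (mk n), mk_eq_iff]
    exact ⟨-c, by linear_combination h⟩

instance (p : O) [h : Fact (Prime p)] : (Ideal.span {p}).IsMaximal :=
  PrincipalIdealRing.isMaximal_of_irreducible h.out.irreducible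

noncomputable instance (p : O) [Fact (Prime p)] : Field (Rq p) := Ideal.Quotient.field _

noncomputable instance (p : O) [h : Fact (Prime p)] : Fintype (Rq p) :=
  have := finite_Rq h.out.ne_zero
  Fintype.ofFinite _

lemma fcard_Rq (p : O) [Fact (Prime p)] : Fintype.card (Rq p) = N p := by
  rw [← Nat.card_eq_fintype_card, card_Rq]

lemma two_le_N {p : O} (hp : Prime p) : 2 ≤ N p := by
  have h0 := N_pos hp.ne_zero
  have h1 : N p ≠ 1 := fun h => hp.not_isUnit (isUnit_iff_N.2 h)
  omega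

/-- Fermat's little theorem -/
lemma dvd_pow_N_sub {p : O} (hp : Prime p) (a : O) : p ∣ a ^ N p - a := by
  have := Fact.mk hp
  rw [← mk_eq_iff, map_pow, ← fcard_Rq, FiniteField.pow_card]

lemma dvd_pow_N_sub_one {p a : O} (hp : Prime p) (ha : ¬p ∣ a) : p ∣ a ^ (N p - 1) - 1 := by
  have := Fact.mk hp
  rw [← mk_eq_iff, map_pow, ← fcard_Rq, map_one]
  exact FiniteField.pow_card_sub_one_eq_one _ (mt mk_eq_zero.1 ha)

lemma six_dvd_N_sub_one {z : O} (h3 : ¬lam ∣ z) (h2 : ¬(2 : O) ∣ z) : N z % 6 = 1 := by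
  have := N_mod_three h3
  rw [two_dvd_iff_N] at h2
  omega

end Pool.Agent.P.MP_26a8c3_nt.QO
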