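import Pool.Agent.P.MP_26a8c3_nt.QO.Eis

/-! Residue sums, residue symbols, Gauss sums and kernels on the Eisenstein integers. -/

namespace Pool.Agent.P.MP_26a8c3_nt.QO

open scoped Classical ComplexConjugate

noncomputable section

/-! ### sums over residues -/

/-- the additive character `exp (2 π i Tr (x / (lam q)))` -/
def el (x q : O) : ℂ :=
  Complex.exp (2 * Real.pi * Complex.I * (((x * star q).im : ℂ) / (N q : ℂ)))

/-- periodicity modulo `q` -/
def Per (q : O) (F : O → ℂ) : Prop := ∀ x y : O, q ∣ x - y → F x = F y

/-- sum over a residue system modulo `q` -/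
def sm (q : O) (F : O → ℂ) : ℂ := ∑ᶠ r : Rq q, F r.out

/-- finite Fourier transform modulo `q` -/
def ft (F : O → ℂ) (q h : O) : ℂ := sm q fun x => F x * el (x * h) q

/-- the self-dual constant -/
def a0 : ℝ := 2 * Real.pi / √3

/-- the self-dual Gaussian, as a function of the norm -/
def G (y : ℝ) : ℝ := Real.exp (-(a0 * y))

/-! ### symbols -/

/-- the product of `f` over the prime factors of `n`, with multiplicity -/
def ext (f : O → ℂ) (n : O) : ℂ := ((UniqueFactorizationMonoid.normalizedFactors n).map f).prod

/-- the cubic residue symbol at a prime (the trivial character at the prime over three) -/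
def s3 (p m : O) : O :=
  if p ∣ m then 0 else if p ∣ m ^ ((N p - 1) / 3) - 1 then 1
    else if p ∣ m ^ ((N p - 1) / 3) - w then w else w ^ 2

/-- the quadratic residue symbol at a prime (the trivial character at two) -/
def s2 (p m : O) : ℂ := if p ∣ m then 0 else if ∃ y, p ∣ m - y ^ 2 then 1 else -1

/-- the cubic symbol of `m` modulo `n` -/
def chi (n m : O) : ℂ := ext (fun p => toC (s3 p m)) n

/-- the quadratic symbol of `m` modulo `n` -/
def eta (n m : O) : ℂ := ext (fun p => s2 p m) n

/-- the sextic symbol of `m` modulo `n` -/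
def psi (n m : O) : ℂ := eta n m * conj (chi n m)

/-- the Moebius function -/
def mu (n : O) : ℂ := if Squarefree n then ext (fun _ => -1) n else 0

/-- the Euler function of a squarefree element -/
def phs (n : O) : ℂ := ext (fun p => (N p : ℂ) - 1) n

/-- primary and squarefree -/
def SQ (c : O) : Prop := Primary c ∧ Squarefree c

/-- prime to two -/
def Od (c : O) : Prop := IsCoprime c 2

/-- primary, squarefree and odd -/
def SQO (c : O) : Prop := SQ c ∧ Od c

/-- elements of norm at most `Y` -/
def ball (Y : ℝ) : Finset O := (finite_N_le_real Y).toFinset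

/-- primary divisors -/
def pdiv (c : O) : Finset O := (ball (N c)).filter fun d => Primary d ∧ d ∣ c

/-- number of primary divisors -/
def dv (c : O) : ℝ := ((pdiv c).card : ℝ)

/-- the indicator of coprimality -/
def cop (q x : O) : ℂ := if IsCoprime x q then 1 else 0

/-- absolute value -/
def ab (x : O) : ℝ := ‖toC x‖

/-- argument (zero at zero) -/
def ang (x : O) : ℂ := toC x / (ab x : ℂ)

/-- characters modulo `Q`, extended by zero -/
structure IsNu (Q : O) (ν : O → ℂ) : Prop where
  one : ν 1 = 1
  mul : ∀ a b, ν (a * b) = ν a * ν b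
  per : Per Q ν
  zero : ∀ a, ¬ IsCoprime a Q → ν a = 0
  le : ∀ a, ‖ν a‖ ≤ 1

/-- normalised quadratic Gauss sum, as a function of the modulus -/
def gam (n : O) : ℂ := (1 + el (-n) 4 + el (-(n * w ^ 2)) 4 + el (-(n * w)) 4) / 2

/-- the sign in quadratic reciprocity; for fixed odd `k` a real character modulo `4` -/
def xi (k n : O) : ℂ := if Od (k * n) then gam (k * n) / (gam k * gam n) else 0

/-- the four classes of odd elements modulo squares modulo `4` -/
def cls : Finset O := {1, -1, lam, -lam}

/-- conjugate normalised cubic Gauss sum -/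
def tau (c : O) : ℂ := conj (ft (chi c) c 1) / (ab c : ℂ)

/-- coefficient in the dual sum -/
def bb (c : O) : ℂ := conj (chi c 2) * ang c * tau c

/-- local kernel `Np 1_{p^2 | m} - 1_{p | m}` -/
def kP (p m : O) : ℂ := (if p ^ 2 ∣ m then (N p : ℂ) else 0) - if p ∣ m then 1 else 0

/-- product of the local kernels -/
def kk (g m : O) : ℂ := ext (fun p => kP p m) g

/-- `∏ (1 - Np 1_{p^2 | m})` -/
def jj (e m : O) : ℂ := ∑ f ∈ pdiv e, if f ^ 2 ∣ m then mu f * (N f : ℂ) else 0

/-- the kernel whose Poisson dual is `conj (psi a h) * psi b h` -/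
def KK (a b m : O) : ℂ :=
  ext (fun p => if p ∣ b then kP p m else psi p m) a *
    ext (fun p => if p ∣ a then 1 else conj (psi p m)) b

/-- the quadratic analogue of `KK` -/
def KE (a b m : O) : ℂ :=
  ext (fun p => if p ∣ b then kP p m else eta p m) a *
    ext (fun p => if p ∣ a then 1 else eta p m) b

/-- the exact quotient -/
def quo (a e : O) : O := if h : e ∣ a then h.choose else 0

end

end Pool.Agent.P.MP_26a8c3_nt.QO
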